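import Mathlib
import Pool.Agent.H33.Q1.Layers
import Pool.Agent.H33.Q1.A.Chain

set_option autoImplicit false
open Finset

/-! # Plane environments on the tiles of a shape, root at a convex corner

`Nb n Q r p` : no tile of the cells of `Q` at sup distance `≤ r` of the tile `p`. `root_low` : the root face
at a convex corner is joined to infinity off `TL Q (2 h) ∪ W` if all tiles of `W` are near `Q` and the tile
`ot2` next to the corner is not in `W`. -/

namespace Pool.Agent.H33.Q1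

open Pool.Agent.H75.Perc hiding WL CT hh
open Pool.Agent.H75.TwoArm Pool.Agent.H75.Four Pool.Agent.H69.Q1 Pool.Agent.Q1
open Pool.Agent.H5.Q1 (oc vx_oc ty_oc fi_oc oc_congr)
open Pool.Agent.Q1.M4 (Cell Good IsSide nextSide tail head PType Adj4 Conn4)

/-- no tile of `Q` near `p` -/
def Nb (n : ℤ) (Q : Finset Cell) (r : ℤ) (p : ℤ × ℤ) : Prop :=
  ∀ q : ℤ × ℤ, |q.1 - p.1| ≤ r → |q.2 - p.2| ≤ r → ct n q ∉ Q

/-! ### Open and closed tiles with a common edge -/

lemma share_end (p : ℤ × ℤ) (k : ℤ) : ∃ v, (v = eu (lt p) ∨ v = ev (lt p)) ∧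
    (v = eu (lt (p + dir k)) ∨ v = ev (lt (p + dir k))) := by
  have hpar : (p.1 + p.2) % 2 = 0 ∨ (p.1 + p.2) % 2 = 1 := by omega
  unfold eu ev lt
  rcases dir_cases k with ⟨-, e⟩ | ⟨-, e⟩ | ⟨-, e⟩ | ⟨-, e⟩ <;> rw [e] <;>
    simp only [Prod.fst_add, Prod.snd_add] <;> rcases hpar with h | h
  all_goals first
    | exact ⟨_, Or.inl rfl, Or.inl (Prod.ext (by simp only; omega) (by simp only; omega))⟩
    | exact ⟨_, Or.inl rfl, Or.inr (Prod.ext (by simp only; omega) (by simp only; omega))⟩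
    | exact ⟨_, Or.inr rfl, Or.inl (Prod.ext (by simp only; omega) (by simp only; omega))⟩
    | exact ⟨_, Or.inr rfl, Or.inr (Prod.ext (by simp only; omega) (by simp only; omega))⟩

lemma zf_even {q : ℤ × ℤ} (h : (q.1 + q.2) % 2 = 0) :
    fi (zu (lt q)) = fct (q + (1, 0)) ∧ fi (zv (lt q)) = fct (q + (0, 1)) := by
  unfold fi zu zv lt fct
  rw [if_pos (by simp only; omega), if_pos (by simp only; omega)]
  constructor <;> refine Prod.ext ?_ ?_ <;> simp only [Prod.fst_add, Prod.snd_add] <;> omega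

lemma zf_odd {q : ℤ × ℤ} (h : (q.1 + q.2) % 2 = 1) :
    fi (zu (lt q)) = fct q ∧ fi (zv (lt q)) = fct (q + (1, 1)) := by
  unfold fi zu zv lt fct
  rw [if_neg (by simp only; omega), if_neg (by simp only; omega)]
  constructor <;> refine Prod.ext ?_ ?_ <;> simp only [Prod.fst_add, Prod.snd_add] <;> omega

lemma share_face (p : ℤ × ℤ) (k : ℤ) : ∃ f, (f = fi (zu (lt p)) ∨ f = fi (zv (lt p))) ∧
    (f = fi (zu (lt (p + dir k))) ∨ f = fi (zv (lt (p + dir k)))) := by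
  have e : ∀ a b : ℤ × ℤ, a.1 = b.1 → a.2 = b.2 → fct a = fct b := fun a b h h' => by
    rw [Prod.ext h h']
  have hpar : (p.1 + p.2) % 2 = 0 ∨ (p.1 + p.2) % 2 = 1 := by omega
  rcases dir_cases k with ⟨-, e'⟩ | ⟨-, e'⟩ | ⟨-, e'⟩ | ⟨-, e'⟩ <;> rw [e'] <;>
    rcases hpar with h | h
  · obtain ⟨a1, a2⟩ := zf_even h
    obtain ⟨b1, b2⟩ := zf_odd (q := p + (1, 0)) (by simp only [Prod.fst_add, Prod.snd_add]; omega)
    rw [a1, a2, b1, b2]
    exact ⟨_, Or.inl rfl, Or.inl rfl⟩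
  · obtain ⟨a1, a2⟩ := zf_odd h
    obtain ⟨b1, b2⟩ := zf_even (q := p + (1, 0)) (by simp only [Prod.fst_add, Prod.snd_add]; omega)
    rw [a1, a2, b1, b2]
    exact ⟨_, Or.inr rfl, Or.inr (e _ _ (by simp) (by simp))⟩
  · obtain ⟨a1, a2⟩ := zf_even h
    obtain ⟨b1, b2⟩ := zf_odd (q := p + (0, 1)) (by simp only [Prod.fst_add, Prod.snd_add]; omega)
    rw [a1, a2, b1, b2]
    exact ⟨_, Or.inr rfl, Or.inl rfl⟩
  · obtain ⟨a1, a2⟩ := zf_odd h
    obtain ⟨b1, b2⟩ := zf_even (q := p + (0, 1)) (by simp only [Prod.fst_add, Prod.snd_add]; omega)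
    rw [a1, a2, b1, b2]
    exact ⟨_, Or.inr rfl, Or.inl (e _ _ (by simp) (by simp))⟩
  · obtain ⟨a1, a2⟩ := zf_even h
    obtain ⟨b1, b2⟩ := zf_odd (q := p + (-1, 0)) (by simp only [Prod.fst_add, Prod.snd_add]; omega)
    rw [a1, a2, b1, b2]
    exact ⟨_, Or.inr rfl, Or.inr (e _ _ (by simp) (by simp))⟩
  · obtain ⟨a1, a2⟩ := zf_odd h
    obtain ⟨b1, b2⟩ := zf_even (q := p + (-1, 0)) (by simp only [Prod.fst_add, Prod.snd_add]; omega)
    rw [a1, a2, b1, b2]
    exact ⟨_, Or.inl rfl, Or.inl (e _ _ (by simp) (by simp))⟩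
  · obtain ⟨a1, a2⟩ := zf_even h
    obtain ⟨b1, b2⟩ := zf_odd (q := p + (0, -1)) (by simp only [Prod.fst_add, Prod.snd_add]; omega)
    rw [a1, a2, b1, b2]
    exact ⟨_, Or.inl rfl, Or.inr (e _ _ (by simp) (by simp))⟩
  · obtain ⟨a1, a2⟩ := zf_odd h
    obtain ⟨b1, b2⟩ := zf_even (q := p + (0, -1)) (by simp only [Prod.fst_add, Prod.snd_add]; omega)
    rw [a1, a2, b1, b2]
    exact ⟨_, Or.inl rfl, Or.inr (e _ _ (by simp) (by simp))⟩

lemma co_self {w : Finset (ℤ × ℤ)} {p : ℤ × ℤ} (h : lt p ∈ w) {x y : ℤ × ℤ}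
    (hx : x = eu (lt p) ∨ x = ev (lt p)) (hy : y = eu (lt p) ∨ y = ev (lt p)) : Co w x y := by
  have hee := Pool.Agent.H75.Four.PivAux.eu_ev (lt_odd p)
  have hco : Co w (eu (lt p)) (ev (lt p)) :=
    Relation.ReflTransGen.single ⟨hee.1, by rw [hee.2]; exact h⟩
  rcases hx with rfl | rfl <;> rcases hy with rfl | rfl
  · exact Co.refl _ _
  · exact hco
  · exact hco.symm
  · exact Co.refl _ _

/-- open tiles with a common edge are joined -/
lemma co_edge {w : Finset (ℤ × ℤ)} {p : ℤ × ℤ} {k : ℤ} (h : lt p ∈ w) (h' : lt (p + dir k) ∈ w) :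
    Co w (eu (lt p)) (eu (lt (p + dir k))) := by
  obtain ⟨v, h1, h2⟩ := share_end p k
  exact (co_self h (Or.inl rfl) h1).trans (co_self h' h2 (Or.inl rfl))

lemma dco_self {w : Finset (ℤ × ℤ)} {p : ℤ × ℤ} (h : lt p ∉ w) {x y : ℤ × ℤ}
    (hx : x = fi (zu (lt p)) ∨ x = fi (zv (lt p))) (hy : y = fi (zu (lt p)) ∨ y = fi (zv (lt p))) :
    DCo w x y := by
  have hee := faces_e (lt_odd p)
  have hco : DCo w (fi (zu (lt p))) (fi (zv (lt p))) := by
    refine DCo.step hee.1 ?_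
    rw [hee.2, add_sub_cancel_right]
    exact h
  rcases hx with rfl | rfl <;> rcases hy with rfl | rfl
  · exact DCo.refl _ _
  · exact hco
  · exact hco.symm
  · exact DCo.refl _ _

/-- closed tiles with a common edge are joined -/
lemma dco_edge {w : Finset (ℤ × ℤ)} {p : ℤ × ℤ} {k : ℤ} (h : lt p ∉ w) (h' : lt (p + dir k) ∉ w) :
    DCo w (fi (zu (lt p))) (fi (zu (lt (p + dir k)))) := by
  obtain ⟨v, h1, h2⟩ := share_face p k
  exact (dco_self h (Or.inl rfl) h1).trans (dco_self h' h2 (Or.inl rfl))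

lemma co_run {w : Finset (ℤ × ℤ)} {p : ℤ × ℤ} {k : ℤ} (m : ℕ)
    (h : ∀ i : ℤ, 0 ≤ i → i ≤ m → lt (p + (i * (dir k).1, i * (dir k).2)) ∈ w) :
    Co w (eu (lt p)) (eu (lt (p + ((m : ℤ) * (dir k).1, (m : ℤ) * (dir k).2)))) := by
  induction m with
  | zero =>
    have : p + (((0 : ℕ) : ℤ) * (dir k).1, ((0 : ℕ) : ℤ) * (dir k).2) = p := by
      refine Prod.ext ?_ ?_ <;> simp
    rw [this]; exact Co.refl _ _
  | succ m ih =>
    refine (ih fun i h1 h2 => h i h1 (by push_cast; omega)).trans ?_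
    have e : p + (((m + 1 : ℕ) : ℤ) * (dir k).1, ((m + 1 : ℕ) : ℤ) * (dir k).2) =
        p + ((m : ℤ) * (dir k).1, (m : ℤ) * (dir k).2) + dir k := by
      refine Prod.ext ?_ ?_ <;> simp only [Prod.fst_add, Prod.snd_add] <;> push_cast <;> ring
    have h1 := h m (by positivity) (by push_cast; omega)
    have h2 := h ((m + 1 : ℕ) : ℤ) (by positivity) le_rfl
    rw [e] at h2 ⊢
    exact co_edge h1 h2

lemma dco_run {w : Finset (ℤ × ℤ)} {p : ℤ × ℤ} {k : ℤ} (m : ℕ)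
    (h : ∀ i : ℤ, 0 ≤ i → i ≤ m → lt (p + (i * (dir k).1, i * (dir k).2)) ∉ w) :
    DCo w (fi (zu (lt p))) (fi (zu (lt (p + ((m : ℤ) * (dir k).1, (m : ℤ) * (dir k).2))))) := by
  induction m with
  | zero =>
    have : p + (((0 : ℕ) : ℤ) * (dir k).1, ((0 : ℕ) : ℤ) * (dir k).2) = p := by
      refine Prod.ext ?_ ?_ <;> simp
    rw [this]; exact DCo.refl _ _
  | succ m ih =>
    refine (ih fun i h1 h2 => h i h1 (by push_cast; omega)).trans ?_
    have e : p + (((m + 1 : ℕ) : ℤ) * (dir k).1, ((m + 1 : ℕ) : ℤ) * (dir k).2) =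
        p + ((m : ℤ) * (dir k).1, (m : ℤ) * (dir k).2) + dir k := by
      refine Prod.ext ?_ ?_ <;> simp only [Prod.fst_add, Prod.snd_add] <;> push_cast <;> ring
    have h1 := h m (by positivity) (by push_cast; omega)
    have h2 := h ((m + 1 : ℕ) : ℤ) (by positivity) le_rfl
    rw [e] at h2 ⊢
    exact dco_edge h1 h2

/-! ### Paths far from `Q` -/

/-- centre tile of a cell -/
def cc (h : ℕ) (c : Cell) : ℤ × ℤ := (2 * h * c.1 + h, 2 * h * c.2 + h)

/-- tiles in two neighbouring cells of the complement -/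
lemma nb_two {Q : Finset Cell} {h : ℕ} {c : Cell} {k : ℤ} (h1 : c ∉ Q)
    (h2 : c + dir k ∉ Q) {p : ℤ × ℤ}
    (hp : ∀ q : ℤ × ℤ, |q.1 - p.1| ≤ 2 → |q.2 - p.2| ≤ 2 →
      ct (2 * h) q = c ∨ ct (2 * h) q = c + dir k) : Nb (2 * h) Q 2 p := by
  intro q hq1 hq2
  rcases hp q hq1 hq2 with h3 | h3 <;> rw [h3]
  · exact h1
  · exact h2

lemma nb_line {Q : Finset Cell} {h : ℕ} (hh : 3 ≤ h) {c : Cell} {k : ℤ} (h1 : c ∉ Q)
    (h2 : c + dir k ∉ Q) {i : ℤ} (hi : 0 ≤ i) (hi2 : i ≤ 2 * h) :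
    Nb (2 * h) Q 2 (cc h c + (i * (dir k).1, i * (dir k).2)) := by
  have hn : (0 : ℤ) < 2 * h := by positivity
  have hhz : (3 : ℤ) ≤ h := by exact_mod_cast hh
  refine nb_two h1 h2 fun q hq1 hq2 => ?_
  rw [abs_le] at hq1 hq2
  rw [ct_eq hn, ct_eq hn]
  unfold cc at hq1 hq2
  rcases dir_cases k with ⟨-, e⟩ | ⟨-, e⟩ | ⟨-, e⟩ | ⟨-, e⟩ <;> rw [e] at hq1 hq2 ⊢ <;>
    simp only [Prod.fst_add, Prod.snd_add] at hq1 hq2 ⊢ <;> ring_nf at hq1 hq2 ⊢
  · by_cases h3 : q.1 < c.1 * h * 2 + h * 2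
    · left; constructor <;> constructor <;> linarith
    · right; constructor <;> constructor <;> linarith
  · by_cases h3 : q.2 < c.2 * h * 2 + h * 2
    · left; constructor <;> constructor <;> linarith
    · right; constructor <;> constructor <;> linarith
  · by_cases h3 : c.1 * h * 2 ≤ q.1
    · left; constructor <;> constructor <;> linarith
    · right; constructor <;> constructor <;> linarith
  · by_cases h3 : c.2 * h * 2 ≤ q.2
    · left; constructor <;> constructor <;> linarith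
    · right; constructor <;> constructor <;> linarith

section far

variable {Q : Finset Cell} {h : ℕ} {D : Finset (ℤ × ℤ)}

lemma dco_cc (hh : 3 ≤ h) (hD : ∀ p, lt p ∈ D → ¬ Nb (2 * h) Q 2 p) {c : Cell} {k : ℤ} (h1 : c ∉ Q)
    (h2 : c + dir k ∉ Q) : DCo D (fi (zu (lt (cc h c)))) (fi (zu (lt (cc h (c + dir k))))) := by
  have key := dco_run (w := D) (p := cc h c) (k := k) (2 * h) fun i hi hi2 h3 =>
    hD _ h3 (nb_line hh h1 h2 hi (by push_cast at hi2; exact hi2))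
  have e : cc h c + (((2 * h : ℕ) : ℤ) * (dir k).1, ((2 * h : ℕ) : ℤ) * (dir k).2) =
      cc h (c + dir k) := by
    unfold cc
    refine Prod.ext ?_ ?_ <;> simp only [Prod.fst_add, Prod.snd_add] <;> push_cast <;> ring
  rw [e] at key
  exact key

lemma dco_ccs (hQ : Good Q) (hh : 3 ≤ h) (hD : ∀ p, lt p ∈ D → ¬ Nb (2 * h) Q 2 p) {c d : Cell}
    (hc : c ∉ Q) (hd : d ∉ Q) : DCo D (fi (zu (lt (cc h c)))) (fi (zu (lt (cc h d)))) := by
  have h1 := hQ.conn_compl c (by simpa using hc) d (by simpa using hd)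
  have key : ∀ d, Relation.ReflTransGen (fun a b => Adj4 a b ∧ b ∈ ((Q : Set Cell)ᶜ)) c d →
      d ∉ Q ∧ DCo D (fi (zu (lt (cc h c)))) (fi (zu (lt (cc h d)))) := by
    intro d hd
    induction hd with
    | refl => exact ⟨hc, DCo.refl _ _⟩
    | @tail a b _ hab ih =>
      have hb : b ∉ Q := by simpa using hab.2
      obtain ⟨k, rfl⟩ := hab.1
      exact ⟨hb, ih.2.trans (dco_cc hh hD ih.1 hb)⟩
  exact (key d h1).2

end far

/-! ### Root at a convex corner -/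

/-- the vertex at the tail of a side -/
def rvS (h : ℕ) (s : Cell × ℤ) : ℤ × ℤ :=
  (h * ((tail s).1 - (tail s).2), h * ((tail s).1 + (tail s).2))

/-- the outer corner at the tail of a side -/
def rcS (h : ℕ) (s : Cell × ℤ) : ℤ × ℤ := oc (rvS h s) (s.2 + 1)

lemma tv_rvS (h : ℕ) (s : Cell × ℤ) : tv (rvS h s) = wp (2 * h) s 0 := by
  unfold tv rvS wp
  refine Prod.ext ?_ ?_ <;> simp only <;> ring

lemma wp0_even (h : ℕ) (s : Cell × ℤ) : ((wp (2 * h) s 0).1 + (wp (2 * h) s 0).2) % 2 = 0 := by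
  unfold wp
  simp only [zero_mul, add_zero]
  have : 2 * (h : ℤ) * (tail s).1 + 2 * h * (tail s).2 = 2 * (h * (tail s).1 + h * (tail s).2) := by
    ring
  omega

section root

variable {Q : Finset Cell} {s : Cell × ℤ} {h : ℕ}

lemma diag_compl (hQ : Good Q) (hs : IsSide Q s) (hc : s.1 - dir s.2 ∉ Q) :
    s.1 + dir (s.2 - 1) - dir s.2 ∉ Q := diag_notMem hQ hs.1 hs.2 hc

/-- tile at position `t` on the way out: `ot2 n s 0 + t dir (l - 1)` -/
lemma nb_out (hQ : Good Q) (hs : IsSide Q s) (hc : s.1 - dir s.2 ∉ Q) (hh : 4 ≤ h) {t : ℤ}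
    (ht : 1 ≤ t) (ht2 : t ≤ h) :
    Nb (2 * h) Q 2 (ot2 (2 * h) s 0 + (t * (dir (s.2 - 1)).1, t * (dir (s.2 - 1)).2)) := by
  have hn : (0 : ℤ) < 2 * h := by positivity
  have hhz : (4 : ℤ) ≤ h := by exact_mod_cast hh
  have hb := diag_compl hQ hs hc
  have h2 : (s.1 + dir (s.2 - 1) - dir s.2) + dir s.2 ∉ Q := by
    rw [sub_add_cancel]; exact hs.2
  refine nb_two hb h2 fun q hq1 hq2 => ?_
  rw [sub_add_cancel, ct_eq hn, ct_eq hn]
  rw [abs_le] at hq1 hq2
  unfold ot2 ot it wp at hq1 hq2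
  rw [tail_io] at hq1 hq2
  rcases io_dir s.2 with ⟨-, b, c, d⟩ | ⟨-, b, c, d⟩ | ⟨-, b, c, d⟩ | ⟨-, b, c, d⟩ <;>
    rw [b, d] at hq1 hq2 <;> rw [c] at hq1 hq2 ⊢ <;> rw [d] <;>
    simp only [Prod.fst_add, Prod.snd_add, Prod.fst_sub, Prod.snd_sub] at hq1 hq2 ⊢ <;>
    ring_nf at hq1 hq2 ⊢
  · by_cases h3 : s.1.1 * h * 2 ≤ q.1
    · right; constructor <;> constructor <;> linarith
    · left; constructor <;> constructor <;> linarith
  · by_cases h3 : s.1.2 * h * 2 ≤ q.2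
    · right; constructor <;> constructor <;> linarith
    · left; constructor <;> constructor <;> linarith
  · by_cases h3 : q.1 < s.1.1 * h * 2 + h * 2
    · right; constructor <;> constructor <;> linarith
    · left; constructor <;> constructor <;> linarith
  · by_cases h3 : q.2 < s.1.2 * h * 2 + h * 2
    · right; constructor <;> constructor <;> linarith
    · left; constructor <;> constructor <;> linarith


lemma rc_face (h : ℕ) (s : Cell × ℤ) : fi (rcS h s) = fi (zu (lt (ot2 (2 * h) s 0))) ∨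
    fi (rcS h s) = fi (zv (lt (ot2 (2 * h) s 0))) := by
  have h1 := tf_fi_oc (rvS h s) (s.2 + 1)
  rw [tv_rvS] at h1
  have h2 := wp0_even h s
  have e2 : dir (s.2 + 1 + 2) = dir (s.2 - 1) := by
    have := Pool.Agent.Q1.M4.dir_add_four (s.2 - 1)
    rw [← this]; congr 1; ring
  rw [e2] at h1
  have h3 : fi (rcS h s) = fct (wp (2 * h) s 0 + dir (s.2 - 1)) := by
    rw [← h1, fct_tf]; rfl
  rw [h3]
  have e : ∀ a b : ℤ × ℤ, a.1 = b.1 → a.2 = b.2 → fct a = fct b := fun a b h h' => by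
    rw [Prod.ext h h']
  unfold ot2 ot it
  set p := wp (2 * (h : ℤ)) s 0 with hp
  rcases io_dir s.2 with ⟨a, b, -, d⟩ | ⟨a, b, -, d⟩ | ⟨a, b, -, d⟩ | ⟨a, b, -, d⟩ <;> rw [b, d]
  · right
    rw [(zf_even (q := p + (0, 0) + (0, -1) + (0, -1))
      (by simp only [Prod.fst_add, Prod.snd_add]; omega)).2]
    exact e _ _ (by simp) (by simp)
  · left
    rw [(zf_odd (q := p + (-1, 0) + (1, 0) + (1, 0))
      (by simp only [Prod.fst_add, Prod.snd_add]; omega)).1]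
    exact e _ _ (by simp) (by simp)
  · left
    rw [(zf_even (q := p + (-1, -1) + (0, 1) + (0, 1))
      (by simp only [Prod.fst_add, Prod.snd_add]; omega)).1]
    exact e _ _ (by simp) (by simp)
  · right
    rw [(zf_odd (q := p + (0, -1) + (-1, 0) + (-1, 0))
      (by simp only [Prod.fst_add, Prod.snd_add]; omega)).2]
    exact e _ _ (by simp) (by simp)

variable {D : Finset (ℤ × ℤ)}

/-- the number of steps to the centre of the outer cell -/
lemma out_cc (h : ℕ) (s : Cell × ℤ) (hh : 4 ≤ h) : ∃ t m : ℕ, t ≤ h ∧ m ≤ h ∧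
    ot2 (2 * h) s 0 + ((t : ℤ) * (dir (s.2 - 1)).1, (t : ℤ) * (dir (s.2 - 1)).2) =
      cc h (s.1 + dir (s.2 - 1) - dir s.2) + ((2 * h - m : ℤ) * (dir s.2).1, (2 * h - m : ℤ) * (dir s.2).2) := by
  have hhz : (4 : ℤ) ≤ h := by exact_mod_cast hh
  unfold ot2 ot it wp cc
  rw [tail_io]
  have e1 : (((h - 1 : ℕ)) : ℤ) = h - 1 := by push_cast [Nat.cast_sub (by omega : 1 ≤ h)]; ring
  have e2 : (((h - 2 : ℕ)) : ℤ) = h - 2 := by push_cast [Nat.cast_sub (by omega : 2 ≤ h)]; ring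
  rcases io_dir s.2 with ⟨-, b, c, d⟩ | ⟨-, b, c, d⟩ | ⟨-, b, c, d⟩ | ⟨-, b, c, d⟩ <;> rw [b, c, d]
  · refine ⟨h - 2, h, by omega, by omega, ?_⟩
    rw [e2]
    refine Prod.ext ?_ ?_ <;> simp only [Prod.fst_add, Prod.snd_add, Prod.fst_sub, Prod.snd_sub] <;> ring
  · refine ⟨h - 1, h, by omega, by omega, ?_⟩
    rw [e1]
    refine Prod.ext ?_ ?_ <;> simp only [Prod.fst_add, Prod.snd_add, Prod.fst_sub, Prod.snd_sub] <;> ring
  · refine ⟨h - 1, h - 1, by omega, by omega, ?_⟩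
    rw [e1]
    refine Prod.ext ?_ ?_ <;> simp only [Prod.fst_add, Prod.snd_add, Prod.fst_sub, Prod.snd_sub] <;> ring
  · refine ⟨h - 2, h - 1, by omega, by omega, ?_⟩
    rw [e1, e2]
    refine Prod.ext ?_ ?_ <;> simp only [Prod.fst_add, Prod.snd_add, Prod.fst_sub, Prod.snd_sub] <;> ring

/-- the root face is joined to the centre of the outer cell -/
lemma dco_rc (hQ : Good Q) (hs : IsSide Q s) (hc : s.1 - dir s.2 ∉ Q) (hh : 4 ≤ h)
    (hD : ∀ p, lt p ∈ D → ¬ Nb (2 * h) Q 2 p) (hr : lt (ot2 (2 * h) s 0) ∉ D) :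
    DCo D (fi (rcS h s)) (fi (zu (lt (cc h (s.1 + dir (s.2 - 1)))))) := by
  have hb := diag_compl hQ hs hc
  obtain ⟨t, m, ht, hm, e⟩ := out_cc h s hh
  have h1 : DCo D (fi (rcS h s)) (fi (zu (lt (ot2 (2 * h) s 0)))) := by
    rcases rc_face h s with h2 | h2 <;> rw [h2]
    · exact DCo.refl _ _
    · exact dco_self hr (Or.inr rfl) (Or.inl rfl)
  have h2 := dco_run (w := D) (p := ot2 (2 * h) s 0) (k := s.2 - 1) t fun i hi hi2 h3 => by
    rcases hi.lt_or_eq with h4 | h4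
    · exact hD _ h3 (nb_out hQ hs hc hh (by omega) (by omega))
    · rw [← h4] at h3
      apply hr
      convert h3 using 2
      refine Prod.ext ?_ ?_ <;> simp
  have h3 := dco_run (w := D) (p := cc h (s.1 + dir (s.2 - 1) - dir s.2) +
      ((2 * h - m : ℤ) * (dir s.2).1, (2 * h - m : ℤ) * (dir s.2).2)) (k := s.2) m fun i hi hi2 h3 => by
    have e1 : cc h (s.1 + dir (s.2 - 1) - dir s.2) +
      ((2 * h - m : ℤ) * (dir s.2).1, (2 * h - m : ℤ) * (dir s.2).2) + (i * (dir s.2).1, i * (dir s.2).2)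
      = cc h (s.1 + dir (s.2 - 1) - dir s.2) +
        ((2 * h - m + i : ℤ) * (dir s.2).1, (2 * h - m + i : ℤ) * (dir s.2).2) := by
      refine Prod.ext ?_ ?_ <;> simp only [Prod.fst_add, Prod.snd_add] <;> ring
    rw [e1] at h3
    refine hD _ h3 (nb_line (by omega) hb (by rw [sub_add_cancel]; exact hs.2) (by omega) (by omega))
  have e2 : cc h (s.1 + dir (s.2 - 1) - dir s.2) +
      ((2 * h - m : ℤ) * (dir s.2).1, (2 * h - m : ℤ) * (dir s.2).2) +
        ((m : ℤ) * (dir s.2).1, (m : ℤ) * (dir s.2).2) = cc h (s.1 + dir (s.2 - 1)) := by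
    unfold cc
    refine Prod.ext ?_ ?_ <;> simp only [Prod.fst_add, Prod.snd_add, Prod.fst_sub, Prod.snd_sub] <;> ring
  rw [e2] at h3
  rw [e] at h2
  exact (h1.trans h2).trans h3

/-- **The root face at a convex corner is joined to infinity.** -/
theorem root_low (hQ : Good Q) (hs : IsSide Q s) (hc : s.1 - dir s.2 ∉ Q) (hh : 4 ≤ h)
    (hD : ∀ p, lt p ∈ D → ¬ Nb (2 * h) Q 2 p) (hr : lt (ot2 (2 * h) s 0) ∉ D) : ∃ g : ℤ × ℤ,
    DCo D (fi (rcS h s)) g ∧ ∀ v, Co D (vx (rcS h s)) v → g.2 < v.2 := by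
  classical
  have hhz : (4 : ℤ) ≤ h := by exact_mod_cast hh
  set A : Finset (ℤ × ℤ) := insert (vx (rcS h s)) (D.image eu ∪ D.image ev) with hA
  obtain ⟨M, hM⟩ := (A.image (fun v => - v.2) ∪ Q.image (fun c => - c.1)).exists_le
  obtain ⟨N, hN1, hN2⟩ : ∃ N : ℤ, M < N ∧ 1 ≤ N := ⟨max (M + 1) 1, by omega, by omega⟩
  have hfar : ((-N, -N) : Cell) ∉ Q := by
    intro h1
    have := hM _ (mem_union_right _ (mem_image.2 ⟨_, h1, rfl⟩))
    simp only at this
    omega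
  refine ⟨fi (zu (lt (cc h (-N, -N)))),
    (dco_rc hQ hs hc hh hD hr).trans (dco_ccs hQ (by omega) hD hs.2 hfar), ?_⟩
  intro v hv
  have hvA : v ∈ A := by
    rcases Relation.ReflTransGen.cases_tail hv with h1 | ⟨u, -, h1⟩
    · rw [h1]; exact mem_insert_self _ _
    · rw [hA, mem_insert, mem_union, mem_image, mem_image]
      rcases ends_of_add h1.1 rfl with h2 | h2
      · exact Or.inr (Or.inr ⟨_, h1.2, h2.2.symm⟩)
      · exact Or.inr (Or.inl ⟨_, h1.2, h2.2.symm⟩)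
  have := hM _ (mem_union_left _ (mem_image.2 ⟨_, hvA, rfl⟩))
  have e : (fi (zu (lt (cc h (-N, -N))))).2 ≤ h * (1 - 2 * N) + 1 := by
    have e3 : (h : ℤ) * (1 - 2 * N) = h - 2 * (h * N) := by ring
    have e4 : 2 * (h : ℤ) * -N = - (2 * (h * N)) := by ring
    have h5 : ((cc h (-N, -N)).1 + (cc h (-N, -N)).2) % 2 = 0 := by
      unfold cc; simp only; rw [e4]; omega
    rw [(zf_even h5).1]
    unfold fct cc
    simp only [Prod.fst_add, Prod.snd_add]
    rw [e3, e4]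
    omega
  have h6 : (h : ℤ) * (1 - 2 * N) + 1 < - N := by nlinarith
  omega

lemma root_plabS (hQ : Good Q) (hs : IsSide Q s) (hc : s.1 - dir s.2 ∉ Q) (hh : 1 ≤ h) :
    plab (rcS h s) ∉ TL Q (2 * h) := by
  have hn : (0 : ℤ) < 2 * h := by positivity
  have hhz : (1 : ℤ) ≤ h := by exact_mod_cast hh
  have hbh := diag_compl hQ hs hc
  rw [mem_TL hn]
  rintro ⟨-, h2⟩
  have htail := tail_eq s
  obtain ⟨k0, k1, k2, k3⟩ := tt_plab_oc (rvS h s) (s.2 + 1)
  have e0 : wp (2 * (h : ℤ)) s 0 = (2 * h * (tail s).1, 2 * h * (tail s).2) := by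
    unfold wp; simp
  rw [tv_rvS, e0] at k0 k1 k2 k3
  apply hbh
  unfold rcS at h2
  rcases dir_cases s.2 with ⟨a, e⟩ | ⟨a, e⟩ | ⟨a, e⟩ | ⟨a, e⟩ <;>
  rcases dir_cases (s.2 - 1) with ⟨b, f⟩ | ⟨b, f⟩ | ⟨b, f⟩ | ⟨b, f⟩ <;>
  first
  | (exfalso; omega)
  | skip
  · rw [k1 (by omega), htail, if_pos a, ct_of hn (c := s.1 + (-1, -1))
      (by simp; linarith) (by simp; linarith) (by simp; linarith) (by simp; linarith)] at h2
    rw [e, f]
    convert h2 using 1
    refine Prod.ext ?_ ?_ <;> simp [sub_eq_add_neg]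
  · rw [k2 (by omega), htail, if_neg (by omega), if_pos a, ct_of hn (c := s.1 + (1, -1))
      (by simp; linarith) (by simp; linarith) (by simp; linarith) (by simp; linarith)] at h2
    rw [e, f]
    convert h2 using 1
    refine Prod.ext ?_ ?_ <;> simp [sub_eq_add_neg]
  · rw [k3 (by omega), htail, if_neg (by omega), if_neg (by omega), if_pos a,
      ct_of hn (c := s.1 + (1, 1))
      (by simp; linarith) (by simp; linarith) (by simp; linarith) (by simp; linarith)] at h2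
    rw [e, f]
    convert h2 using 1
    refine Prod.ext ?_ ?_ <;> simp [sub_eq_add_neg]
  · rw [k0 (by omega), htail, if_neg (by omega), if_neg (by omega), if_neg (by omega),
      ct_of hn (c := s.1 + (-1, 1))
      (by simp; linarith) (by simp; linarith) (by simp; linarith) (by simp; linarith)] at h2
    rw [e, f]
    convert h2 using 1
    refine Prod.ext ?_ ?_ <;> simp [sub_eq_add_neg]

end root

end Pool.Agent.H33.Q1
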