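import Mathlib
import Pool.Agent.H33.FM.Root

set_option autoImplicit false
open Finset

/-! # Bands along free arcs

`BW n Q W s j` : all tiles `p` at distance `≤ 2` of the inner tile `it n s j` but not adjacent to `Q` are
open. Then the second outer layer joins consecutive sides. -/

namespace Pool.Agent.H33.Q1

open Pool.Agent.H75.Perc hiding WL CT hh
open Pool.Agent.H75.TwoArm Pool.Agent.H75.Four Pool.Agent.H69.Q1 Pool.Agent.Q1
open Pool.Agent.H5.Q1 (oc vx_oc ty_oc fi_oc oc_congr)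
open Pool.Agent.Q1.M4 (Cell Good IsSide nextSide tail head PType Adj4 Conn4 head_eq_tail_next
  isSide_next)

def BW (n : ℤ) (Q : Finset Cell) (W : Finset (ℤ × ℤ)) (s : Cell × ℤ) (j : ℤ) : Prop :=
  ∀ p : ℤ × ℤ, Nb n Q 1 p → |p.1 - (it n s j).1| ≤ 2 → |p.2 - (it n s j).2| ≤ 2 → lt p ∈ W

variable {Q : Finset Cell} {W : Finset (ℤ × ℤ)} {s : Cell × ℤ} {n : ℤ}

/-- the three kinds of corners -/
lemma next_cases (Q : Finset Cell) (s : Cell × ℤ) :
    (s.1 + dir s.2 + dir (s.2 - 1) ∈ Q ∧ nextSide Q s = (s.1 + dir s.2 + dir (s.2 - 1), s.2 - 1)) ∨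
    (s.1 + dir s.2 + dir (s.2 - 1) ∉ Q ∧ s.1 + dir s.2 ∈ Q ∧ nextSide Q s = (s.1 + dir s.2, s.2)) ∨
    (s.1 + dir s.2 + dir (s.2 - 1) ∉ Q ∧ s.1 + dir s.2 ∉ Q ∧ nextSide Q s = (s.1, s.2 + 1)) := by
  unfold nextSide
  split_ifs with h1 h2
  · exact Or.inl ⟨h1, rfl⟩
  · exact Or.inr (Or.inl ⟨h1, h2, rfl⟩)
  · exact Or.inr (Or.inr ⟨h1, h2, rfl⟩)

lemma nb_of {r : ℤ} {c1 c2 : Cell} (h1 : c1 ∉ Q) (h2 : c2 ∉ Q) {p : ℤ × ℤ}
    (hp : ∀ q : ℤ × ℤ, |q.1 - p.1| ≤ r → |q.2 - p.2| ≤ r → ct n q = c1 ∨ ct n q = c2) :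
    Nb n Q r p := by
  intro q hq1 hq2
  rcases hp q hq1 hq2 with h3 | h3 <;> rw [h3]
  · exact h1
  · exact h2

lemma nb_mid (hs : IsSide Q s) (hn : 4 ≤ n) {j : ℤ} (h1 : 1 ≤ j) (h2 : j ≤ n - 2) :
    Nb n Q 1 (ot2 n s j) := by
  have hn0 : 0 < n := by omega
  refine nb_of hs.2 hs.2 fun q hq1 hq2 => Or.inl ?_
  rw [ct_eq hn0]
  rw [abs_le] at hq1 hq2
  unfold ot2 ot it wp at hq1 hq2
  rw [tail_io] at hq1 hq2
  rcases io_dir s.2 with ⟨-, b, c, d⟩ | ⟨-, b, c, d⟩ | ⟨-, b, c, d⟩ | ⟨-, b, c, d⟩ <;>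
    rw [b, c, d] at hq1 hq2 <;> rw [d] <;>
    simp only [Prod.fst_add, Prod.snd_add, Prod.fst_sub, Prod.snd_sub] at hq1 hq2 ⊢ <;>
    ring_nf at hq1 hq2 ⊢ <;> constructor <;> constructor <;> linarith

lemma nb_head (hs : IsSide Q s) (hc : s.1 + dir s.2 + dir (s.2 - 1) ∉ Q) (hn : 4 ≤ n) {j : ℤ}
    (h1 : 1 ≤ j) (h2 : j ≤ n + 1) : Nb n Q 1 (ot2 n s j) := by
  have hn0 : 0 < n := by omega
  refine nb_of hs.2 hc fun q hq1 hq2 => ?_
  rw [ct_eq hn0, ct_eq hn0]
  rw [abs_le] at hq1 hq2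
  unfold ot2 ot it wp at hq1 hq2
  rw [tail_io] at hq1 hq2
  rcases io_dir s.2 with ⟨-, b, c, d⟩ | ⟨-, b, c, d⟩ | ⟨-, b, c, d⟩ | ⟨-, b, c, d⟩ <;>
    rw [b, c, d] at hq1 hq2 <;> rw [c, d] <;>
    simp only [Prod.fst_add, Prod.snd_add, Prod.fst_sub, Prod.snd_sub] at hq1 hq2 ⊢ <;>
    ring_nf at hq1 hq2 ⊢
  · by_cases h3 : q.1 < s.1.1 * n + n
    · left; constructor <;> constructor <;> linarith
    · right; constructor <;> constructor <;> linarith
  · by_cases h3 : q.2 < s.1.2 * n + n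
    · left; constructor <;> constructor <;> linarith
    · right; constructor <;> constructor <;> linarith
  · by_cases h3 : s.1.1 * n ≤ q.1
    · left; constructor <;> constructor <;> linarith
    · right; constructor <;> constructor <;> linarith
  · by_cases h3 : s.1.2 * n ≤ q.2
    · left; constructor <;> constructor <;> linarith
    · right; constructor <;> constructor <;> linarith

lemma nb_tail (hs : IsSide Q s) (hc : s.1 + dir (s.2 - 1) - dir s.2 ∉ Q) (hn : 4 ≤ n) {j : ℤ}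
    (h1 : -2 ≤ j) (h2 : j ≤ n - 2) : Nb n Q 1 (ot2 n s j) := by
  have hn0 : 0 < n := by omega
  refine nb_of hs.2 hc fun q hq1 hq2 => ?_
  rw [ct_eq hn0, ct_eq hn0]
  rw [abs_le] at hq1 hq2
  unfold ot2 ot it wp at hq1 hq2
  rw [tail_io] at hq1 hq2
  rcases io_dir s.2 with ⟨-, b, c, d⟩ | ⟨-, b, c, d⟩ | ⟨-, b, c, d⟩ | ⟨-, b, c, d⟩ <;>
    rw [b, c, d] at hq1 hq2 <;> rw [c, d] <;>
    simp only [Prod.fst_add, Prod.snd_add, Prod.fst_sub, Prod.snd_sub] at hq1 hq2 ⊢ <;>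
    ring_nf at hq1 hq2 ⊢
  · by_cases h3 : s.1.1 * n ≤ q.1
    · left; constructor <;> constructor <;> linarith
    · right; constructor <;> constructor <;> linarith
  · by_cases h3 : s.1.2 * n ≤ q.2
    · left; constructor <;> constructor <;> linarith
    · right; constructor <;> constructor <;> linarith
  · by_cases h3 : q.1 < s.1.1 * n + n
    · left; constructor <;> constructor <;> linarith
    · right; constructor <;> constructor <;> linarith
  · by_cases h3 : q.2 < s.1.2 * n + n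
    · left; constructor <;> constructor <;> linarith
    · right; constructor <;> constructor <;> linarith

lemma wp_next (n : ℤ) (Q : Finset Cell) (s : Cell × ℤ) : wp n (nextSide Q s) 0 = wp n s n := by
  unfold wp
  rw [head_eq_tail_next]
  unfold head
  refine Prod.ext ?_ ?_ <;> simp only [Prod.fst_add, Prod.snd_add] <;> ring

lemma it_add (n : ℤ) (s : Cell × ℤ) (j i : ℤ) :
    it n s (j + i) = it n s j + (i * (dir s.2).1, i * (dir s.2).2) := by
  unfold it; rw [wp_add]; refine Prod.ext ?_ ?_ <;> simp only [Prod.fst_add, Prod.snd_add] <;> ring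

lemma ot_add (n : ℤ) (s : Cell × ℤ) (j i : ℤ) :
    ot n s (j + i) = ot n s j + (i * (dir s.2).1, i * (dir s.2).2) := by
  unfold ot; rw [it_add]; refine Prod.ext ?_ ?_ <;> simp only [Prod.fst_add, Prod.snd_add] <;> ring

lemma ot2_add (n : ℤ) (s : Cell × ℤ) (j i : ℤ) :
    ot2 n s (j + i) = ot2 n s j + (i * (dir s.2).1, i * (dir s.2).2) := by
  unfold ot2; rw [ot_add]; refine Prod.ext ?_ ?_ <;> simp only [Prod.fst_add, Prod.snd_add] <;> ring

/-- near `it n s j` by index -/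
lemma near_ot2 (n : ℤ) (s : Cell × ℤ) {j i : ℤ} (h : |i| ≤ 2) :
    |(ot2 n s (j + i)).1 - (it n s j).1| ≤ 2 ∧ |(ot2 n s (j + i)).2 - (it n s j).2| ≤ 2 := by
  rw [ot2_add]
  rw [abs_le] at h
  unfold ot2 ot
  rcases io_dir s.2 with ⟨-, -, c, d⟩ | ⟨-, -, c, d⟩ | ⟨-, -, c, d⟩ | ⟨-, -, c, d⟩ <;>
    rw [c, d] <;> simp only [Prod.fst_add, Prod.snd_add] <;> rw [abs_le, abs_le] <;>
    refine ⟨⟨?_, ?_⟩, ?_, ?_⟩ <;> linarith

lemma BW.mem (h : BW n Q W s 0) {i : ℤ} (hi : |i| ≤ 2) (hp : Nb n Q 1 (ot2 n s i)) :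
    lt (ot2 n s i) ∈ W := by
  have := near_ot2 n s (j := 0) hi
  rw [zero_add] at this
  exact h _ hp this.1 this.2

lemma BW.mem' {j : ℤ} (h : BW n Q W s j) {i : ℤ} (hi : |i - j| ≤ 2) (hp : Nb n Q 1 (ot2 n s i)) :
    lt (ot2 n s i) ∈ W := by
  have := near_ot2 n s (j := j) hi
  rw [add_sub_cancel] at this
  exact h _ hp this.1 this.2

/-- `m` steps along the second outer layer -/
lemma co_ot2 (m : ℕ) {a : ℤ} (h : ∀ i : ℤ, a ≤ i → i ≤ a + m → lt (ot2 n s i) ∈ W) :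
    Co W (eu (lt (ot2 n s a))) (eu (lt (ot2 n s (a + m)))) := by
  rw [ot2_add]
  refine co_run m fun i h1 h2 => ?_
  rw [← ot2_add]
  exact h _ (by omega) (by omega)

lemma co_ot_run (m : ℕ) {a : ℤ} (h : ∀ i : ℤ, a ≤ i → i ≤ a + m → lt (ot n s i) ∈ W) :
    Co W (eu (lt (ot n s a))) (eu (lt (ot n s (a + m)))) := by
  rw [ot_add]
  refine co_run m fun i h1 h2 => ?_
  rw [← ot_add]
  exact h _ (by omega) (by omega)

/-- geometry of the corners: position of the first inner tile of the next side -/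
lemma it_next (n : ℤ) (Q : Finset Cell) (s : Cell × ℤ) :
    (nextSide Q s = (s.1 + dir s.2 + dir (s.2 - 1), s.2 - 1) →
      ot2 n (nextSide Q s) 1 = ot2 n s (n - 2)) ∧
    (nextSide Q s = (s.1 + dir s.2, s.2) → ∀ j, ot2 n (nextSide Q s) j = ot2 n s (n + j)) ∧
    (nextSide Q s = (s.1, s.2 + 1) → it n (nextSide Q s) 0 = it n s (n - 1) ∧
      ot2 n (nextSide Q s) (-2) = ot2 n s (n + 1)) := by
  have hw := wp_next n Q s
  have key : ∀ j, it n (nextSide Q s) j = wp n s n + (j * (dir (nextSide Q s).2).1,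
      j * (dir (nextSide Q s).2).2) + io (nextSide Q s).2 := by
    intro j
    unfold it
    rw [← hw, ← wp_add, zero_add]
  refine ⟨fun e => ?_, fun e => ?_, fun e => ?_⟩
  · unfold ot2 ot
    rw [key, e]
    have e1 : wp n s n = wp n s (n - 2) + (2 * (dir s.2).1, 2 * (dir s.2).2) := by
      rw [← wp_add]; congr 1; ring
    rw [e1]
    unfold it
    simp only
    rcases io_dir s.2 with ⟨a, b, c, d⟩ | ⟨a, b, c, d⟩ | ⟨a, b, c, d⟩ | ⟨a, b, c, d⟩ <;>
      rcases io_dir (s.2 - 1) with ⟨a', b', c', d'⟩ | ⟨a', b', c', d'⟩ | ⟨a', b', c', d'⟩ |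
        ⟨a', b', c', d'⟩ <;>
      first
      | (exfalso; omega)
      | (rw [b, c, d', b', d]
         refine Prod.ext ?_ ?_ <;> simp only [Prod.fst_add, Prod.snd_add] <;> ring)
  · intro j
    unfold ot2 ot
    rw [key, e]
    unfold it
    rw [wp_add]
  · constructor
    · rw [key, e]
      have e1 : wp n s n = wp n s (n - 1) + (1 * (dir s.2).1, 1 * (dir s.2).2) := by
        rw [← wp_add]; congr 1; ring
      rw [e1]
      unfold it
      simp only
      rcases io_dir s.2 with ⟨a, b, c, d⟩ | ⟨a, b, c, d⟩ | ⟨a, b, c, d⟩ | ⟨a, b, c, d⟩ <;>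
        rcases io_dir (s.2 + 1) with ⟨a', b', c', d'⟩ | ⟨a', b', c', d'⟩ | ⟨a', b', c', d'⟩ |
          ⟨a', b', c', d'⟩ <;>
        first
        | (exfalso; omega)
        | (rw [b, c, b', c']
           refine Prod.ext ?_ ?_ <;> simp only [Prod.fst_add, Prod.snd_add] <;> ring)
    · unfold ot2 ot
      rw [key, e]
      unfold it
      rw [wp_add]
      simp only
      rcases io_dir s.2 with ⟨a, b, c, d⟩ | ⟨a, b, c, d⟩ | ⟨a, b, c, d⟩ | ⟨a, b, c, d⟩ <;>
        rcases io_dir (s.2 + 1) with ⟨a', b', c', d'⟩ | ⟨a', b', c', d'⟩ | ⟨a', b', c', d'⟩ |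
          ⟨a', b', c', d'⟩ <;>
        first
        | (exfalso; omega)
        | (rw [b, c, d, b', c', d']
           refine Prod.ext ?_ ?_ <;> simp only [Prod.fst_add, Prod.snd_add] <;> ring)


/-- the second outer layer around a corner -/
lemma co_corner (hs : IsSide Q s) (hn : 4 ≤ n) (h1 : BW n Q W s (n - 1))
    (h2 : BW n Q W (nextSide Q s) 0) :
    Co W (eu (lt (ot2 n s (n - 2)))) (eu (lt (ot2 n (nextSide Q s) 1))) := by
  obtain ⟨g1, g2, g3⟩ := it_next n Q s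
  rcases next_cases Q s with ⟨-, e⟩ | ⟨hc, -, e⟩ | ⟨hc, -, e⟩
  · rw [g1 e]; exact Co.refl _ _
  · have h3 := co_ot2 (W := W) (n := n) (s := s) 3 (a := n - 2) fun i hi1 hi2 =>
      h1.mem' (by rw [abs_le]; push_cast at hi2; constructor <;> linarith)
        (nb_head hs hc hn (by omega) (by push_cast at hi2; omega))
    rw [g2 e]
    have e2 : n - 2 + ((3 : ℕ) : ℤ) = n + 1 := by push_cast; ring
    rwa [e2] at h3
  · have h3 := co_ot2 (W := W) (n := n) (s := s) 3 (a := n - 2) fun i hi1 hi2 =>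
      h1.mem' (by rw [abs_le]; push_cast at hi2; constructor <;> linarith)
        (nb_head hs hc hn (by omega) (by push_cast at hi2; omega))
    have e2 : n - 2 + ((3 : ℕ) : ℤ) = n + 1 := by push_cast; ring
    rw [e2] at h3
    refine h3.trans ?_
    rw [← (g3 e).2]
    have hs' : IsSide Q (nextSide Q s) := isSide_next hs
    have hc' : (nextSide Q s).1 + dir ((nextSide Q s).2 - 1) - dir (nextSide Q s).2 ∉ Q := by
      rw [e]
      simp only
      have e3 : dir (s.2 + 1 - 1) = dir s.2 := by congr 1; ring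
      rw [e3]
      have e5 : s.1 + dir s.2 - dir (s.2 + 1) = s.1 + dir s.2 + dir (s.2 - 1) := by
       rcases io_dir s.2 with ⟨a, -, c, d⟩ | ⟨a, -, c, d⟩ | ⟨a, -, c, d⟩ | ⟨a, -, c, d⟩ <;>
        rcases io_dir (s.2 + 1) with ⟨a', -, c', d'⟩ | ⟨a', -, c', d'⟩ | ⟨a', -, c', d'⟩ |
          ⟨a', -, c', d'⟩ <;>
        first
        | (exfalso; omega)
        | (rw [c, d, c']; refine Prod.ext ?_ ?_ <;>
            simp only [Prod.fst_add, Prod.snd_add, Prod.fst_sub, Prod.snd_sub] <;> ring)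
      rw [e5]; exact hc
    have h4 := co_ot2 (W := W) (n := n) (s := nextSide Q s) 3 (a := -2) fun i hi1 hi2 =>
      h2.mem' (by rw [abs_le]; push_cast at hi2; constructor <;> linarith)
        (nb_tail hs' hc' hn (by omega) (by push_cast at hi2; omega))
    have e4 : (-2 : ℤ) + ((3 : ℕ) : ℤ) = 1 := by norm_num
    rwa [e4] at h4

/-- the second outer layer along a side -/
lemma co_row (hs : IsSide Q s) (hn : 4 ≤ n) (h : ∀ j, 0 ≤ j → j < n → BW n Q W s j) :
    Co W (eu (lt (ot2 n s 1))) (eu (lt (ot2 n s (n - 2)))) := by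
  have h3 := co_ot2 (W := W) (n := n) (s := s) (n - 3).toNat (a := 1) fun i hi1 hi2 =>
    (h i (by omega) (by omega)).mem' (by rw [sub_self]; norm_num)
      (nb_mid hs hn (by omega) (by omega))
  have e2 : 1 + (((n - 3).toNat : ℕ) : ℤ) = n - 2 := by omega
  rwa [e2] at h3

/-! ### The first outer layer -/

variable {h : ℕ}

lemma vtx_wp0 (h : ℕ) (s : Cell × ℤ) : vtx (wp (2 * h) s 0) = rvS h s := by
  rw [← tv_rvS, vtx_tv]

lemma vtx_wpn (h : ℕ) (Q : Finset Cell) (s : Cell × ℤ) :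
    vtx (wp (2 * h) s (2 * h)) = rvS h (nextSide Q s) := by
  rw [← wp_next, vtx_wp0]

lemma tail_end (h : ℕ) (s : Cell × ℤ) :
    rvS h s = eu (lt (ot (2 * h) s 0)) ∨ rvS h s = ev (lt (ot (2 * h) s 0)) := by
  rw [← vtx_wp0]
  have hp := wp0_even h s
  obtain ⟨o0, o1, o2, o3⟩ := ot_eq (2 * (h : ℤ)) s 0
  have e : ∀ a b : ℤ × ℤ, a.1 = b.1 → a.2 = b.2 → vtx a = vtx b := fun a b h h' => by
    rw [Prod.ext h h']
  set p := wp (2 * (h : ℤ)) s 0 with hpd
  rcases io_dir s.2 with ⟨a, -⟩ | ⟨a, -⟩ | ⟨a, -⟩ | ⟨a, -⟩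
  · rw [o0 a, ((ends_lt (p + (0, -1))).2 (by simp only [Prod.fst_add, Prod.snd_add]; omega)).1]
    left; exact e _ _ (by simp) (by simp)
  · rw [o1 a, ((ends_lt p).1 hp).1]; left; rfl
  · rw [o2 a, ((ends_lt (p + (-1, 0))).2 (by simp only [Prod.fst_add, Prod.snd_add]; omega)).2]
    right; exact e _ _ (by simp) (by simp)
  · rw [o3 a, ((ends_lt (p + (-1, -1))).1 (by simp only [Prod.fst_add, Prod.snd_add]; omega)).2]
    right; exact e _ _ (by simp) (by simp)

lemma head_end (h : ℕ) (Q : Finset Cell) (s : Cell × ℤ) :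
    rvS h (nextSide Q s) = eu (lt (ot (2 * h) s (2 * h - 1))) ∨
      rvS h (nextSide Q s) = ev (lt (ot (2 * h) s (2 * h - 1))) := by
  rw [← vtx_wpn]
  have hp : ((wp (2 * (h : ℤ)) s (2 * h)).1 + (wp (2 * (h : ℤ)) s (2 * h)).2) % 2 = 0 := by
    rw [← wp_next _ Q]; exact wp0_even _ _
  have e1 : wp (2 * (h : ℤ)) s (2 * h) = wp (2 * h) s (2 * h - 1) + (1 * (dir s.2).1, 1 * (dir s.2).2) := by
    rw [← wp_add]; congr 1; ring
  obtain ⟨o0, o1, o2, o3⟩ := ot_eq (2 * (h : ℤ)) s (2 * h - 1)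
  have e : ∀ a b : ℤ × ℤ, a.1 = b.1 → a.2 = b.2 → vtx a = vtx b := fun a b h h' => by
    rw [Prod.ext h h']
  rw [e1] at hp ⊢
  set p := wp (2 * (h : ℤ)) s (2 * h - 1) with hpd
  rcases io_dir s.2 with ⟨a, -, c, -⟩ | ⟨a, -, c, -⟩ | ⟨a, -, c, -⟩ | ⟨a, -, c, -⟩ <;> rw [c] at hp ⊢ <;>
    simp only [Prod.fst_add, Prod.snd_add] at hp
  · rw [o0 a, ((ends_lt (p + (0, -1))).1 (by simp only [Prod.fst_add, Prod.snd_add]; omega)).2]
    right; exact e _ _ (by simp) (by simp)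
  · rw [o1 a, ((ends_lt p).2 (by omega)).1]
    left; exact e _ _ (by simp) (by simp)
  · rw [o2 a, ((ends_lt (p + (-1, 0))).1 (by simp only [Prod.fst_add, Prod.snd_add]; omega)).1]
    left; exact e _ _ (by simp) (by simp)
  · rw [o3 a, ((ends_lt (p + (-1, -1))).2 (by simp only [Prod.fst_add, Prod.snd_add]; omega)).2]
    right; exact e _ _ (by simp) (by simp)

lemma mem_W_LY (hW : LY (2 * h) s ⊆ W) {i : ℤ} (h0 : 0 ≤ i) (h1 : i < 2 * h) :
    lt (ot (2 * h) s i) ∈ W := hW ((mem_LY' (by omega)).2 ⟨i, ⟨h0, h1⟩, rfl⟩)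

/-- along an open outer layer, from the tail -/
lemma co_tail_ot (hW : LY (2 * h) s ⊆ W) {i : ℤ} (h0 : 0 ≤ i) (h1 : i < 2 * h) :
    Co W (rvS h s) (eu (lt (ot (2 * h) s i))) := by
  have h2 := co_ot_run (W := W) (n := 2 * h) (s := s) i.toNat (a := 0) fun j hj1 hj2 =>
    mem_W_LY hW hj1 (by omega)
  have e : (0 : ℤ) + ((i.toNat : ℕ) : ℤ) = i := by omega
  rw [e] at h2
  exact (co_self (mem_W_LY hW le_rfl (by omega)) (tail_end h s) (Or.inl rfl)).trans h2

/-- along an open outer layer, to the head -/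
lemma co_ot_head (hW : LY (2 * h) s ⊆ W) {i : ℤ} (h0 : 0 ≤ i) (h1 : i < 2 * h) :
    Co W (eu (lt (ot (2 * h) s i))) (rvS h (nextSide Q s)) := by
  have h2 := co_ot_run (W := W) (n := 2 * h) (s := s) (2 * h - 1 - i).toNat (a := i) fun j hj1 hj2 =>
    mem_W_LY hW (by omega) (by omega)
  have e : i + (((2 * h - 1 - i).toNat : ℕ) : ℤ) = 2 * h - 1 := by omega
  rw [e] at h2
  exact h2.trans (co_self (mem_W_LY hW (by omega) (by omega)) (Or.inl rfl) (head_end h Q s))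

lemma co_side (hh : 1 ≤ h) (hW : LY (2 * h) s ⊆ W) : Co W (rvS h s) (rvS h (nextSide Q s)) :=
  (co_tail_ot hW le_rfl (by omega)).trans (co_ot_head hW le_rfl (by omega))

/-! ### Arcs -/

section arc

variable {P : PType}

lemma side_succ' (P : PType) (i : ℕ) : P.side (i + 1) = nextSide P.Q (P.side i) := by
  unfold PType.side
  rw [Function.iterate_succ_apply']

lemma isSide_side (P : PType) (i : ℕ) : IsSide P.Q (P.side i) := by
  induction i with
  | zero => exact P.side0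
  | succ i ih => rw [side_succ']; exact isSide_next ih

/-- a wired arc -/
lemma co_arc (hh : 1 ≤ h) {a b : ℕ} (hab : a ≤ b) (hW : ∀ i, a ≤ i → i < b → LY (2 * h) (P.side i) ⊆ W) :
    Co W (rvS h (P.side a)) (rvS h (P.side b)) := by
  induction b, hab using Nat.le_induction with
  | base => exact Co.refl _ _
  | succ b hab ih =>
    refine (ih fun i h1 h2 => hW i h1 (by omega)).trans ?_
    rw [side_succ']
    exact co_side hh (hW b hab (by omega))

/-- the band along a free arc -/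
lemma co_band0 (hh : 2 ≤ h) {a b : ℕ} (hab : a ≤ b)
    (hB : ∀ i, a ≤ i → i < b → ∀ j : ℤ, 0 ≤ j → j < 2 * h → BW (2 * h) P.Q W (P.side i) j)
    (hb : BW (2 * h) P.Q W (P.side b) 0) :
    Co W (eu (lt (ot2 (2 * h) (P.side a) 1))) (eu (lt (ot2 (2 * h) (P.side b) 1))) := by
  have hhz : (2 : ℤ) ≤ h := by exact_mod_cast hh
  induction b, hab using Nat.le_induction with
  | base => exact Co.refl _ _
  | succ b hab ih =>
    have h1 := hB b hab (by omega)
    refine (ih (fun i h1 h2 => hB i h1 (by omega)) (h1 0 le_rfl (by omega))).trans ?_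
    refine (co_row (isSide_side P b) (by omega) h1).trans ?_
    rw [side_succ'] at hb ⊢
    exact co_corner (isSide_side P b) (by omega) (h1 _ (by omega) (by omega)) hb

lemma ot_edge (n : ℤ) (s : Cell × ℤ) (j : ℤ) : ot2 n s j = ot n s j + dir (s.2 - 1) := rfl

/-- **The band joins the two wired arcs around a free arc** between the convex corners `a`, `b`. -/
theorem co_band (hh : 2 ≤ h) {a b : ℕ} (ha : 1 ≤ a) (hab : a < b)
    (hca : P.side a = ((P.side (a - 1)).1, (P.side (a - 1)).2 + 1))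
    (hcb : P.side b = ((P.side (b - 1)).1, (P.side (b - 1)).2 + 1))
    (hB : ∀ i, a ≤ i → i < b → ∀ j : ℤ, 0 ≤ j → j < 2 * h → BW (2 * h) P.Q W (P.side i) j)
    (hWa : LY (2 * h) (P.side (a - 1)) ⊆ W) (hWb : LY (2 * h) (P.side b) ⊆ W) :
    Co W (rvS h (P.side a)) (rvS h (P.side b)) := by
  have hhz : (2 : ℤ) ≤ h := by exact_mod_cast hh
  obtain ⟨a, rfl⟩ : ∃ a', a = a' + 1 := ⟨a - 1, by omega⟩
  obtain ⟨b, rfl⟩ : ∃ b', b = b' + 1 := ⟨b - 1, by omega⟩
  rw [Nat.add_sub_cancel] at hca hcb hWa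
  -- the corner `a`
  have ea := side_succ' P a
  have eb := side_succ' P b
  have ga := (it_next (2 * h) P.Q (P.side a)).2.2 (by rw [← ea]; exact hca)
  have gb := (it_next (2 * h) P.Q (P.side b)).2.2 (by rw [← eb]; exact hcb)
  rw [← ea] at ga
  rw [← eb] at gb
  have hBa : BW (2 * h) P.Q W (P.side (a + 1)) 0 := hB _ le_rfl hab 0 le_rfl (by omega)
  have hBa' : BW (2 * h) P.Q W (P.side a) (2 * h - 1) := by
    intro p h1 h2 h3
    rw [← ga.1] at h2 h3
    exact hBa p h1 h2 h3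
  have hBb' : BW (2 * h) P.Q W (P.side b) (2 * h - 1) :=
    hB b (by omega) (by omega) _ (by omega) (by omega)
  have hBb : BW (2 * h) P.Q W (P.side (b + 1)) 0 := by
    intro p h1 h2 h3
    rw [gb.1] at h2 h3
    exact hBb' p h1 h2 h3
  have c1 : Co W (eu (lt (ot (2 * h) (P.side a) (2 * h - 2)))) (rvS h (P.side (a + 1))) := by
    rw [ea]; exact co_ot_head hWa (by omega) (by omega)
  have c2 : Co W (eu (lt (ot (2 * h) (P.side a) (2 * h - 2))))
      (eu (lt (ot2 (2 * h) (P.side a) (2 * h - 2)))) := by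
    rw [ot_edge]
    refine co_edge (mem_W_LY hWa (by omega) (by omega)) ?_
    rw [← ot_edge]
    exact hBa'.mem' (by norm_num) (nb_mid (isSide_side P a) (by omega) (by omega) (by omega))
  have c3 := co_corner (isSide_side P a) (by omega) hBa' (by rw [← ea]; exact hBa)
  rw [← ea] at c3
  have c4 := co_band0 hh (by omega : a + 1 ≤ b + 1) hB hBb
  have c5 : Co W (eu (lt (ot (2 * h) (P.side (b + 1)) 1)))
      (eu (lt (ot2 (2 * h) (P.side (b + 1)) 1))) := by
    rw [ot_edge]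
    refine co_edge (mem_W_LY hWb (by omega) (by omega)) ?_
    rw [← ot_edge]
    exact hBb.mem' (by norm_num) (nb_mid (isSide_side P (b + 1)) (by omega) (by omega) (by omega))
  have c6 : Co W (rvS h (P.side (b + 1))) (eu (lt (ot (2 * h) (P.side (b + 1)) 1))) :=
    co_tail_ot hWb (by omega) (by omega)
  exact c1.symm.trans (c2.trans (c3.trans (c4.trans (c5.symm.trans c6.symm))))

end arc

end Pool.Agent.H33.Q1
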