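import Mathlib
import Pool.Agent.H33.FM.Band
import Pool.Agent.Q1.M4.Walk

set_option autoImplicit false
open Finset

/-! # The band as a finset, disjointness of layers and bands -/

namespace Pool.Agent.H33.Q1

open Pool.Agent.H75.Perc hiding WL CT hh
open Pool.Agent.H75.TwoArm Pool.Agent.H75.Four Pool.Agent.H69.Q1 Pool.Agent.Q1
open Pool.Agent.H5.Q1 (oc vx_oc ty_oc fi_oc oc_congr)
open Pool.Agent.Q1.M4 (Cell Good IsSide nextSide tail head PType Adj4 Conn4 head_eq_tail_next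
  isSide_next dir_congr dir_add_four)

/-- the band around the sides `B` -/
noncomputable def Band (n : ℤ) (Q : Finset Cell) (B : Finset (Cell × ℤ)) : Finset (ℤ × ℤ) := by
  classical exact
  ((((B ×ˢ Ico 0 n) ×ˢ (Icc (-2 : ℤ) 2 ×ˢ Icc (-2 : ℤ) 2)).image
    fun x => it n x.1.1 x.1.2 + x.2).filter (Nb n Q 1)).image lt

variable {Q : Finset Cell} {B : Finset (Cell × ℤ)} {s s' : Cell × ℤ} {n : ℤ} {p : ℤ × ℤ}

lemma mem_Band : lt p ∈ Band n Q B ↔ Nb n Q 1 p ∧ ∃ s ∈ B, ∃ j, (0 ≤ j ∧ j < n) ∧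
    |p.1 - (it n s j).1| ≤ 2 ∧ |p.2 - (it n s j).2| ≤ 2 := by
  classical
  unfold Band
  simp only [mem_image, mem_filter, mem_product, mem_Ico, mem_Icc]
  constructor
  · rintro ⟨q, ⟨⟨⟨⟨s, j⟩, d⟩, ⟨⟨h1, h2⟩, h3, h4⟩, rfl⟩, h5⟩, h6⟩
    have h7 := lt_inj h6
    rw [← h7]
    refine ⟨h5, s, h1, j, h2, ?_, ?_⟩ <;> simp only [Prod.fst_add, Prod.snd_add, add_sub_cancel_left]
    · exact abs_le.2 h3
    · exact abs_le.2 h4
  · rintro ⟨h5, s, h1, j, h2, h3, h4⟩
    refine ⟨p, ⟨⟨((s, j), p - it n s j), ⟨⟨h1, h2⟩, ?_, ?_⟩, ?_⟩, h5⟩, rfl⟩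
    · exact abs_le.1 h3
    · exact abs_le.1 h4
    · simp

lemma odd_Band {e : ℤ × ℤ} (h : e ∈ Band n Q B) : (e.1 + e.2) % 2 = 1 := by
  classical
  unfold Band at h
  obtain ⟨p, -, rfl⟩ := mem_image.1 h
  exact lt_odd p

lemma band_empty (n : ℤ) (Q : Finset Cell) : Band n Q ∅ = ∅ := by
  classical
  unfold Band
  simp

lemma BW_Band {W : Finset (ℤ × ℤ)} (hW : Band n Q B ⊆ W) (hs : s ∈ B) {j : ℤ} (h0 : 0 ≤ j)
    (h1 : j < n) : BW n Q W s j := fun _ h2 h3 h4 => hW (mem_Band.2 ⟨h2, s, hs, j, ⟨h0, h1⟩, h3, h4⟩)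

/-! ### Distance to `Q` -/

lemma nb_TL {r : ℤ} (hn : 0 < n) (hr : 0 ≤ r) (h : Nb n Q r p) : lt p ∉ TL Q n := by
  intro h1
  have := ((mem_TL hn).1 h1).2
  rw [tt_lt] at this
  exact h p (by simpa using hr) (by simpa using hr) this

lemma nb_LY {r : ℤ} (hn : 0 < n) (hr : 1 ≤ r) (hs : IsSide Q s) (h : Nb n Q r p) :
    lt p ∉ LY n s := by
  intro h1
  have h2 := ((mem_LY hn).1 h1).2.2
  rw [tt_lt] at h2
  refine h (p - dir (s.2 - 1)) ?_ ?_ (by rw [h2]; exact hs.1) <;>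
    rcases dir_cases (s.2 - 1) with ⟨-, e⟩ | ⟨-, e⟩ | ⟨-, e⟩ | ⟨-, e⟩ <;> rw [e] <;>
    simp only [Prod.fst_sub, Prod.snd_sub] <;> rw [abs_le] <;> constructor <;> linarith

lemma nb_Band {r : ℤ} (hr : 2 ≤ r) (hB : ∀ s ∈ B, IsSide Q s) (h : Nb n Q r p) :
    lt p ∉ Band n Q B := by
  intro h1
  obtain ⟨-, s, hs, j, ⟨hj0, hj1⟩, h3, h4⟩ := mem_Band.1 h1
  refine h (it n s j) ?_ ?_ (by rw [ct_it s hj0 hj1]; exact (hB s hs).1)
  · rw [abs_sub_comm]; exact h3.trans hr
  · rw [abs_sub_comm]; exact h4.trans hr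

lemma lt_of_LY (hn : 0 < n) {e : ℤ × ℤ} (h : e ∈ LY n s) : ∃ p, e = lt p :=
  ⟨tt e, (lt_tt ((mem_LY hn).1 h).1).symm⟩

lemma disj_LY_Band (hn : 0 < n) (hs : IsSide Q s) : Disjoint (LY n s) (Band n Q B) := by
  rw [disjoint_left]
  intro e h1 h2
  obtain ⟨p, rfl⟩ := lt_of_LY hn h1
  exact nb_LY hn le_rfl hs (mem_Band.1 h2).1 h1

lemma disj_TL_Band (hn : 0 < n) : Disjoint (TL Q n) (Band n Q B) := by
  rw [disjoint_left]
  intro e h1 h2
  obtain ⟨p, rfl⟩ : ∃ p, e = lt p := ⟨tt e, (lt_tt ((mem_TL hn).1 h1).1).symm⟩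
  exact nb_TL hn zero_le_one (mem_Band.1 h2).1 h1

lemma disj_TL_LY (hn : 0 < n) (hs : IsSide Q s) : Disjoint (TL Q n) (LY n s) := by
  rw [disjoint_left]
  intro e h1 h2
  have := ((mem_LY hn).1 h2).2.1
  have h3 := ((mem_TL hn).1 h1).2
  rw [this] at h3
  exact hs.2 h3

/-- **Two layers meet only at an inner corner.** -/
theorem LY_inter (hn : 2 ≤ n) (hs : IsSide Q s) (hs' : IsSide Q s') {e : ℤ × ℤ} (h : e ∈ LY n s)
    (h' : e ∈ LY n s') : (s'.1 = s.1 ∧ (s'.2 - s.2) % 4 = 0) ∨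
    ((nextSide Q s').1 = s.1 ∧ ((nextSide Q s').2 - s.2) % 4 = 0 ∧ (nextSide Q s').2 = s'.2 - 1) ∨
    ((nextSide Q s).1 = s'.1 ∧ ((nextSide Q s).2 - s'.2) % 4 = 0 ∧ (nextSide Q s).2 = s.2 - 1) := by
  have hn0 : 0 < n := by omega
  obtain ⟨-, a1, a2⟩ := (mem_LY hn0).1 h
  obtain ⟨-, b1, b2⟩ := (mem_LY hn0).1 h'
  have key : ∀ t t' : Cell × ℤ, IsSide Q t → t.1 + dir (t.2 - 1) = t'.1 + dir (t'.2 - 1) →
      (t'.2 - t.2) % 4 = 1 → (nextSide Q t').1 = t.1 ∧ ((nextSide Q t').2 - t.2) % 4 = 0 ∧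
        (nextSide Q t').2 = t'.2 - 1 := by
    intro t t' ht he hm
    have e1 : t'.1 + dir t'.2 + dir (t'.2 - 1) = t.1 := by
      have e2 : dir (t'.2 - 1) = dir t.2 := dir_congr (by omega)
      have e3 : dir t'.2 = dir (t.2 + 1) := dir_congr (by omega)
      rw [e2] at he ⊢
      rw [e3]
      rcases io_dir t.2 with ⟨a, -, c, d⟩ | ⟨a, -, c, d⟩ | ⟨a, -, c, d⟩ | ⟨a, -, c, d⟩ <;>
        rcases io_dir (t.2 + 1) with ⟨a', -, c', d'⟩ | ⟨a', -, c', d'⟩ | ⟨a', -, c', d'⟩ |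
          ⟨a', -, c', d'⟩ <;>
        first
        | (exfalso; omega)
        | (rw [c, d] at he
           rw [c, c']
           have f1 := congrArg Prod.fst he
           have f2 := congrArg Prod.snd he
           simp only [Prod.fst_add, Prod.snd_add] at f1 f2
           refine Prod.ext ?_ ?_ <;> simp only [Prod.fst_add, Prod.snd_add] <;> linarith)
    have e4 : nextSide Q t' = (t.1, t'.2 - 1) := by
      unfold nextSide
      rw [e1, if_pos ht.1]
    rw [e4]
    exact ⟨rfl, by simp only; omega, rfl⟩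
  have hcase : (s'.2 - s.2) % 4 = 0 ∨ (s'.2 - s.2) % 4 = 1 ∨ (s'.2 - s.2) % 4 = 2 ∨
    (s.2 - s'.2) % 4 = 1 := by omega
  rcases hcase with hm | hm | hm | hm
  · left
    refine ⟨?_, hm⟩
    rw [← a2, ← b2, dir_congr (by omega : ((s'.2 - 1) - (s.2 - 1)) % 4 = 0)]
  · right; left
    exact key s s' hs (a1.symm.trans b1) hm
  · exfalso
    have e2 : dir (s'.2 - 1) = dir (s.2 + 1) := dir_congr (by omega)
    rw [e2] at b2
    rw [ct_eq hn0] at a1 a2 b2
    have b3 := b1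
    rw [e2] at b3
    have a3 : ct n (tt e) = s.1 + dir (s.2 - 1) := (ct_eq hn0).2 a1
    have he := a3.symm.trans b3
    rcases io_dir s.2 with ⟨a, -, c, d⟩ | ⟨a, -, c, d⟩ | ⟨a, -, c, d⟩ | ⟨a, -, c, d⟩ <;>
      rcases io_dir (s.2 + 1 + 1) with ⟨a', -, c', d'⟩ | ⟨a', -, c', d'⟩ | ⟨a', -, c', d'⟩ |
        ⟨a', -, c', d'⟩ <;>
      first
      | (exfalso; omega)
      | (rw [add_sub_cancel_right] at d'
         rw [d, d'] at he
         rw [d] at a1 a2
         rw [d'] at b2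
         have f1 := congrArg Prod.fst he
         have f2 := congrArg Prod.snd he
         simp only [Prod.fst_add, Prod.snd_add, Prod.fst_sub, Prod.snd_sub] at f1 f2 a1 a2 b2
         obtain ⟨⟨a11, a12⟩, a13, a14⟩ := a1
         obtain ⟨⟨a21, a22⟩, a23, a24⟩ := a2
         obtain ⟨⟨b21, b22⟩, b23, b24⟩ := b2
         first
         | (have f3 : s'.1.1 = s.1.1 := by linarith
            have f4 : s'.1.2 = s.1.2 - 2 := by linarith
            rw [f4] at b23 b24
            nlinarith)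
         | (have f3 : s'.1.1 = s.1.1 := by linarith
            have f4 : s'.1.2 = s.1.2 + 2 := by linarith
            rw [f4] at b23 b24
            nlinarith)
         | (have f3 : s'.1.2 = s.1.2 := by linarith
            have f4 : s'.1.1 = s.1.1 - 2 := by linarith
            rw [f4] at b21 b22
            nlinarith)
         | (have f3 : s'.1.2 = s.1.2 := by linarith
            have f4 : s'.1.1 = s.1.1 + 2 := by linarith
            rw [f4] at b21 b22
            nlinarith))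
  · right; right
    exact key s' s hs' (b1.symm.trans a1) hm


/-- the diagonal tile at a convex head is not in a layer -/
lemma diag_LY (hn : 2 ≤ n) (hs : IsSide Q s) (h1 : s.1 + dir s.2 + dir (s.2 - 1) ∉ Q)
    (h2 : s.1 + dir s.2 ∉ Q) (hs' : IsSide Q s') : lt (ot n s n) ∉ LY n s' := by
  have hn0 : 0 < n := by omega
  intro h3
  obtain ⟨-, -, h4⟩ := (mem_LY hn0).1 h3
  rw [tt_lt] at h4
  have key : ∀ k, ct n (ot n s n - dir k) ∉ Q := by
    intro k
    have hc : ct n (ot n s n - dir k) = s.1 + dir s.2 + dir (s.2 - 1) ∨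
        ct n (ot n s n - dir k) = s.1 + dir s.2 ∨ ct n (ot n s n - dir k) = s.1 + dir (s.2 - 1) := by
      rw [ct_eq hn0, ct_eq hn0, ct_eq hn0]
      unfold ot it wp
      rw [tail_io]
      rcases io_dir s.2 with ⟨-, b, c, d⟩ | ⟨-, b, c, d⟩ | ⟨-, b, c, d⟩ | ⟨-, b, c, d⟩ <;>
        rcases dir_cases k with ⟨-, e⟩ | ⟨-, e⟩ | ⟨-, e⟩ | ⟨-, e⟩ <;>
        rw [b, c, d, e] <;>
        simp only [Prod.fst_add, Prod.snd_add, Prod.fst_sub, Prod.snd_sub] <;> ring_nf <;>
        first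
        | (left; constructor <;> constructor <;> linarith)
        | (right; left; constructor <;> constructor <;> linarith)
        | (right; right; constructor <;> constructor <;> linarith)
    rcases hc with hc | hc | hc <;> rw [hc]
    · exact h1
    · exact h2
    · exact hs.2
  exact key _ (by rw [h4]; exact hs'.1)

/-- the diagonal tile at a convex head is not in a band -/
lemma diag_Band (hn : 2 ≤ n) (hs : IsSide Q s) : lt (ot n s n) ∉ Band n Q B := by
  intro h1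
  refine (mem_Band.1 h1).1 (it n s (n - 1)) ?_ ?_ (by
    rw [ct_it s (by omega) (by omega)]; exact hs.1) <;>
  · have e : ot n s n = it n s (n - 1) + (1 * (dir s.2).1, 1 * (dir s.2).2) + dir (s.2 - 1) := by
      unfold ot; rw [← it_add]; congr 2; ring
    rw [e]
    rcases io_dir s.2 with ⟨-, -, c, d⟩ | ⟨-, -, c, d⟩ | ⟨-, -, c, d⟩ | ⟨-, -, c, d⟩ <;>
      rw [c, d] <;> simp only [Prod.fst_add, Prod.snd_add] <;> rw [abs_le] <;> constructor <;> linarith

/-- the tiles near `ot2 n s 0` at a convex tail -/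
lemma near_tail (hs : IsSide Q s) (hQ : Good Q) (hc : s.1 - dir s.2 ∉ Q) (hn : 4 ≤ n) {q : ℤ × ℤ}
    (h1 : |(ot2 n s 0).1 - q.1| ≤ 2) (h2 : |(ot2 n s 0).2 - q.2| ≤ 2) (hq : ct n q ∈ Q) :
    ct n q = s.1 ∧ ∃ i, (0 ≤ i ∧ i ≤ 2) ∧ q = it n s i := by
  have hn0 : 0 < n := by omega
  have hb := diag_compl hQ hs hc
  rw [abs_le] at h1 h2
  have hcase : (ct n q = s.1 ∧ ∃ i, (0 ≤ i ∧ i ≤ 2) ∧ q = it n s i) ∨ ct n q = s.1 + dir (s.2 - 1) ∨
      ct n q = s.1 + dir (s.2 - 1) - dir s.2 ∨ ct n q = s.1 - dir s.2 := by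
    rw [ct_eq hn0, ct_eq hn0, ct_eq hn0, ct_eq hn0]
    unfold ot2 ot it wp at h1 h2
    unfold it wp
    rw [tail_io] at h1 h2
    rw [tail_io]
    rcases io_dir s.2 with ⟨-, b, c, d⟩ | ⟨-, b, c, d⟩ | ⟨-, b, c, d⟩ | ⟨-, b, c, d⟩ <;>
      rw [b, c, d] at h1 h2 <;> rw [b, c, d] <;>
      simp only [Prod.fst_add, Prod.snd_add, Prod.fst_sub, Prod.snd_sub] at h1 h2 ⊢ <;>
      ring_nf at h1 h2 ⊢
    · by_cases h3 : s.1.1 * n ≤ q.1
      · by_cases h4 : s.1.2 * n ≤ q.2
        · left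
          refine ⟨⟨⟨by linarith, by linarith⟩, by linarith, by linarith⟩, q.1 - s.1.1 * n,
            ⟨by linarith, by linarith⟩, Prod.ext ?_ ?_⟩
          · simp only [Prod.fst_add, Prod.snd_add]; ring
          · simp only [Prod.fst_add, Prod.snd_add]; linarith
        · right; left; constructor <;> constructor <;> linarith
      · by_cases h4 : s.1.2 * n ≤ q.2
        · right; right; right; constructor <;> constructor <;> linarith
        · right; right; left; constructor <;> constructor <;> linarith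
    · by_cases h3 : s.1.2 * n ≤ q.2
      · by_cases h4 : q.1 < s.1.1 * n + n
        · left
          refine ⟨⟨⟨by linarith, by linarith⟩, by linarith, by linarith⟩, q.2 - s.1.2 * n,
            ⟨by linarith, by linarith⟩, Prod.ext ?_ ?_⟩
          · simp only [Prod.fst_add, Prod.snd_add]; linarith
          · simp only [Prod.fst_add, Prod.snd_add]; ring
        · right; left; constructor <;> constructor <;> linarith
      · by_cases h4 : q.1 < s.1.1 * n + n
        · right; right; right; constructor <;> constructor <;> linarith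
        · right; right; left; constructor <;> constructor <;> linarith
    · by_cases h3 : q.1 < s.1.1 * n + n
      · by_cases h4 : q.2 < s.1.2 * n + n
        · left
          refine ⟨⟨⟨by linarith, by linarith⟩, by linarith, by linarith⟩, s.1.1 * n + n - 1 - q.1,
            ⟨by linarith, by linarith⟩, Prod.ext ?_ ?_⟩
          · simp only [Prod.fst_add, Prod.snd_add]; ring
          · simp only [Prod.fst_add, Prod.snd_add]; linarith
        · right; left; constructor <;> constructor <;> linarith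
      · by_cases h4 : q.2 < s.1.2 * n + n
        · right; right; right; constructor <;> constructor <;> linarith
        · right; right; left; constructor <;> constructor <;> linarith
    · by_cases h3 : q.2 < s.1.2 * n + n
      · by_cases h4 : s.1.1 * n ≤ q.1
        · left
          refine ⟨⟨⟨by linarith, by linarith⟩, by linarith, by linarith⟩, s.1.2 * n + n - 1 - q.2,
            ⟨by linarith, by linarith⟩, Prod.ext ?_ ?_⟩
          · simp only [Prod.fst_add, Prod.snd_add]; linarith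
          · simp only [Prod.fst_add, Prod.snd_add]; ring
        · right; left; constructor <;> constructor <;> linarith
      · by_cases h4 : s.1.1 * n ≤ q.1
        · right; right; right; constructor <;> constructor <;> linarith
        · right; right; left; constructor <;> constructor <;> linarith
  rcases hcase with h3 | h3 | h3 | h3
  · exact h3
  · rw [h3] at hq; exact absurd hq hs.2
  · rw [h3] at hq; exact absurd hq hb
  · rw [h3] at hq; exact absurd hq hc

/-- the tile next to a convex tail is not in the band of the other sides -/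
lemma ot2_Band (hQ : Good Q) (hs : IsSide Q s) (hc : s.1 - dir s.2 ∉ Q) (hn : 4 ≤ n)
    (hB : ∀ s' ∈ B, IsSide Q s' ∧ ¬ (s'.1 = s.1 ∧ ((s'.2 - s.2) % 4 = 0 ∨ (s'.2 - s.2) % 4 = 3))) :
    lt (ot2 n s 0) ∉ Band n Q B := by
  intro h1
  obtain ⟨-, s', hs', j, ⟨hj0, hj1⟩, h3, h4⟩ := mem_Band.1 h1
  obtain ⟨hS, hne⟩ := hB s' hs'
  obtain ⟨h5, i, ⟨hi0, hi2⟩, h6⟩ := near_tail hs hQ hc hn h3 h4 (by rw [ct_it s' hj0 hj1]; exact hS.1)
  rw [ct_it s' hj0 hj1] at h5
  apply hne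
  refine ⟨h5, ?_⟩
  by_contra h7
  have h8 : (s'.2 - s.2) % 4 = 1 ∨ (s'.2 - s.2) % 4 = 2 := by omega
  unfold it wp at h6
  rw [tail_io, tail_io, h5] at h6
  have f1 := congrArg Prod.fst h6
  have f2 := congrArg Prod.snd h6
  rcases io_dir s.2 with ⟨a, b, c, -⟩ | ⟨a, b, c, -⟩ | ⟨a, b, c, -⟩ | ⟨a, b, c, -⟩ <;>
    rcases io_dir s'.2 with ⟨a', b', c', -⟩ | ⟨a', b', c', -⟩ | ⟨a', b', c', -⟩ | ⟨a', b', c', -⟩ <;>
    first
    | (exfalso; omega)
    | (rw [b, c, b', c'] at f1 f2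
       simp only [Prod.fst_add, Prod.snd_add, Prod.fst_sub, Prod.snd_sub] at f1 f2
       ring_nf at f1 f2
       linarith)

/-- the label of the diagonal tile -/
lemma lt_diag (h : ℕ) (Q : Finset Cell) (s : Cell × ℤ) :
    lt (ot (2 * h) s (2 * h)) = rvS h (nextSide Q s) + rvS h (nextSide Q s) + dir s.2 := by
  have h1 := tv_rvS h (nextSide Q s)
  rw [wp_next] at h1
  obtain ⟨o0, o1, o2, o3⟩ := ot_eq (2 * (h : ℤ)) s (2 * h)
  rw [← h1] at o0 o1 o2 o3
  set v := rvS h (nextSide Q s)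
  rcases io_dir s.2 with ⟨a, -, c, -⟩ | ⟨a, -, c, -⟩ | ⟨a, -, c, -⟩ | ⟨a, -, c, -⟩ <;> rw [c]
  · rw [o0 a]; unfold lt tv; refine Prod.ext ?_ ?_ <;> simp only [Prod.fst_add, Prod.snd_add] <;> ring
  · rw [o1 a]; unfold lt tv; refine Prod.ext ?_ ?_ <;> simp only [Prod.fst_add, Prod.snd_add] <;> ring
  · rw [o2 a]; unfold lt tv; refine Prod.ext ?_ ?_ <;> simp only [Prod.fst_add, Prod.snd_add] <;> ring
  · rw [o3 a]; unfold lt tv; refine Prod.ext ?_ ?_ <;> simp only [Prod.fst_add, Prod.snd_add] <;> ring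

/-! ### Periodicity -/

lemma nextSide_four (Q : Finset Cell) (s : Cell × ℤ) :
    nextSide Q (s.1, s.2 + 4) = ((nextSide Q s).1, (nextSide Q s).2 + 4) := by
  unfold nextSide
  have e1 : dir (s.2 + 4) = dir s.2 := dir_add_four _
  have e2 : dir (s.2 + 4 - 1) = dir (s.2 - 1) := dir_congr (by omega)
  simp only [e1, e2]
  split_ifs <;> refine Prod.ext rfl ?_ <;> simp only <;> ring

lemma side_period (P : PType) (i : ℕ) :
    P.side (P.N + i) = ((P.side i).1, (P.side i).2 + 4) := by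
  induction i with
  | zero => exact P.period
  | succ i ih => rw [← Nat.add_assoc, side_succ', ih, nextSide_four, ← side_succ']

lemma io_four (l : ℤ) : io (l + 4) = io l := by
  unfold io
  have : (l + 4) % 4 = l % 4 := by omega
  rw [this]

lemma tail_four (s : Cell × ℤ) : tail (s.1, s.2 + 4) = tail s := by
  rw [tail_io, tail_io, io_four]

lemma it_four (n : ℤ) (s : Cell × ℤ) (j : ℤ) : it n (s.1, s.2 + 4) j = it n s j := by
  unfold it wp
  rw [tail_four, io_four, dir_add_four]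

lemma LY_four (n : ℤ) (s : Cell × ℤ) : LY n (s.1, s.2 + 4) = LY n s := by
  unfold LY
  have e2 : dir (s.2 + 4 - 1) = dir (s.2 - 1) := dir_congr (by omega)
  simp only [e2]

lemma rvS_four (h : ℕ) (s : Cell × ℤ) : rvS h (s.1, s.2 + 4) = rvS h s := by
  unfold rvS; rw [tail_four]

lemma BW_four {W : Finset (ℤ × ℤ)} {j : ℤ} (h : BW n Q W s j) : BW n Q W (s.1, s.2 + 4) j := by
  intro p h1 h2 h3
  rw [it_four] at h2 h3
  exact h p h1 h2 h3

end Pool.Agent.H33.Q1
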