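import Mathlib
import Pool.Agent.H33.FM.Wires
import Pool.Agent.H21.FM.Defs

set_option autoImplicit false
open Finset

/-! # Environments of a shape with four marks

`WB S h B = W0 S h ∪ Band B`. `W34 S h` joins the arcs II and IV around the free arc III, `W12 S h` around
the free arc I. -/

namespace Pool.Agent.H33.FM

open Pool.Agent.H75.Perc hiding WL CT hh
open Pool.Agent.H75.TwoArm Pool.Agent.H75.Four Pool.Agent.H69.Q1 Pool.Agent.Q1
open Pool.Agent.H5.Q1 (oc vx_oc ty_oc fi_oc oc_congr)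
open Pool.Agent.Q1.M4 (Cell Good IsSide nextSide tail head PType Adj4 Conn4 head_eq_tail_next
  isSide_next dir_congr dir_add_four)
open Pool.Agent.H33.Q1 Pool.Agent.H21.FM

variable {S : Shape} {h : ℕ}

/-- wired labels: the layers of the arcs II, IV and a band -/
noncomputable def WB (S : Shape) (h : ℕ) (B : Finset (Cell × ℤ)) : Finset (ℤ × ℤ) :=
  W0 S h ∪ Band (2 * h) S.P.Q B

/-- the sides of the arc I -/
noncomputable def BI (S : Shape) : Finset (Cell × ℤ) := (range S.m2).image S.P.side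

/-- the sides of the arc III -/
noncomputable def BIII (S : Shape) : Finset (Cell × ℤ) := (Ico S.m3 S.m4).image S.P.side

/-- the arcs II and IV joined around III -/
noncomputable def W34 (S : Shape) (h : ℕ) : Finset (ℤ × ℤ) := WB S h (BIII S)

/-- the arcs II and IV joined around I -/
noncomputable def W12 (S : Shape) (h : ℕ) : Finset (ℤ × ℤ) := WB S h (BI S)

lemma WB_empty : WB S h ∅ = W0 S h := by unfold WB; rw [band_empty, union_empty]

lemma mem_W0 {e : ℤ × ℤ} : e ∈ W0 S h ↔ ∃ i, S.Wd i ∧ e ∈ LY (2 * h) (S.P.side i) := by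
  unfold W0 Shape.Wd
  simp only [mem_biUnion, mem_union, mem_Ico]

lemma side_isSide (S : Shape) (i : ℕ) : IsSide S.P.Q (S.P.side i) := isSide_side S.P i

lemma wd_lt {i : ℕ} (hi : S.Wd i) : i < S.N := by
  have := S.P.hmN
  rcases hi with h1 | h1
  · have := S.h34; unfold Shape.N; omega
  · exact h1.2

lemma fr_lt {i : ℕ} (hi : S.Fr i) : i < S.m4 := by
  have := S.h23; have := S.h34
  rcases hi with h1 | h1
  · unfold Shape.m4; omega
  · exact h1.2

lemma fr_ltN {i : ℕ} (hi : S.Fr i) : i < S.N := by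
  have := S.P.hmN; have := fr_lt hi; unfold Shape.m4 at this; unfold Shape.N; omega

lemma not_fr_wd {i : ℕ} (h1 : S.Fr i) (h2 : S.Wd i) : False := by
  have := S.h23; have := S.h34
  unfold Shape.Fr Shape.Wd Shape.m4 Shape.N at *
  omega

/-- equality of sides modulo `4` -/
lemma side_inj (S : Shape) {i j : ℕ} (hi : i < S.N) (hj : j < S.N)
    (h1 : (S.P.side i).1 = (S.P.side j).1) (h2 : ((S.P.side i).2 - (S.P.side j).2) % 4 = 0) : i = j :=
  S.P.inj i hi j hj h1 h2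

/-- the previous side at a convex mark -/
lemma cvx' (S : Shape) {i : ℕ} (hi : i + 1 = S.m2 ∨ i + 1 = S.m3 ∨ i + 1 = S.P.m ∨ i + 1 = S.P.N) :
    S.P.side (i + 1) = ((S.P.side i).1, (S.P.side i).2 + 1) := S.cvx i hi

lemma LY_disj (hh : 1 ≤ h) {i j : ℕ} (hi : S.Fr i) (hj : S.Wd j) :
    Disjoint (LY (2 * h) (S.P.side i)) (LY (2 * h) (S.P.side j)) := by
  have hhz : (1 : ℤ) ≤ h := by exact_mod_cast hh
  have hN := S.P.hmN
  have h02 := S.h02
  have h23 := S.h23
  have h34 := S.h34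
  rw [disjoint_left]
  intro e h1 h2
  have hne : i ≠ j := fun e => not_fr_wd hi (e ▸ hj)
  -- the index of the next side
  have key : ∀ a b : ℕ, a < S.N → b < S.N → (nextSide S.P.Q (S.P.side a)).1 = (S.P.side b).1 →
      ((nextSide S.P.Q (S.P.side a)).2 - (S.P.side b).2) % 4 = 0 →
      (a + 1 = b ∨ (a + 1 = S.N ∧ b = 0)) := by
    intro a b ha hb e1 e2
    rw [← side_succ'] at e1 e2
    by_cases h3 : a + 1 < S.N
    · exact Or.inl (side_inj S h3 hb e1 e2)
    · have h4 : a + 1 = S.N := by omega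
      right
      refine ⟨h4, ?_⟩
      have h5 := side_period S.P 0
      rw [Nat.add_zero] at h5
      have h6 : S.P.side (a + 1) = S.P.side S.P.N := by rw [h4]
      rw [h6, h5] at e1 e2
      simp only at e1 e2
      exact (side_inj S (by omega) hb e1 (by omega)).symm
  have hmark : ∀ a b : ℕ, (S.Fr a ∧ S.Wd b ∨ S.Wd a ∧ S.Fr b) →
      (a + 1 = b ∨ (a + 1 = S.N ∧ b = 0)) →
      (nextSide S.P.Q (S.P.side a)).2 = (S.P.side a).2 - 1 → False := by
    intro a b hab h3 h4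
    have h5 : a + 1 = S.m2 ∨ a + 1 = S.m3 ∨ a + 1 = S.P.m ∨ a + 1 = S.P.N := by
      unfold Shape.Fr Shape.Wd Shape.m4 Shape.N at *
      omega
    have h6 := cvx' S h5
    rw [side_succ'] at h6
    rw [h6] at h4
    simp only at h4
    omega
  rcases LY_inter (by omega) (side_isSide S i) (side_isSide S j) h1 h2 with h3 | h3 | h3
  · exact hne (side_inj S (wd_lt hj) (fr_ltN hi) h3.1 h3.2).symm
  · exact hmark j i (Or.inr ⟨hj, hi⟩) (key j i (wd_lt hj) (fr_ltN hi) h3.1 h3.2.1) h3.2.2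
  · exact hmark i j (Or.inl ⟨hi, hj⟩) (key i j (fr_ltN hi) (wd_lt hj) h3.1 h3.2.1) h3.2.2

/-- **Admissible wired labels.** -/
theorem wir_WB (hh : 1 ≤ h) (B : Finset (Cell × ℤ)) : Wir S h (WB S h B) := by
  have hhz : (1 : ℤ) ≤ h := by exact_mod_cast hh
  have hn : (0 : ℤ) < 2 * h := by omega
  refine ⟨?_, ?_, ?_, ?_, ?_⟩
  · intro e he
    rcases mem_union.1 he with h1 | h1
    · obtain ⟨i, -, h2⟩ := mem_W0.1 h1
      exact ((mem_LY hn).1 h2).1
    · exact odd_Band h1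
  · unfold WB
    rw [disjoint_union_right]
    refine ⟨?_, disj_TL_Band hn⟩
    rw [disjoint_left]
    intro e h1 h2
    obtain ⟨i, -, h3⟩ := mem_W0.1 h2
    exact disjoint_left.1 (disj_TL_LY hn (side_isSide S i)) h1 h3
  · intro i hi e he
    exact mem_union_left _ (mem_W0.2 ⟨i, hi, he⟩)
  · intro i hi
    unfold WB
    rw [disjoint_union_right]
    refine ⟨?_, disj_LY_Band hn (side_isSide S i)⟩
    rw [disjoint_left]
    intro e h1 h2
    obtain ⟨j, hj, h3⟩ := mem_W0.1 h2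
    exact disjoint_left.1 (LY_disj hh hi hj) h1 h3
  · intro i hi hi' hc
    have hs := side_isSide S i
    have hnext : nextSide S.P.Q (S.P.side i) = ((S.P.side i).1, (S.P.side i).2 + 1) := by
      rw [← side_succ']; exact hc
    have h1 : (S.P.side i).1 + dir (S.P.side i).2 + dir ((S.P.side i).2 - 1) ∉ S.P.Q ∧
        (S.P.side i).1 + dir (S.P.side i).2 ∉ S.P.Q := by
      rcases next_cases S.P.Q (S.P.side i) with ⟨-, e⟩ | ⟨-, -, e⟩ | ⟨h1, h2, -⟩
      · rw [hnext] at e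
        have := congrArg Prod.snd e
        simp only at this
        omega
      · rw [hnext] at e
        have := congrArg Prod.snd e
        simp only at this
        omega
      · exact ⟨h1, h2⟩
    have e : ql (wv h (S.P.side (i + 1)) 0) (S.k i) = lt (ot (2 * h) (S.P.side i) (2 * h)) := by
      rw [lt_diag h S.P.Q, ← side_succ']
      unfold ql Shape.k
      have : wv h (S.P.side (i + 1)) 0 = rvS h (S.P.side (i + 1)) := by
        unfold wv rvS; refine Prod.ext ?_ ?_ <;> simp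
      rw [this]
    rw [e]
    intro h2
    rcases mem_union.1 h2 with h3 | h3
    · obtain ⟨j, -, h4⟩ := mem_W0.1 h3
      exact diag_LY (by omega) hs h1.1 h1.2 (side_isSide S j) h4
    · exact diag_Band (by omega) hs h3

theorem wir_W0 (hh : 1 ≤ h) : Wir S h (W0 S h) := by rw [← WB_empty]; exact wir_WB hh ∅
theorem wir_W34 (hh : 1 ≤ h) : Wir S h (W34 S h) := wir_WB hh _
theorem wir_W12 (hh : 1 ≤ h) : Wir S h (W12 S h) := wir_WB hh _

/-! ### Roots -/

lemma v1_eq : v1 S h = rvS h (S.P.side 0) := by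
  unfold v1 wv rvS; refine Prod.ext ?_ ?_ <;> simp

lemma v3_eq : v3 S h = rvS h (S.P.side S.m3) := by
  unfold v3 wv rvS; refine Prod.ext ?_ ?_ <;> simp

lemma r1_eq : r1 S h = rcS h (S.P.side 0) := by
  unfold r1 rcS; rw [v1_eq]; rfl

lemma r3_eq : r3 S h = rcS h (S.P.side S.m3) := by
  unfold r3 rcS; rw [v3_eq]; rfl

/-- the side before the first one -/
lemma prev0 (S : Shape) : S.P.side (S.P.N - 1) = ((S.P.side 0).1, (S.P.side 0).2 + 3) := by
  have hN : 0 < S.P.N := by have := S.P.hmN; omega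
  have h1 := S.cvx (S.P.N - 1) (Or.inr (Or.inr (Or.inr (by omega))))
  have h2 := side_period S.P 0
  rw [Nat.add_zero] at h2
  have h3 : S.P.N - 1 + 1 = S.P.N := by omega
  rw [h3, h2] at h1
  have e1 := congrArg Prod.fst h1
  have e2 := congrArg Prod.snd h1
  simp only at e1 e2
  exact Prod.ext e1.symm (by simp only; omega)

lemma prev3 (S : Shape) : S.P.side S.m3 = ((S.P.side (S.m3 - 1)).1, (S.P.side (S.m3 - 1)).2 + 1) := by
  have h23 := S.h23
  have h1 := S.cvx (S.m3 - 1) (Or.inr (Or.inl (by omega)))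
  have h3 : S.m3 - 1 + 1 = S.m3 := by omega
  rwa [h3] at h1

lemma conv0 (S : Shape) : (S.P.side 0).1 - dir (S.P.side 0).2 ∉ S.P.Q := by
  have h1 := (side_isSide S (S.P.N - 1)).2
  rw [prev0] at h1
  simp only at h1
  convert h1 using 1
  rcases dir_cases (S.P.side 0).2 with ⟨a, e⟩ | ⟨a, e⟩ | ⟨a, e⟩ | ⟨a, e⟩ <;>
    rcases dir_cases ((S.P.side 0).2 + 3 - 1) with ⟨b, f⟩ | ⟨b, f⟩ | ⟨b, f⟩ | ⟨b, f⟩ <;>
    first
    | (exfalso; omega)
    | (rw [e, f]; simp [sub_eq_add_neg])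

lemma conv3 (S : Shape) : (S.P.side S.m3).1 - dir (S.P.side S.m3).2 ∉ S.P.Q := by
  have h1 := (side_isSide S (S.m3 - 1)).2
  have h2 := prev3 S
  rw [h2]
  simp only
  set t := S.P.side (S.m3 - 1) with ht
  convert h1 using 1
  rcases dir_cases (t.2 + 1) with ⟨a, e⟩ | ⟨a, e⟩ | ⟨a, e⟩ | ⟨a, e⟩ <;>
    rcases dir_cases (t.2 - 1) with ⟨b, f⟩ | ⟨b, f⟩ | ⟨b, f⟩ | ⟨b, f⟩ <;>
    first
    | (exfalso; omega)
    | (rw [e, f]; simp [sub_eq_add_neg])

/-- all random and wired labels are near `Q` -/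
lemma near_all (hh : 1 ≤ h) {B : Finset (Cell × ℤ)} (hB : ∀ s ∈ B, IsSide S.P.Q s) (p : ℤ × ℤ)
    (hp : lt p ∈ EE S h ∪ WB S h B) : ¬ Nb (2 * h) S.P.Q 2 p := by
  have hhz : (1 : ℤ) ≤ h := by exact_mod_cast hh
  have hn : (0 : ℤ) < 2 * h := by omega
  intro h1
  rcases mem_union.1 hp with h2 | h2
  · exact nb_TL hn (by norm_num) h1 h2
  · rcases mem_union.1 h2 with h3 | h3
    · obtain ⟨i, -, h4⟩ := mem_W0.1 h3
      exact nb_LY hn (by norm_num) (side_isSide S i) h1 h4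
    · exact nb_Band le_rfl hB h1 h3

/-- the tile next to the root is closed -/
lemma ot2_notin (hh : 4 ≤ h) {B : Finset (Cell × ℤ)} {s : Cell × ℤ} (hs : IsSide S.P.Q s)
    (hc : s.1 - dir s.2 ∉ S.P.Q)
    (hB : ∀ s' ∈ B, IsSide S.P.Q s' ∧
      ¬ (s'.1 = s.1 ∧ ((s'.2 - s.2) % 4 = 0 ∨ (s'.2 - s.2) % 4 = 3))) :
    lt (ot2 (2 * h) s 0) ∉ EE S h ∪ WB S h B := by
  have hhz : (4 : ℤ) ≤ h := by exact_mod_cast hh
  have hn : (0 : ℤ) < 2 * h := by omega
  have h1 : Nb (2 * h) S.P.Q 1 (ot2 (2 * h) s 0) :=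
    nb_tail hs (diag_compl S.P.good hs hc) (by omega) (by norm_num) (by omega)
  intro h2
  rcases mem_union.1 h2 with h3 | h3
  · exact nb_TL hn (by norm_num) h1 h3
  rcases mem_union.1 h3 with h4 | h4
  · obtain ⟨i, -, h5⟩ := mem_W0.1 h4
    exact nb_LY hn le_rfl (side_isSide S i) h1 h5
  · exact ot2_Band S.P.good hs hc (by omega) hB h4

lemma sideB {A : Finset ℕ} {s : Cell × ℤ} (hs : s ∈ A.image S.P.side) : ∃ i ∈ A, S.P.side i = s :=
  mem_image.1 hs

/-- the sides of III are not at the first mark -/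
lemma BIII_1 : ∀ s' ∈ BIII S, IsSide S.P.Q s' ∧
    ¬ (s'.1 = (S.P.side 0).1 ∧ ((s'.2 - (S.P.side 0).2) % 4 = 0 ∨ (s'.2 - (S.P.side 0).2) % 4 = 3)) := by
  have hN := S.P.hmN
  have h02 := S.h02
  have h23 := S.h23
  have h34 := S.h34
  intro s' hs'
  obtain ⟨i, hi, rfl⟩ := sideB hs'
  rw [mem_Ico] at hi
  unfold Shape.m4 at hi
  refine ⟨side_isSide S i, ?_⟩
  rintro ⟨h1, h2 | h2⟩
  · have := side_inj S (i := i) (j := 0) (by unfold Shape.N; omega) (by unfold Shape.N; omega) h1 h2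
    omega
  · have h3 := prev0 S
    have := side_inj S (i := i) (j := S.P.N - 1) (by unfold Shape.N; omega) (by unfold Shape.N; omega)
      (by rw [h3]; exact h1) (by rw [h3]; simp only; omega)
    omega

/-- the sides of I are not at the third mark -/
lemma BI_3 : ∀ s' ∈ BI S, IsSide S.P.Q s' ∧
    ¬ (s'.1 = (S.P.side S.m3).1 ∧ ((s'.2 - (S.P.side S.m3).2) % 4 = 0 ∨
      (s'.2 - (S.P.side S.m3).2) % 4 = 3)) := by
  have hN := S.P.hmN
  have h02 := S.h02
  have h23 := S.h23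
  have h34 := S.h34
  intro s' hs'
  obtain ⟨i, hi, rfl⟩ := sideB hs'
  rw [mem_range] at hi
  refine ⟨side_isSide S i, ?_⟩
  rintro ⟨h1, h2 | h2⟩
  · have := side_inj S (i := i) (j := S.m3) (by unfold Shape.N; omega) (by unfold Shape.N; omega) h1 h2
    omega
  · have h3 := prev3 S
    rw [h3] at h1 h2
    simp only at h1 h2
    have := side_inj S (i := i) (j := S.m3 - 1) (by unfold Shape.N; omega) (by unfold Shape.N; omega)
      h1 (by omega)
    omega

/-- **The roots are joined to infinity**, general band. -/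
theorem low_WB (hh : 4 ≤ h) {B : Finset (Cell × ℤ)} {s : Cell × ℤ} (hs : IsSide S.P.Q s)
    (hc : s.1 - dir s.2 ∉ S.P.Q)
    (hB : ∀ s' ∈ B, IsSide S.P.Q s' ∧
      ¬ (s'.1 = s.1 ∧ ((s'.2 - s.2) % 4 = 0 ∨ (s'.2 - s.2) % 4 = 3))) :
    ∃ g : ℤ × ℤ, DCo (EE S h ∪ WB S h B) (fi (rcS h s)) g ∧
      ∀ v, Co (EE S h ∪ WB S h B) (vx (rcS h s)) v → g.2 < v.2 :=
  root_low S.P.good hs hc hh (near_all (by omega) fun s hs => (hB s hs).1) (ot2_notin hh hs hc hB)

theorem low_W0_1 (hh : 4 ≤ h) : ∃ g : ℤ × ℤ, DCo (EE S h ∪ W0 S h) (fi (r1 S h)) g ∧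
    ∀ v, Co (EE S h ∪ W0 S h) (vx (r1 S h)) v → g.2 < v.2 := by
  rw [r1_eq, ← WB_empty]
  exact low_WB hh (side_isSide S 0) (conv0 S) (by simp)

theorem low_W0_3 (hh : 4 ≤ h) : ∃ g : ℤ × ℤ, DCo (EE S h ∪ W0 S h) (fi (r3 S h)) g ∧
    ∀ v, Co (EE S h ∪ W0 S h) (vx (r3 S h)) v → g.2 < v.2 := by
  rw [r3_eq, ← WB_empty]
  exact low_WB hh (side_isSide S _) (conv3 S) (by simp)

theorem low_W34 (hh : 4 ≤ h) : ∃ g : ℤ × ℤ, DCo (EE S h ∪ W34 S h) (fi (r1 S h)) g ∧
    ∀ v, Co (EE S h ∪ W34 S h) (vx (r1 S h)) v → g.2 < v.2 := by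
  rw [r1_eq]
  exact low_WB hh (side_isSide S 0) (conv0 S) BIII_1

theorem low_W12 (hh : 4 ≤ h) : ∃ g : ℤ × ℤ, DCo (EE S h ∪ W12 S h) (fi (r3 S h)) g ∧
    ∀ v, Co (EE S h ∪ W12 S h) (vx (r3 S h)) v → g.2 < v.2 := by
  rw [r3_eq]
  exact low_WB hh (side_isSide S _) (conv3 S) BI_3

theorem plab_r1 (hh : 1 ≤ h) : plab (r1 S h) ∉ EE S h := by
  rw [r1_eq]; exact root_plabS S.P.good (side_isSide S 0) (conv0 S) hh

theorem plab_r3 (hh : 1 ≤ h) : plab (r3 S h) ∉ EE S h := by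
  rw [r3_eq]; exact root_plabS S.P.good (side_isSide S _) (conv3 S) hh

/-- the two root faces are joined outside -/
theorem dco_r13 (hh : 4 ≤ h) : DCo (EE S h ∪ W0 S h) (fi (r1 S h)) (fi (r3 S h)) := by
  rw [r1_eq, r3_eq, ← WB_empty]
  have hN := near_all (S := S) (h := h) (by omega) (B := ∅) (by simp)
  have h1 := dco_rc S.P.good (side_isSide S 0) (conv0 S) hh hN
    (ot2_notin hh (side_isSide S 0) (conv0 S) (by simp))
  have h3 := dco_rc S.P.good (side_isSide S S.m3) (conv3 S) hh hN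
    (ot2_notin hh (side_isSide S S.m3) (conv3 S) (by simp))
  exact (h1.trans (dco_ccs S.P.good (by omega) hN (side_isSide S 0).2 (side_isSide S S.m3).2)).trans
    h3.symm

/-! ### The wired arcs are joined -/

lemma LY_W (hB : Finset (Cell × ℤ)) {i : ℕ} (hi : S.Wd i) : LY (2 * h) (S.P.side i) ⊆ WB S h hB :=
  fun _ he => mem_union_left _ (mem_W0.2 ⟨i, hi, he⟩)

/-- the arc IV -/
lemma co_IV (hh : 1 ≤ h) (B : Finset (Cell × ℤ)) :
    Co (WB S h B) (rvS h (S.P.side S.m4)) (v1 S h) := by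
  have hN := S.P.hmN
  have h1 := co_arc (P := S.P) (W := WB S h B) hh (a := S.P.m) (b := S.P.N) (by omega)
    fun i h1 h2 => LY_W B (Or.inr ⟨h1, h2⟩)
  have h2 := side_period S.P 0
  rw [Nat.add_zero] at h2
  rw [h2, rvS_four, ← v1_eq] at h1
  exact h1

/-- the arc II -/
lemma co_II (hh : 1 ≤ h) (B : Finset (Cell × ℤ)) :
    Co (WB S h B) (rvS h (S.P.side S.m2)) (v3 S h) := by
  have h23 := S.h23
  rw [v3_eq]
  exact co_arc (P := S.P) (W := WB S h B) hh (a := S.m2) (b := S.m3) (by omega)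
    fun i h1 h2 => LY_W B (Or.inl ⟨h1, h2⟩)

/-- **`W34` joins the arcs II and IV.** -/
theorem co_W34 (hh : 4 ≤ h) : Co (W34 S h) (v1 S h) (v3 S h) := by
  have hN := S.P.hmN
  have h02 := S.h02
  have h23 := S.h23
  have h34 := S.h34
  have h1 := co_band (P := S.P) (W := W34 S h) (h := h) (by omega) (a := S.m3) (b := S.P.m) (by omega)
    (by omega) (prev3 S) (by
      have := S.cvx (S.P.m - 1) (Or.inr (Or.inr (Or.inl (by omega))))
      have e : S.P.m - 1 + 1 = S.P.m := by omega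
      rwa [e] at this)
    (fun i h1 h2 j h3 h4 => BW_Band (B := BIII S) subset_union_right
      (mem_image.2 ⟨i, mem_Ico.2 ⟨h1, h2⟩, rfl⟩) h3 h4)
    (LY_W _ (Or.inl ⟨by omega, by omega⟩)) (LY_W _ (Or.inr ⟨le_rfl, hN⟩))
  rw [v3_eq]
  exact (h1.trans (co_IV (by omega) (BIII S))).symm

/-- **`W12` joins the arcs II and IV.** -/
theorem co_W12 (hh : 4 ≤ h) : Co (W12 S h) (v1 S h) (v3 S h) := by
  have hN := S.P.hmN
  have h02 := S.h02
  have h23 := S.h23
  have h34 := S.h34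
  have hp := side_period S.P
  have h0 : S.P.side S.P.N = ((S.P.side 0).1, (S.P.side 0).2 + 4) := hp 0
  have h1 := co_band (P := S.P) (W := W12 S h) (h := h) (by omega) (a := S.P.N) (b := S.P.N + S.m2)
    (by omega) (by omega) (by
      have := S.cvx (S.P.N - 1) (Or.inr (Or.inr (Or.inr (by omega))))
      have e : S.P.N - 1 + 1 = S.P.N := by omega
      rwa [e] at this) (by
      have h3 := S.cvx (S.m2 - 1) (Or.inl (by omega))
      have e : S.m2 - 1 + 1 = S.m2 := by omega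
      rw [e] at h3
      have e2 : S.P.N + S.m2 - 1 = S.P.N + (S.m2 - 1) := by omega
      rw [e2, hp, hp, h3]
      simp only
      refine Prod.ext rfl ?_
      simp only; ring)
    (fun i h1 h2 j h3 h4 => by
      obtain ⟨i, rfl⟩ := Nat.exists_eq_add_of_le h1
      rw [hp]
      exact BW_four (BW_Band (B := BI S) subset_union_right
        (mem_image.2 ⟨i, mem_range.2 (by omega), rfl⟩) h3 h4))
    (LY_W _ (Or.inr ⟨by unfold Shape.m4; omega, by unfold Shape.N; omega⟩))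
    (by rw [hp, LY_four]; exact LY_W _ (Or.inl ⟨le_rfl, h23⟩))
  rw [h0, hp, rvS_four, rvS_four, ← v1_eq] at h1
  exact h1.trans (co_II (by omega) (BI S))

end Pool.Agent.H33.FM
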