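import Mathlib
import Pool.Agent.H33.FM.Four
import Pool.Agent.H21.FM.Inter

set_option autoImplicit false
open Finset

/-! # `ThreeW` for every shape with four marks -/

namespace Pool.Agent.H33.FM

open Pool.Agent.H75.Perc hiding WL CT hh ph
open Pool.Agent.H75.TwoArm Pool.Agent.H75.Four Pool.Agent.H69.Q1 Pool.Agent.Q1
open Pool.Agent.H5.Q1 (oc vx_oc ty_oc fi_oc oc_congr)
open Pool.Agent.H33.Q1 Pool.Agent.H21.FM

/-- **The wired labels of the three environments**, for every shape and `4 ≤ h`. -/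
theorem threeW (S : Shape) {h : ℕ} (hh : 4 ≤ h) : ThreeW S h (W34 S h) (W12 S h) where
  w0 := wir_W0 (by omega)
  w34 := wir_W34 (by omega)
  w12 := wir_W12 (by omega)
  root0 := ⟨plab_r1 (by omega), low_W0_1 hh⟩
  root34 := ⟨plab_r1 (by omega), low_W34 hh⟩
  root12 := ⟨plab_r3 (by omega), low_W12 hh⟩
  co34 := co_W34 hh
  co12 := co_W12 hh
  dco := dco_r13 hh

/-- the environment -/
noncomputable def envW (S : Shape) (h : ℕ) (W : Finset (ℤ × ℤ)) (r : ℤ × ℤ) (k0 : ℤ)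
    (hW : Wir S h W) (hr : RootOK S h W r) (hk : k0 % 4 = ty r) (hh : 1 ≤ h) : Env :=
  Env.plane (EE S h) W r k0 hr.low.choose
    (fun _ he => ((mem_TL (by omega)).1 he).1) hW.disj hk hr.notMem hr.low.choose_spec.1
    hr.low.choose_spec.2

theorem isEnv_envW (S : Shape) (h : ℕ) (W : Finset (ℤ × ℤ)) (r : ℤ × ℤ) (k0 : ℤ)
    (hW : Wir S h W) (hr : RootOK S h W r) (hk : k0 % 4 = ty r) (hh : 1 ≤ h) :
    IsEnv S h W r k0 (envW S h W r k0 hW hr hk hh) :=
  ⟨M6c.planeEnv_plane hW.odd, rfl, rfl, rfl, rfl⟩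

end Pool.Agent.H33.FM
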