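import Mathlib
import Pool.Agent.H33.Q1.Reroot
import Pool.Agent.Q1.M6a.WClosed
import Pool.Agent.H75.TwoArm.Symm

set_option autoImplicit false
open Finset

/-! # The lattice mirror of a plane environment

Tile frame `a ↦ 2 μ - a`: labels `ml μ`, corners `mc μ`. The path of the mirrored configuration from the
mirrored corner is the mirrored path run backwards. `mirror_incW`: the increments of the mirrored plane
environment (root = mirror of a corner `c1` before the root, all labels between not random) are the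
conjugate increments times a constant unit. -/

namespace Pool.Agent.Q1.M6c

open Pool.Agent.H75.Perc Pool.Agent.H75.TwoArm Pool.Agent.H99.NC Pool.Agent.H69.Q1 Pool.Agent.Q1
open Pool.Agent.H75.TwoArm.StrandAux hiding vx_nxC
open Pool.Agent.H75.TwoArm.SymmAux (pvO pvC pv_eq)

/-- mirror of labels -/
def ml (μ : ℤ) (e : ℤ × ℤ) : ℤ × ℤ := (2 * μ - e.2, 2 * μ - e.1)

/-- mirror of corners -/
def mc (μ : ℤ) (c : ℤ × ℤ) : ℤ × ℤ := (2 * μ + 1 - c.2, 2 * μ + 1 - c.1)

@[simp] lemma ml_ml (μ : ℤ) (e : ℤ × ℤ) : ml μ (ml μ e) = e := by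
  unfold ml; refine Prod.ext ?_ ?_ <;> simp

@[simp] lemma mc_mc (μ : ℤ) (e : ℤ × ℤ) : mc μ (mc μ e) = e := by
  unfold mc; refine Prod.ext ?_ ?_ <;> simp

lemma ml_inj (μ : ℤ) : Function.Injective (ml μ) := fun a b h => by
  rw [← ml_ml μ a, h, ml_ml]

lemma mc_inj (μ : ℤ) : Function.Injective (mc μ) := fun a b h => by
  rw [← mc_mc μ a, h, mc_mc]

lemma mem_ml {μ : ℤ} {w : Finset (ℤ × ℤ)} {e : ℤ × ℤ} : ml μ e ∈ w.image (ml μ) ↔ e ∈ w := by
  rw [mem_image]
  exact ⟨fun ⟨a, h1, h2⟩ => (ml_inj μ h2) ▸ h1, fun h => ⟨e, h, rfl⟩⟩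

lemma ml_odd {μ : ℤ} {e : ℤ × ℤ} (h : (e.1 + e.2) % 2 = 1) :
    ((ml μ e).1 + (ml μ e).2) % 2 = 1 := by
  unfold ml; simp only; omega

lemma vx_mc (μ : ℤ) (c : ℤ × ℤ) : vx (mc μ c) = (μ - (vx c).2, μ - (vx c).1) := by
  unfold vx mc; refine Prod.ext ?_ ?_ <;> simp only <;> omega

lemma fi_mc (μ : ℤ) (c : ℤ × ℤ) : fi (mc μ c) = (μ + 1 - (fi c).2, μ + 1 - (fi c).1) := by
  unfold fi mc; refine Prod.ext ?_ ?_ <;> simp only <;> omega

lemma lab_mc (μ : ℤ) (c : ℤ × ℤ) : lab (mc μ c) = ml μ (plab c) := by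
  obtain ⟨a, b⟩ := c
  unfold lab plab mc ml
  simp only
  split_ifs <;> first | (exfalso; omega) | (refine Prod.ext ?_ ?_ <;> simp only <;> omega)

lemma plab_mc (μ : ℤ) (c : ℤ × ℤ) : plab (mc μ c) = ml μ (lab c) := by
  obtain ⟨a, b⟩ := c
  unfold lab plab mc ml
  simp only
  split_ifs <;> first | (exfalso; omega) | (refine Prod.ext ?_ ?_ <;> simp only <;> omega)

lemma nxO_mc (μ : ℤ) (c : ℤ × ℤ) : nxO (mc μ c) = mc μ (pvO c) := by
  obtain ⟨a, b⟩ := c
  unfold nxO pvO mc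
  simp only
  split_ifs <;> first | (exfalso; omega) | (refine Prod.ext ?_ ?_ <;> simp only <;> omega)

lemma nxC_mc (μ : ℤ) (c : ℤ × ℤ) : nxC (mc μ c) = mc μ (pvC c) := by
  obtain ⟨a, b⟩ := c
  unfold nxC pvC mc
  simp only
  split_ifs <;> first | (exfalso; omega) | (refine Prod.ext ?_ ?_ <;> simp only <;> omega)

lemma nx_mc (μ : ℤ) (w : Finset (ℤ × ℤ)) (c : ℤ × ℤ) :
    nx (w.image (ml μ)) (mc μ c) = mc μ (pv w c) := by
  unfold nx
  rw [lab_mc, nxO_mc, nxC_mc, pv_eq]
  by_cases h : plab c ∈ w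
  · rw [if_pos h, if_pos (mem_ml.2 h)]
  · rw [if_neg h, if_neg (fun h' => h (mem_ml.1 h'))]

lemma nx_mc_nx (μ : ℤ) (w : Finset (ℤ × ℤ)) (c : ℤ × ℤ) :
    nx (w.image (ml μ)) (mc μ (nx w c)) = mc μ c := by rw [nx_mc, pv_nx]

lemma del_mc_nx (μ : ℤ) (w : Finset (ℤ × ℤ)) (c : ℤ × ℤ) :
    del (w.image (ml μ)) (mc μ (nx w c)) = del w c := by
  unfold del
  rw [lab_mc, plab_nx]
  by_cases h : lab c ∈ w
  · rw [if_pos h, if_pos (mem_ml.2 h)]
  · rw [if_neg h, if_neg (fun h' => h (mem_ml.1 h'))]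

lemma iter_mc (μ : ℤ) (w : Finset (ℤ × ℤ)) (c : ℤ × ℤ) (i : ℕ) :
    (nx (w.image (ml μ)))^[i] (mc μ ((nx w)^[i] c)) = mc μ c := by
  induction i generalizing c with
  | zero => rfl
  | succ i ih =>
    rw [Function.iterate_succ_apply', Function.iterate_succ_apply, ih, nx_mc_nx]

lemma KK_base {α : Type*} (f : α → α) (δ : α → ℤ) (c : α) (k : ℤ) (i : ℕ) :
    KK f δ c k i = k + KK f δ c 0 i := by
  induction i with
  | zero => rw [KK_zero, KK_zero]; ring
  | succ i ih => rw [KK_succ, KK_succ, ih]; ring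

lemma KK_first {α : Type*} (f : α → α) (δ : α → ℤ) (c : α) (i : ℕ) :
    KK f δ c 0 (i + 1) = δ c + KK f δ (f c) 0 i := by
  have h1 := KK_shift f δ c 0 1 i
  have h2 : KK f δ c 0 1 = δ c := by rw [KK_succ, KK_zero]; simp
  rw [h2, KK_base] at h1
  rw [Nat.add_comm i 1, ← h1]
  rfl

lemma KK_mc (μ : ℤ) (w : Finset (ℤ × ℤ)) (c : ℤ × ℤ) (k : ℤ) (i : ℕ) :
    KK (nx (w.image (ml μ))) (del (w.image (ml μ))) (mc μ ((nx w)^[i] c)) k i =
      k + KK (nx w) (del w) c 0 i := by
  induction i generalizing c with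
  | zero => rw [KK_zero, KK_zero]; ring
  | succ i ih =>
    rw [KK_succ, KK_first, Function.iterate_succ_apply, ih, iter_mc, del_mc_nx]
    ring

/-- mirror of a loop -/
lemma orb_mc (μ : ℤ) {w : Finset (ℤ × ℤ)} {c : ℤ × ℤ} {L : ℕ} (h : Orb (nx w) c L) :
    Orb (nx (w.image (ml μ))) (mc μ c) L := by
  have key : ∀ i ≤ L, (nx (w.image (ml μ)))^[i] (mc μ c) = mc μ ((nx w)^[L - i] c) := by
    intro i hi
    have h1 := iter_mc μ w ((nx w)^[L - i] c) i
    rw [← Function.iterate_add_apply, Nat.add_sub_cancel' hi, h.per] at h1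
    exact h1
  refine ⟨h.pos, ?_, ?_⟩
  · rw [key L le_rfl, Nat.sub_self]; rfl
  · intro i j hij hj e
    rw [key i (by omega), key j hj.le] at e
    have e2 := mc_inj μ e
    by_cases hi : i = 0
    · subst hi
      rw [Nat.sub_zero, h.per] at e2
      exact h.inj 0 (L - j) (by omega) (by omega) e2
    · exact h.inj (L - j) (L - i) (by omega) (by omega) e2.symm

/-- the loop through a corner before the root -/
lemma orb_before {α : Type*} {f : α → α} (hf : Function.Injective f) {c0 c1 : α} {L m : ℕ}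
    (h : Orb f c0 L) (hm : f^[m] c1 = c0) : c1 = f^[L * m - m] c0 ∧ Orb f c1 L := by
  have hL := h.pos
  have hLm : m ≤ L * m := Nat.le_mul_of_pos_left m hL
  have hper : ∀ q : ℕ, f^[L * q] c0 = c0 := by
    intro q
    induction q with
    | zero => simp
    | succ q ih => rw [Nat.mul_succ, Function.iterate_add_apply, h.per, ih]
  have e : c1 = f^[L * m - m] c0 := by
    apply hf.iterate m
    rw [hm, ← Function.iterate_add_apply, Nat.add_sub_cancel' hLm, hper]
  refine ⟨e, ?_⟩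
  rw [e]
  exact Orb.shift hf h _

lemma conj_ph (k : ℤ) : (starRingEnd ℂ) (ph k) = ph (-k) := by
  have h1 : ph (-k) * ph k = 1 := by rw [← ph_add]; simp [ph_zero]
  have h2 : (starRingEnd ℂ) (ph k) * ph k = 1 := by
    rw [← Complex.normSq_eq_conj_mul_self, Complex.normSq_eq_norm_sq, ph_norm]; norm_num
  exact mul_right_cancel₀ (ph_ne k) (h2.trans h1.symm)

variable {X X' : Env} {W : Finset (ℤ × ℤ)} {μ : ℤ} {c1 : ℤ × ℤ} {m : ℕ}

/-- **The mirrored increments, one configuration.** -/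
theorem mirror_incO (h : PlaneEnv X W) (h' : PlaneEnv X' (W.image (ml μ)))
    (hE : X'.E = X.E.image (ml μ)) (hp : ∀ i < m, lab ((nx W)^[i] c1) ∉ X.E)
    (hc : (nx W)^[m] c1 = X.c0) (h0 : 0 < m ∨ (lab X.c0 ∉ X.E ∧ plab X.c0 ∉ X.E))
    (hc' : X'.c0 = mc μ c1) {ω : Finset (ℤ × ℤ)} (hω : ω ⊆ X.E) {c : ℤ × ℤ}
    (hcE : lab c ∈ X.E ∨ plab c ∈ X.E) :
    X'.incO (ω.image (ml μ)) (mc μ c) =
      ph (X.k0 + X'.k0 + X.T - KK (nx W) (del W) c1 0 m) * (starRingEnd ℂ) (X.incO ω c) := by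
  set w := ω ∪ W with hw
  set f := nx w with hf
  set δ := del w with hδ
  set L := X.len ω with hL
  have hfi : Function.Injective f := nx_injective w
  have hO : Orb f X.c0 L := h.orb hω
  have hω' : ω.image (ml μ) ⊆ X'.E := by rw [hE]; exact image_subset_image hω
  have hw' : ω.image (ml μ) ∪ W.image (ml μ) = w.image (ml μ) := (image_union _ _).symm
  have hit := iter_off (c0 := c1) hω hp
  have hm : f^[m] c1 = X.c0 := by rw [← hc]; exact hit m le_rfl
  obtain ⟨he1, hO1⟩ := orb_before hfi hO hm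
  have hO' : Orb (nx (w.image (ml μ))) (mc μ c1) L := orb_mc μ hO1
  have hlen : X'.len (ω.image (ml μ)) = L := by
    have h1 := h'.orb hω'
    rw [hw', hc'] at h1
    exact h1.unique hO'
  have hz : ∀ i, X.z ω i = f^[i] X.c0 := h.zz ω hω
  have hK : ∀ i, X.K ω i = KK f δ X.c0 X.k0 i := h.KK' ω hω
  have hz' : ∀ i, X'.z (ω.image (ml μ)) i = (nx (w.image (ml μ)))^[i] (mc μ c1) := by
    intro i; rw [h'.zz _ hω', hw', hc']
  have hK' : ∀ i, X'.K (ω.image (ml μ)) i =
      KK (nx (w.image (ml μ))) (del (w.image (ml μ))) (mc μ c1) X'.k0 i := by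
    intro i; rw [h'.KK' _ hω', hw', hc']
  -- the labels of the piece before the root
  have hpl : ∀ i, 0 < i → i < m → ¬ (lab (f^[i] c1) ∈ X.E ∨ plab (f^[i] c1) ∈ X.E) := by
    intro i hi1 hi2 h3
    rcases h3 with h3 | h3
    · rw [hit i hi2.le] at h3; exact hp i hi2 h3
    · obtain ⟨i, rfl⟩ : ∃ i', i = i' + 1 := ⟨i - 1, by omega⟩
      rw [Function.iterate_succ_apply', plab_nx, hit i (by omega)] at h3
      exact hp i (by omega) h3
  by_cases hex : ∃ j < L, f^[j] X.c0 = c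
  · obtain ⟨j, hj, hjc⟩ := hex
    have hjm : j + m ≤ L := by
      by_contra hcon
      push Not at hcon
      have e1 : c = f^[j + m - L] c1 := by
        rw [← hjc, ← hm, ← Function.iterate_add_apply]
        have e2 : j + m = (j + m - L) + L := by omega
        conv_lhs => rw [e2]
        rw [Function.iterate_add_apply, hO1.per]
      apply hpl (j + m - L) (by omega) (by omega)
      rw [← e1]; exact hcE
    have hpos : 0 < j + m := by
      by_contra hcon
      have hj0 : j = 0 := by omega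
      have hm0 : m = 0 := by omega
      subst hj0
      rcases h0 with h0 | h0
      · omega
      · rw [← hjc] at hcE
        rcases hcE with h3 | h3
        · exact h0.1 h3
        · exact h0.2 h3
    set i := L - j - m with hi
    have hic : f^[i] c = c1 := by
      apply hfi.iterate m
      rw [hm, ← Function.iterate_add_apply, ← hjc, ← Function.iterate_add_apply]
      have e2 : m + i + j = L := by omega
      rw [e2, hO.per]
    have hzi : X'.z (ω.image (ml μ)) i = mc μ c := by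
      rw [hz', ← hic]; exact iter_mc μ w c i
    rw [Env.incO_of hω' (by rw [hlen]; omega) hzi, Env.incO_of hω (i := j) hj (by rw [hz]; exact hjc),
      conj_ph, ← ph_add]
    congr 1
    have e3 : X'.K (ω.image (ml μ)) i = X'.k0 + KK f δ c 0 i := by
      rw [hK', ← hic]; exact KK_mc μ w c _ i
    have e4 : KK f δ X.c0 X.k0 (j + i) = X.K ω j + KK f δ c 0 i := by
      rw [← KK_shift f δ X.c0 X.k0 j i, hjc, ← hK, KK_base]
    have e5 : KK f δ X.c0 X.k0 (j + i + m) = KK f δ X.c0 X.k0 (j + i) + KK f δ c1 0 m := by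
      rw [← KK_shift f δ X.c0 X.k0 (j + i) m, KK_base]
      have e6 : f^[j + i] X.c0 = c1 := by
        rw [Nat.add_comm, Function.iterate_add_apply, hjc, hic]
      rw [e6]
    have e7 : KK f δ X.c0 X.k0 (j + i + m) = X.k0 + X.T := by
      have e8 : j + i + m = L := by omega
      rw [e8, ← hK]; exact Env.K_len hω
    have e9 : KK f δ c1 0 m = KK (nx W) (del W) c1 0 m := KK_off (c0 := c1) hω 0 hp m le_rfl
    rw [e3]
    linarith
  · push Not at hex
    have hz0 : X.incO ω c = 0 := Env.incO_zero (fun i hi => by rw [hz]; exact hex i hi)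
    rw [hz0, map_zero, mul_zero]
    apply Env.incO_zero
    intro i _ e
    rw [hz'] at e
    have hL0 := hO1.pos
    have hLi : i ≤ L * i := Nat.le_mul_of_pos_left i hL0
    have hper : ∀ q : ℕ, f^[L * q] c1 = c1 := by
      intro q
      induction q with
      | zero => simp
      | succ q ih => rw [Nat.mul_succ, Function.iterate_add_apply, hO1.per, ih]
    have e1 : (nx (w.image (ml μ)))^[i] (mc μ c1) = mc μ (f^[L * i - i] c1) := by
      have h1 := iter_mc μ w (f^[L * i - i] c1) i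
      rw [← Function.iterate_add_apply, Nat.add_sub_cancel' hLi, hper] at h1
      exact h1
    rw [e1] at e
    have e2 := mc_inj μ e
    rw [he1, ← Function.iterate_add_apply] at e2
    have e3 := hO.mod (L * i - i + (L * m - m))
    rw [e2] at e3
    exact hex _ (Nat.mod_lt _ hO.pos) e3

lemma Ec_image {α β : Type*} [DecidableEq α] [DecidableEq β] {σ : α → β} (hσ : Function.Injective σ)
    (q : β → ℂ) (E : Finset α) (F : Finset β → ℂ) :
    Ec q (E.image σ) F = Ec (fun e => q (σ e)) E (fun ω => F (ω.image σ)) := by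
  induction E using Finset.induction_on generalizing F with
  | empty => simp
  | insert e E he ih =>
    have he' : σ e ∉ E.image σ := by
      rw [mem_image]; rintro ⟨a, h1, h2⟩; exact he (hσ h2 ▸ h1)
    rw [image_insert, Ec_insert _ he', Ec_insert _ he, ih, ih]
    simp only [image_insert]

lemma conj_Ec {α : Type*} [DecidableEq α] (q : α → ℂ) (E : Finset α) (F : Finset α → ℂ) :
    (starRingEnd ℂ) (Ec q E F) =
      Ec (fun e => (starRingEnd ℂ) (q e)) E (fun ω => (starRingEnd ℂ) (F ω)) := by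
  induction E using Finset.induction_on generalizing F with
  | empty => simp
  | insert e E he ih =>
    rw [Ec_insert _ he, Ec_insert _ he, map_add, map_mul, map_mul, ih, ih, map_sub, map_one]

lemma Ec_mulL {α : Type*} [DecidableEq α] (q : α → ℂ) (E : Finset α) (a : ℂ) (F : Finset α → ℂ) :
    Ec q E (fun ω => a * F ω) = a * Ec q E F := by
  unfold Ec
  rw [mul_sum]
  exact sum_congr rfl fun ω _ => by ring

/-- **The mirrored increments, any weights.** -/
theorem mirror_incW (h : PlaneEnv X W) (h' : PlaneEnv X' (W.image (ml μ)))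
    (hE : X'.E = X.E.image (ml μ)) (hp : ∀ i < m, lab ((nx W)^[i] c1) ∉ X.E)
    (hc : (nx W)^[m] c1 = X.c0) (h0 : 0 < m ∨ (lab X.c0 ∉ X.E ∧ plab X.c0 ∉ X.E))
    (hc' : X'.c0 = mc μ c1) (q : ℤ × ℤ → ℂ) {c : ℤ × ℤ} (hcE : lab c ∈ X.E ∨ plab c ∈ X.E) :
    X'.incW q (mc μ c) = ph (X.k0 + X'.k0 + X.T - KK (nx W) (del W) c1 0 m) *
      (starRingEnd ℂ) (X.incW (fun e => (starRingEnd ℂ) (q (ml μ e))) c) := by
  unfold Env.incW
  rw [hE, Ec_image (ml_inj μ), conj_Ec, ← Ec_mulL]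
  simp only [Complex.conj_conj]
  exact Ec_congr fun ω hω => mirror_incO h h' hE hp hc h0 hc' hω hcE

/-- **The mirrored increments**, weights `1/2`. -/
theorem mirror_inc (h : PlaneEnv X W) (h' : PlaneEnv X' (W.image (ml μ)))
    (hE : X'.E = X.E.image (ml μ)) (hp : ∀ i < m, lab ((nx W)^[i] c1) ∉ X.E)
    (hc : (nx W)^[m] c1 = X.c0) (h0 : 0 < m ∨ (lab X.c0 ∉ X.E ∧ plab X.c0 ∉ X.E))
    (hc' : X'.c0 = mc μ c1) {c : ℤ × ℤ} (hcE : lab c ∈ X.E ∨ plab c ∈ X.E) :
    X'.inc (mc μ c) = ph (X.k0 + X'.k0 + X.T - KK (nx W) (del W) c1 0 m) *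
      (starRingEnd ℂ) (X.inc c) := by
  have h1 := mirror_incW h h' hE hp hc h0 hc' (fun _ => (1 / 2 : ℂ)) hcE
  unfold Env.incW at h1
  rw [Env.inc_eq, Env.inc_eq, h1]
  congr 3
  funext e
  rw [map_div₀, map_one, map_ofNat]

end Pool.Agent.Q1.M6c
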