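import Mathlib
import Pool.Agent.H33.Q1.Layers
import Pool.Agent.Q1.M6c.BoxTop

set_option autoImplicit false
open Finset

/-! # The tiles of a polyomino are connected through tile edges -/

namespace Pool.Agent.H33.Q1

open Pool.Agent.H75.Perc hiding WL CT hh
open Pool.Agent.H75.TwoArm Pool.Agent.H75.Four Pool.Agent.H69.Q1 Pool.Agent.Q1
open Pool.Agent.Q1.M4 (Cell Good IsSide nextSide tail head PType Adj4 Conn4)
open Pool.Agent.Q1.Env (TConn TAdj)

lemma tadj_lt (p : ℤ × ℤ) (k : ℤ) : TAdj (lt p) (lt (p + dir k)) := by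
  have ho := lt_odd p
  have e : lt p = ((lt p).1, (lt p).2) := rfl
  rcases dir_cases k with ⟨-, h⟩ | ⟨-, h⟩ | ⟨-, h⟩ | ⟨-, h⟩ <;> rw [h]
  · have h1 := M6c.tadj_pp ho
    have e2 : lt (p + (1, 0)) = ((lt p).1 + 1, (lt p).2 + 1) := by
      unfold lt; refine Prod.ext ?_ ?_ <;> simp only [Prod.fst_add, Prod.snd_add] <;> ring
    rw [e2]; exact h1
  · have h1 := M6c.tadj_mp ho
    have e2 : lt (p + (0, 1)) = ((lt p).1 - 1, (lt p).2 + 1) := by
      unfold lt; refine Prod.ext ?_ ?_ <;> simp only [Prod.fst_add, Prod.snd_add] <;> ring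
    rw [e2]; exact h1
  · have h1 := M6c.tadj_mm ho
    have e2 : lt (p + (-1, 0)) = ((lt p).1 - 1, (lt p).2 - 1) := by
      unfold lt; refine Prod.ext ?_ ?_ <;> simp only [Prod.fst_add, Prod.snd_add] <;> ring
    rw [e2]; exact h1
  · have h1 := M6c.tadj_pm ho
    have e2 : lt (p + (0, -1)) = ((lt p).1 + 1, (lt p).2 - 1) := by
      unfold lt; refine Prod.ext ?_ ?_ <;> simp only [Prod.fst_add, Prod.snd_add] <;> ring
    rw [e2]; exact h1

/-- tiles of `A` joined through tile edges -/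
abbrev TR (A : Finset (ℤ × ℤ)) (p q : ℤ × ℤ) : Prop :=
  Relation.ReflTransGen (fun x y => TAdj x y ∧ y ∈ A) (lt p) (lt q)

lemma trun {A : Finset (ℤ × ℤ)} {p : ℤ × ℤ} {k : ℤ} (m : ℕ)
    (h : ∀ i : ℤ, 0 ≤ i → i ≤ m → lt (p + (i * (dir k).1, i * (dir k).2)) ∈ A) :
    TR A p (p + ((m : ℤ) * (dir k).1, (m : ℤ) * (dir k).2)) := by
  induction m with
  | zero =>
    have : p + (((0 : ℕ) : ℤ) * (dir k).1, ((0 : ℕ) : ℤ) * (dir k).2) = p := by
      refine Prod.ext ?_ ?_ <;> simp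
    rw [this]
  | succ m ih =>
    have e : p + (((m + 1 : ℕ) : ℤ) * (dir k).1, ((m + 1 : ℕ) : ℤ) * (dir k).2) =
        p + ((m : ℤ) * (dir k).1, (m : ℤ) * (dir k).2) + dir k := by
      refine Prod.ext ?_ ?_ <;> simp only [Prod.fst_add, Prod.snd_add] <;> push_cast <;> ring
    have h2 := h ((m + 1 : ℕ) : ℤ) (by positivity) le_rfl
    rw [e] at h2 ⊢
    exact (ih fun i h1 h2 => h i h1 (by push_cast; omega)).tail ⟨tadj_lt _ k, h2⟩

variable {Q : Finset Cell} {n : ℤ}

lemma tcell (hn : 0 < n) {c : Cell} (hc : c ∈ Q) {p q : ℤ × ℤ} (hp : ct n p = c) (hq : ct n q = c) :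
    TR (TL Q n) p q := by
  rw [ct_eq hn] at hp hq
  have key : ∀ x : ℤ × ℤ, ct n x = c → lt x ∈ TL Q n := fun x hx =>
    (mem_TL hn).2 ⟨lt_odd x, by rw [tt_lt, hx]; exact hc⟩
  have hx : TR (TL Q n) p (q.1, p.2) := by
    by_cases h : p.1 ≤ q.1
    · have h1 := trun (A := TL Q n) (p := p) (k := 0) (q.1 - p.1).toNat fun i hi hi2 =>
        key _ ((ct_eq hn).2 (by
          have : dir 0 = (1, 0) := rfl
          rw [this]; simp only [Prod.fst_add, Prod.snd_add]; omega))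
      have e : p + ((((q.1 - p.1).toNat : ℕ) : ℤ) * (dir 0).1, (((q.1 - p.1).toNat : ℕ) : ℤ) *
          (dir 0).2) = (q.1, p.2) := by
        have : dir 0 = (1, 0) := rfl
        rw [this]; refine Prod.ext ?_ ?_ <;> simp only [Prod.fst_add, Prod.snd_add] <;> omega
      rwa [e] at h1
    · have h1 := trun (A := TL Q n) (p := p) (k := 2) (p.1 - q.1).toNat fun i hi hi2 =>
        key _ ((ct_eq hn).2 (by
          have : dir 2 = (-1, 0) := rfl
          rw [this]; simp only [Prod.fst_add, Prod.snd_add]; omega))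
      have e : p + ((((p.1 - q.1).toNat : ℕ) : ℤ) * (dir 2).1, (((p.1 - q.1).toNat : ℕ) : ℤ) *
          (dir 2).2) = (q.1, p.2) := by
        have : dir 2 = (-1, 0) := rfl
        rw [this]; refine Prod.ext ?_ ?_ <;> simp only [Prod.fst_add, Prod.snd_add] <;> omega
      rwa [e] at h1
  refine hx.trans ?_
  by_cases h : p.2 ≤ q.2
  · have h1 := trun (A := TL Q n) (p := (q.1, p.2)) (k := 1) (q.2 - p.2).toNat fun i hi hi2 =>
      key _ ((ct_eq hn).2 (by
        have : dir 1 = (0, 1) := rfl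
        rw [this]; simp only [Prod.fst_add, Prod.snd_add]; omega))
    have e : (q.1, p.2) + ((((q.2 - p.2).toNat : ℕ) : ℤ) * (dir 1).1, (((q.2 - p.2).toNat : ℕ) : ℤ) *
        (dir 1).2) = q := by
      have : dir 1 = (0, 1) := rfl
      rw [this]; refine Prod.ext ?_ ?_ <;> simp only [Prod.fst_add, Prod.snd_add] <;> omega
    rwa [e] at h1
  · have h1 := trun (A := TL Q n) (p := (q.1, p.2)) (k := 3) (p.2 - q.2).toNat fun i hi hi2 =>
      key _ ((ct_eq hn).2 (by
        have : dir 3 = (0, -1) := rfl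
        rw [this]; simp only [Prod.fst_add, Prod.snd_add]; omega))
    have e : (q.1, p.2) + ((((p.2 - q.2).toNat : ℕ) : ℤ) * (dir 3).1, (((p.2 - q.2).toNat : ℕ) : ℤ) *
        (dir 3).2) = q := by
      have : dir 3 = (0, -1) := rfl
      rw [this]; refine Prod.ext ?_ ?_ <;> simp only [Prod.fst_add, Prod.snd_add] <;> omega
    rwa [e] at h1

/-- **The tiles of a polyomino connected through sides are connected.** -/
theorem tConn_TL (hQ : Conn4 (Q : Set Cell)) (hn : 0 < n) : TConn (TL Q n) := by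
  intro a ha b hb
  obtain ⟨oa, ca⟩ := (mem_TL hn).1 ha
  obtain ⟨ob, cb⟩ := (mem_TL hn).1 hb
  have hab := hQ _ (mem_coe.2 ca) _ (mem_coe.2 cb)
  have key : ∀ d, Relation.ReflTransGen (fun a b => Adj4 a b ∧ b ∈ (Q : Set Cell)) (ct n (tt a)) d →
      d ∈ Q ∧ ∀ q, ct n q = d → TR (TL Q n) (tt a) q := by
    intro d hd
    induction hd with
    | refl => exact ⟨ca, fun q hq => tcell hn ca rfl hq⟩
    | @tail x y _ hxy ih =>
      obtain ⟨hx, ih⟩ := ih
      obtain ⟨⟨k, rfl⟩, hy⟩ := hxy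
      refine ⟨hy, fun q hq => ?_⟩
      -- two neighbouring tiles
      obtain ⟨p, hp1, hp2⟩ : ∃ p, ct n p = x ∧ ct n (p + dir k) = x + dir k := by
        rcases dir_cases k with ⟨-, e⟩ | ⟨-, e⟩ | ⟨-, e⟩ | ⟨-, e⟩ <;> rw [e]
        · refine ⟨(x.1 * n + n - 1, x.2 * n), (ct_eq hn).2 ?_, (ct_eq hn).2 ?_⟩ <;>
            simp only [Prod.fst_add, Prod.snd_add] <;> constructor <;> constructor <;> nlinarith
        · refine ⟨(x.1 * n, x.2 * n + n - 1), (ct_eq hn).2 ?_, (ct_eq hn).2 ?_⟩ <;>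
            simp only [Prod.fst_add, Prod.snd_add] <;> constructor <;> constructor <;> nlinarith
        · refine ⟨(x.1 * n, x.2 * n), (ct_eq hn).2 ?_, (ct_eq hn).2 ?_⟩ <;>
            simp only [Prod.fst_add, Prod.snd_add] <;> constructor <;> constructor <;> nlinarith
        · refine ⟨(x.1 * n, x.2 * n), (ct_eq hn).2 ?_, (ct_eq hn).2 ?_⟩ <;>
            simp only [Prod.fst_add, Prod.snd_add] <;> constructor <;> constructor <;> nlinarith
      have h1 := ih p hp1
      have h2 : TR (TL Q n) (tt a) (p + dir k) :=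
        h1.tail ⟨tadj_lt p k, (mem_TL hn).2 ⟨lt_odd _, by rw [tt_lt, hp2]; exact hy⟩⟩
      exact h2.trans (tcell hn hy hp2 hq)
  have h1 := (key _ hab).2 (tt b) rfl
  unfold TR at h1
  rwa [lt_tt oa, lt_tt ob] at h1

end Pool.Agent.H33.Q1
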