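import Mathlib
import Pool.Agent.H21.FM.HugP
import Pool.Agent.H21.FM.Types
import Pool.Agent.H33.Q1.Good
import Pool.Agent.H33.FM.TConnTL
import Pool.Agent.H33.FM.Three
import Pool.Agent.Q1.M6c.PlaneDob
import Pool.Agent.Q1.Rigid

set_option autoImplicit false
open Finset

/-! # Wired labels of the same type give the same increments

`same_type`: two plane environments with the random labels `EE S h` and admissible wired labels `W`, `W'`
of the same type (`TypX` or `TypY`), whose root corners lead to the same entry corner, have the same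
increments up to a unit. -/

namespace Pool.Agent.H33.FM

open Pool.Agent.H75.Perc hiding WL CT hh ph cc
open Pool.Agent.H75.TwoArm Pool.Agent.H75.Four Pool.Agent.H69.Q1 Pool.Agent.Q1
open Pool.Agent.H5.Q1 (oc vx_oc ty_oc fi_oc oc_congr nxC_oc)
open Pool.Agent.Q1.M4 (Cell Good IsSide nextSide tail head PType Adj4 Conn4)
open Pool.Agent.H33.Q1 Pool.Agent.H21.FM
open Pool.Agent.Q1.Env (TConn TAdj ArcN SamePat)
open Pool.Agent.Q1.M6c (PlaneEnv co_nx_step dco_nx_step entrance_unique)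

/-! ### From `PlaneEnv` to `Env.plane` -/

/-- the standard plane environment with the same data -/
noncomputable def stdEnv (X : Env) (W : Finset (ℤ × ℤ)) (h : PlaneEnv X W) : Env :=
  Env.plane X.E W X.c0 X.k0 h.out.choose X.odd h.disj X.hk0 Env.plab_root h.out.choose_spec.1
    h.out.choose_spec.2

lemma stdEnv_inc {X : Env} {W : Finset (ℤ × ℤ)} (h : PlaneEnv X W) (c : ℤ × ℤ) :
    (stdEnv X W h).inc c = X.inc c := by
  refine Env.inc_congr (X := X) (Y := stdEnv X W h) rfl (fun ω hω c => ?_) c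
  have hY : PlaneEnv (stdEnv X W h) W := M6c.planeEnv_plane h.oddW
  refine Env.incO_congr ?_ ?_ ?_ c
  · have h1 := (h.orb hω).minimalPeriod
    have h2 := (hY.orb (ω := ω) hω).minimalPeriod
    rw [← h1, ← h2]; rfl
  · intro i
    rw [h.zz ω hω, hY.zz ω hω]; rfl
  · intro i
    rw [h.KK' ω hω, hY.KK' ω hω]; rfl

/-! ### The same arcs and the same start give the same pattern -/

section pat

variable {E W : Finset (ℤ × ℤ)} {c0 : ℤ × ℤ} {k0 : ℤ} {g : ℤ × ℤ}
    {hE : ∀ e ∈ E, (e.1 + e.2) % 2 = 1} {hd : Disjoint E W} {hk : k0 % 4 = ty c0}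
    {hroot : plab c0 ∉ E} {hg : DCo (E ∪ W) (fi c0) g}
    {hlow : ∀ v, Co (E ∪ W) (vx c0) v → g.2 < v.2}

lemma plane_start {c : ℤ × ℤ} : (Env.plane E W c0 k0 g hE hd hk hroot hg hlow).Start c ↔
    Arc E W c0 c := by
  constructor
  · rintro ⟨n, h1⟩
    exact ⟨n, h1.free, h1.last, h1.mem⟩
  · rintro ⟨n, h1, h2, h3⟩
    exact ⟨n, ⟨h2, h3, h1⟩⟩

lemma plane_arc {x c : ℤ × ℤ} (hx : plab x ∈ E) :
    (Env.plane E W c0 k0 g hE hd hk hroot hg hlow).Arc x c ↔ Arc E W x c ∧ ¬ Arc E W c0 c := by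
  constructor
  · rintro ⟨n, h1, h2⟩
    refine ⟨⟨n, h1.free, h1.last, h1.mem⟩, ?_⟩
    rintro ⟨m, k1, k2, k3⟩
    have hl : (nx W)^[n] x = c := h1.last
    have hinj := nx_injective W
    rcases Nat.lt_or_ge n m with h3 | h3
    · -- the root is before `x`
      have e : m = n + (m - n) := by omega
      rw [e, Function.iterate_add_apply, ← hl] at k2
      have h4 := (hinj.iterate n) k2
      obtain ⟨t, ht⟩ : ∃ t, m - n = t + 1 := ⟨m - n - 1, by omega⟩
      rw [ht, Function.iterate_succ_apply'] at h4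
      apply k1 t (by omega)
      rw [← plab_nx W, h4]; exact hx
    · have e : n = m + (n - m) := by omega
      rw [e, Function.iterate_add_apply, ← k2] at hl
      have h4 := (hinj.iterate m) hl
      exact h2 (n - m) (by omega) h4
  · rintro ⟨⟨n, h1, h2, h3⟩, h4⟩
    refine ⟨n, ⟨h2, h3, h1⟩, fun k hk he => h4 ⟨n - k, ?_, ?_, h3⟩⟩
    · intro j hj
      have he' : (nx W)^[k] x = c0 := he
      rw [← he', ← Function.iterate_add_apply]
      exact h1 _ (by omega)
    · have he' : (nx W)^[k] x = c0 := he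
      rw [← he', ← Function.iterate_add_apply, show n - k + k = n by omega]
      exact h2

end pat

/-- the entrance from a root corner -/
theorem arc_root {E W : Finset (ℤ × ℤ)} (hodd : ∀ e ∈ E, (e.1 + e.2) % 2 = 1) (hconn : TConn E)
    (hd : Disjoint W E) {c0 c : ℤ × ℤ} (h0 : plab c0 ∉ E) (hc : lab c ∈ E) (hc' : plab c ∉ E)
    (hco : Co W (vx c0) (vx c)) (hdco : DCo (E ∪ W) (fi c0) (fi c)) : Arc E W c0 c := by
  classical
  obtain ⟨F, hF⟩ := hdco.anti subset_union_right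
  obtain ⟨n0, hn0⟩ := inOrb_of_co W hco hF
  have hex : ∃ n, lab ((nx W)^[n] c0) ∈ E := ⟨n0, by rw [hn0]; exact hc⟩
  set n := Nat.find hex with hn
  have hz : lab ((nx W)^[n] c0) ∈ E := Nat.find_spec hex
  have hlt : ∀ i < n, lab ((nx W)^[i] c0) ∉ E := fun i hi => Nat.find_min hex hi
  have hcoz : ∀ i ≤ n, Co W (vx c0) (vx ((nx W)^[i] c0)) ∧
      DCo (E ∪ W) (fi c0) (fi ((nx W)^[i] c0)) := by
    intro i
    induction i with
    | zero => intro _; exact ⟨Co.refl _ _, DCo.refl _ _⟩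
    | succ i ih =>
      intro hi
      obtain ⟨h1, h2⟩ := ih (by omega)
      rw [Function.iterate_succ_apply']
      refine ⟨h1.trans (co_nx_step fun hl => hl), h2.trans (dco_nx_step fun hl => ?_)⟩
      rw [mem_union, not_or]
      exact ⟨hlt i (by omega), hl⟩
  have hpl : plab ((nx W)^[n] c0) ∉ E := by
    rcases Nat.eq_zero_or_pos n with h1 | h1
    · rw [h1]; exact h0
    · obtain ⟨m, hm⟩ : ∃ m, n = m + 1 := ⟨n - 1, by omega⟩
      rw [hm, Function.iterate_succ_apply', plab_nx]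
      exact hlt m (by omega)
  have heq := entrance_unique hconn hodd hd hz hpl hc hc'
    ((hcoz n le_rfl).1.symm.trans hco) (by rw [union_comm]; exact (hcoz n le_rfl).2.symm.trans hdco)
  exact ⟨n, hlt, heq, hc⟩

variable {S : Shape} {h : ℕ} {W W' : Finset (ℤ × ℤ)}

/-! ### Arcs of admissible wired labels -/

lemma outT_arc {e c : ℤ × ℤ} {o : ℕ} {d : ℤ} (hh : 0 < h) (hO : OutT S h W e o c d) :
    Arc (EE S h) W e c := by
  have h1 := (hO ∅ (empty_subset _)).1
  rw [empty_union] at h1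
  refine ⟨o, h1.out, h1.fin, ?_⟩
  rcases h1.tgt with h2 | h2 <;> rw [h2]
  · exact lab_c1 hh
  · exact lab_c3 hh

/-- exits are common corners or marks -/
lemma exit_cases (hh : 0 < h) (hW : Wir S h W) {y : ℤ × ℤ} (hy : plab y ∈ EE S h) :
    CC S h y ∨ y = e2 S h ∨ y = e4 S h := by
  have h1 : nx (∅ ∪ W) (pv (∅ ∪ W) y) = y := nx_pv _ _
  have h2 : CC S h (pv (∅ ∪ W) y) := Or.inl (by rw [lab_pv]; exact hy)
  have h3 := h2.next hh (empty_subset _) hW
  rw [h1] at h3
  exact h3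

/-- arcs from common corners do not depend on the wired labels -/
lemma arc_CC (hh : 0 < h) (hW : Wir S h W) (hW' : Wir S h W') {y c : ℤ × ℤ} (hy : CC S h y)
    (ha : Arc (EE S h) W' y c) : Arc (EE S h) W y c := by
  obtain ⟨n, h1, h2, h3⟩ := ha
  have key : ∀ j ≤ n, CC S h ((nx W')^[j] y) ∧ (nx W)^[j] y = (nx W')^[j] y := by
    intro j
    induction j with
    | zero => intro _; exact ⟨hy, rfl⟩
    | succ j ih =>
      intro hj
      obtain ⟨k1, k2⟩ := ih (by omega)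
      have h4 := k1.next hh (empty_subset _) hW'
      have h5 := k1.nx_eq hh (empty_subset _) hW hW'
      rw [empty_union] at h4
      rw [empty_union, empty_union] at h5
      rw [Function.iterate_succ_apply', Function.iterate_succ_apply', k2]
      refine ⟨?_, h5⟩
      have h6 : plab (nx W' ((nx W')^[j] y)) ∉ EE S h := by
        rw [plab_nx]; exact h1 j (by omega)
      rcases h4 with h4 | h4 | h4
      · exact h4
      · exact absurd (IsE.plab hh (Or.inl h4)) h6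
      · exact absurd (IsE.plab hh (Or.inr h4)) h6
  refine ⟨n, ?_, ?_, h3⟩
  · intro j hj
    rw [(key j hj.le).2]
    exact h1 j hj
  · rw [(key n le_rfl).2]; exact h2

/-- the same type -/
def SameTyp (S : Shape) (h : ℕ) (W W' : Finset (ℤ × ℤ)) : Prop :=
  (TypX S h W ∧ TypX S h W') ∨ (TypY S h W ∧ TypY S h W')

theorem sameArcs_type (hh : 0 < h) (hW : Wir S h W) (hW' : Wir S h W') (hT : SameTyp S h W W') :
    ∀ y c, plab y ∈ EE S h → Arc (EE S h) W' y c → Arc (EE S h) W y c := by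
  intro y c hy ha
  rcases exit_cases hh hW' hy with h1 | h1 | h1
  · exact arc_CC hh hW hW' h1 ha
  · subst h1
    rcases hT with ⟨⟨o2, o4, d2, d4, O2, O4⟩, p2, p4, q2, q4, P2, P4⟩ |
      ⟨⟨o2, o4, d2, d4, O2, O4⟩, p2, p4, q2, q4, P2, P4⟩
    · rw [ha.unique (outT_arc hh P2)]; exact outT_arc hh O2
    · rw [ha.unique (outT_arc hh P2)]; exact outT_arc hh O2
  · subst h1
    rcases hT with ⟨⟨o2, o4, d2, d4, O2, O4⟩, p2, p4, q2, q4, P2, P4⟩ |
      ⟨⟨o2, o4, d2, d4, O2, O4⟩, p2, p4, q2, q4, P2, P4⟩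
    · rw [ha.unique (outT_arc hh P4)]; exact outT_arc hh O4
    · rw [ha.unique (outT_arc hh P4)]; exact outT_arc hh O4

lemma SameTyp.symm (hT : SameTyp S h W W') : SameTyp S h W' W := by
  rcases hT with ⟨a, b⟩ | ⟨a, b⟩
  · exact Or.inl ⟨b, a⟩
  · exact Or.inr ⟨b, a⟩

/-- **Wired labels of the same type give the same increments**, up to a unit. -/
theorem same_type (hh : 0 < h) (hW : Wir S h W) (hW' : Wir S h W') (hT : SameTyp S h W W')
    {X Y : Env} (pX : PlaneEnv X W) (pY : PlaneEnv Y W') (eX : X.E = EE S h) (eY : Y.E = EE S h)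
    {cs : ℤ × ℤ} (sX : Arc (EE S h) W X.c0 cs) (sY : Arc (EE S h) W' Y.c0 cs) :
    ∃ κ : ℤ, ∀ c, (lab c ∈ EE S h ∨ plab c ∈ EE S h) → Y.inc c = ph κ * X.inc c := by
  have hconn : TConn (stdEnv X W pX).E := by
    change TConn X.E
    rw [eX]; exact tConn_TL S.P.good.conn (by positivity)
  have hp : SamePat (stdEnv X W pX) (stdEnv Y W' pY) := by
    refine ⟨?_, ?_, ?_⟩
    · change Y.E = X.E
      rw [eX, eY]
    · intro x c hx
      have hx' : plab x ∈ X.E := hx
      have h1 : (stdEnv X W pX).Arc x c ↔ Arc X.E W x c ∧ ¬ Arc X.E W X.c0 c := plane_arc hx'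
      have h2 : (stdEnv Y W' pY).Arc x c ↔ Arc Y.E W' x c ∧ ¬ Arc Y.E W' Y.c0 c :=
        plane_arc (by rw [eY, ← eX]; exact hx')
      rw [h1, h2, eX, eY]
      rw [eX] at hx'
      have h3 : Arc (EE S h) W X.c0 c ↔ Arc (EE S h) W' Y.c0 c :=
        ⟨fun h' => by rw [h'.unique sX]; exact sY, fun h' => by rw [h'.unique sY]; exact sX⟩
      rw [h3]
      exact and_congr_left fun _ =>
        ⟨sameArcs_type hh hW' hW hT.symm x c hx', sameArcs_type hh hW hW' hT x c hx'⟩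
    · intro c
      have h1 : (stdEnv X W pX).Start c ↔ Arc X.E W X.c0 c := plane_start
      have h2 : (stdEnv Y W' pY).Start c ↔ Arc Y.E W' Y.c0 c := plane_start
      rw [h1, h2, eX, eY]
      exact ⟨fun h' => by rw [h'.unique sX]; exact sY, fun h' => by rw [h'.unique sY]; exact sX⟩
  obtain ⟨κ, hκ⟩ := hp.exists_inc hconn
  refine ⟨κ, fun c hc => ?_⟩
  have := hκ c (by
    change lab c ∈ X.E ∨ plab c ∈ X.E
    rw [eX]; exact hc)
  rw [stdEnv_inc, stdEnv_inc] at this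
  exact this

/-! ### Types and starts from connections -/

lemma vx_c1 (S : Shape) (h : ℕ) : vx (c1 S h) = v1 S h := by
  unfold c1 ent v1; rw [vx_oc]

lemma vx_c3 (S : Shape) (h : ℕ) : vx (c3 S h) = v3 S h := by
  unfold c3 ent v3; rw [vx_oc]

lemma dco_r1c1 (hh : 0 < h) (hW : Wir S h W) : DCo (EE S h ∪ W) (fi (r1 S h)) (fi (c1 S h)) := by
  have h1 := out_notMem (subset_refl _) hh hW S.fr0 (lab_r1 hh)
  have h2 := (nx_r1 hh (subset_refl (EE S h)) hW).1
  rw [← h2]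
  exact dco_nx_step fun _ => h1

lemma dco_r3c3 (hh : 0 < h) (hW : Wir S h W) : DCo (EE S h ∪ W) (fi (r3 S h)) (fi (c3 S h)) := by
  have h1 := out_notMem (subset_refl _) hh hW S.fr3 (lab_r3 hh)
  have h2 := (nx_r3 hh (subset_refl (EE S h)) hW).1
  rw [← h2]
  exact dco_nx_step fun _ => h1

/-- type X: the two root faces are joined outside -/
theorem typX_of (hh : 0 < h) (hW : Wir S h W) (hd : DCo (EE S h ∪ W) (fi (r1 S h)) (fi (r3 S h))) :
    TypX S h W :=
  typX_of_dco (hug S hh) hh hW (((dco_r1c1 hh hW).symm.trans hd).trans (dco_r3c3 hh hW))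

/-- type Y: the arcs II and IV are joined outside -/
theorem typY_of (hh : 0 < h) (hW : Wir S h W) (hc : Co W (v1 S h) (v3 S h)) : TypY S h W :=
  typY_of_co (hug S hh) hh hW (by rw [vx_c1, vx_c3]; exact hc)

theorem start1 (hh : 0 < h) (hW : Wir S h W) {c0 : ℤ × ℤ} (h0 : plab c0 ∉ EE S h)
    (hco : Co W (vx c0) (v1 S h)) (hd : DCo (EE S h ∪ W) (fi c0) (fi (r1 S h))) :
    Arc (EE S h) W c0 (c1 S h) :=
  arc_root (fun e he => ((mem_TL (by positivity)).1 he).1) (tConn_TL S.P.good.conn (by positivity))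
    hW.disj.symm h0 (lab_c1 hh) (ly_notMem hh (S.isSide 0) (plab_ent hh 0 hh))
    (by rw [vx_c1]; exact hco) (hd.trans (dco_r1c1 hh hW))

theorem start3 (hh : 0 < h) (hW : Wir S h W) {c0 : ℤ × ℤ} (h0 : plab c0 ∉ EE S h)
    (hco : Co W (vx c0) (v3 S h)) (hd : DCo (EE S h ∪ W) (fi c0) (fi (r3 S h))) :
    Arc (EE S h) W c0 (c3 S h) :=
  arc_root (fun e he => ((mem_TL (by positivity)).1 he).1) (tConn_TL S.P.good.conn (by positivity))
    hW.disj.symm h0 (lab_c3 hh) (ly_notMem hh (S.isSide S.m3) (plab_ent hh S.m3 hh))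
    (by rw [vx_c3]; exact hco) (hd.trans (dco_r3c3 hh hW))

/-- **(W0, r1)**: any wiring of type X, root joined to the arc IV and to the face of `r1`. -/
theorem same_W0 (hh : 4 ≤ h) (hW : Wir S h W) {X Y : Env}
    (hX : IsEnv S h (W0 S h) (r1 S h) (S.k 0 + 1) X) (pY : PlaneEnv Y W) (eY : Y.E = EE S h)
    (hT : DCo (EE S h ∪ W) (fi (r1 S h)) (fi (r3 S h))) (hco : Co W (vx Y.c0) (v1 S h))
    (hd : DCo (EE S h ∪ W) (fi Y.c0) (fi (r1 S h))) :
    ∃ κ : ℤ, ∀ c, (lab c ∈ EE S h ∨ plab c ∈ EE S h) → Y.inc c = ph κ * X.inc c := by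
  have h1 : 0 < h := by omega
  obtain ⟨pX, eX, cX, -, -⟩ := hX
  refine same_type h1 (wir_W0 h1) hW (Or.inl ⟨typX_of h1 (wir_W0 h1) (dco_r13 hh), typX_of h1 hW hT⟩)
    pX pY eX eY (cs := c1 S h) ?_ (start1 h1 hW (by rw [← eY]; exact Env.plab_root) hco hd)
  rw [cX]
  exact start1 h1 (wir_W0 h1) (plab_r1 h1) (by unfold r1; rw [vx_oc]; exact Co.refl _ _)
    (DCo.refl _ _)

/-- **(W34, r1)**: any wiring which joins the arcs II and IV, root joined to the face of `r1`. -/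
theorem same_W34 (hh : 4 ≤ h) (hW : Wir S h W) {X Y : Env}
    (hX : IsEnv S h (W34 S h) (r1 S h) (S.k 0 + 1) X) (pY : PlaneEnv Y W) (eY : Y.E = EE S h)
    (hT : Co W (v1 S h) (v3 S h)) (hco : Co W (vx Y.c0) (v1 S h))
    (hd : DCo (EE S h ∪ W) (fi Y.c0) (fi (r1 S h))) :
    ∃ κ : ℤ, ∀ c, (lab c ∈ EE S h ∨ plab c ∈ EE S h) → Y.inc c = ph κ * X.inc c := by
  have h1 : 0 < h := by omega
  obtain ⟨pX, eX, cX, -, -⟩ := hX
  refine same_type h1 (wir_W34 h1) hW (Or.inr ⟨typY_of h1 (wir_W34 h1) (co_W34 hh), typY_of h1 hW hT⟩)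
    pX pY eX eY (cs := c1 S h) ?_ (start1 h1 hW (by rw [← eY]; exact Env.plab_root) hco hd)
  rw [cX]
  exact start1 h1 (wir_W34 h1) (plab_r1 h1) (by unfold r1; rw [vx_oc]; exact Co.refl _ _)
    (DCo.refl _ _)

/-- **(W12, r3)**: any wiring which joins the arcs II and IV, root joined to the face of `r3`. -/
theorem same_W12 (hh : 4 ≤ h) (hW : Wir S h W) {X Y : Env}
    (hX : IsEnv S h (W12 S h) (r3 S h) (S.k S.m3 + 1) X) (pY : PlaneEnv Y W) (eY : Y.E = EE S h)
    (hT : Co W (v1 S h) (v3 S h)) (hco : Co W (vx Y.c0) (v3 S h))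
    (hd : DCo (EE S h ∪ W) (fi Y.c0) (fi (r3 S h))) :
    ∃ κ : ℤ, ∀ c, (lab c ∈ EE S h ∨ plab c ∈ EE S h) → Y.inc c = ph κ * X.inc c := by
  have h1 : 0 < h := by omega
  obtain ⟨pX, eX, cX, -, -⟩ := hX
  refine same_type h1 (wir_W12 h1) hW (Or.inr ⟨typY_of h1 (wir_W12 h1) (co_W12 hh), typY_of h1 hW hT⟩)
    pX pY eX eY (cs := c3 S h) ?_ (start3 h1 hW (by rw [← eY]; exact Env.plab_root) hco hd)
  rw [cX]
  exact start3 h1 (wir_W12 h1) (plab_r3 h1) (by unfold r3; rw [vx_oc]; exact Co.refl _ _)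
    (DCo.refl _ _)

end Pool.Agent.H33.FM
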