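import Mathlib
import Pool.Agent.H33.FM.Three
import Pool.Agent.H33.FM.Mirror

set_option autoImplicit false
open Finset

/-! # The mirror image of a shape with four marks

Cells `(i, j) ↦ (-i-1, j)`, sides `mside (c, k) = (mcell c, -k)` in the opposite order. The mirror `S.mir`
has the arcs `I' = III`, `II' = II`, `III' = I`, `IV' = IV`. -/

namespace Pool.Agent.H33.FM

open Pool.Agent.H75.Perc hiding WL CT hh ph
open Pool.Agent.H75.TwoArm Pool.Agent.H75.Four Pool.Agent.H69.Q1 Pool.Agent.Q1
open Pool.Agent.H5.Q1 (oc vx_oc ty_oc fi_oc oc_congr)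
open Pool.Agent.Q1.M4 (Cell Good IsSide nextSide tail head PType Adj4 Conn4 head_eq_tail_next
  isSide_next dir_congr dir_add_four)
open Pool.Agent.H33.Q1 Pool.Agent.H21.FM

/-- mirror of cells -/
def mcell (c : Cell) : Cell := (-c.1 - 1, c.2)

@[simp] lemma mcell_mcell (c : Cell) : mcell (mcell c) = c := by
  unfold mcell; refine Prod.ext ?_ ?_ <;> simp

lemma mcell_inj {c d : Cell} (h : mcell c = mcell d) : c = d := by
  rw [← mcell_mcell c, h, mcell_mcell]

lemma mem_mcell {Q : Finset Cell} {c : Cell} : mcell c ∈ Q.image mcell ↔ c ∈ Q := by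
  rw [mem_image]
  exact ⟨fun ⟨a, h1, h2⟩ => (mcell_inj h2) ▸ h1, fun h => ⟨c, h, rfl⟩⟩

lemma mem_mcell' {Q : Finset Cell} {c : Cell} : c ∈ Q.image mcell ↔ mcell c ∈ Q := by
  have h := mem_mcell (Q := Q) (c := mcell c)
  rwa [mcell_mcell] at h

lemma dir_mir (k : ℤ) : dir (2 - k) = (-(dir k).1, (dir k).2) := by
  rcases dir_cases k with ⟨a, e⟩ | ⟨a, e⟩ | ⟨a, e⟩ | ⟨a, e⟩ <;>
    rcases dir_cases (2 - k) with ⟨b, f⟩ | ⟨b, f⟩ | ⟨b, f⟩ | ⟨b, f⟩ <;>
    first
    | (exfalso; omega)
    | simp [e, f]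

lemma mcell_add (c : Cell) (k : ℤ) : mcell (c + dir k) = mcell c + dir (2 - k) := by
  rw [dir_mir]; unfold mcell; refine Prod.ext ?_ ?_ <;> simp only [Prod.fst_add, Prod.snd_add] <;> ring

lemma dir_opp (k : ℤ) : dir (k + 2) = (-(dir k).1, -(dir k).2) := by
  rcases dir_cases k with ⟨a, e⟩ | ⟨a, e⟩ | ⟨a, e⟩ | ⟨a, e⟩ <;>
    rcases dir_cases (k + 2) with ⟨b, f⟩ | ⟨b, f⟩ | ⟨b, f⟩ | ⟨b, f⟩ <;>
    first
    | (exfalso; omega)
    | simp [e, f]

/-- `dir` of the opposite of a direction of the mirror -/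
lemma mcell_sub (c : Cell) (k : ℤ) : mcell (c + dir (k + 2)) = mcell c + dir (-k) := by
  rw [mcell_add]; congr 2; ring

lemma add_opp (c : Cell) (k : ℤ) : c + dir k + dir (k + 2) = c := by
  rw [dir_opp]; refine Prod.ext ?_ ?_ <;> simp only [Prod.fst_add, Prod.snd_add] <;> ring

lemma adj4_mcell {c d : Cell} (h : Adj4 c d) : Adj4 (mcell c) (mcell d) := by
  obtain ⟨k, rfl⟩ := h
  exact ⟨2 - k, mcell_add c k⟩

lemma conn_mcell {A : Set Cell} (h : Conn4 A) : Conn4 {c | mcell c ∈ A} := by
  intro c hc d hd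
  have h1 := h _ hc _ hd
  have key : ∀ x, Relation.ReflTransGen (fun a b => Adj4 a b ∧ b ∈ A) (mcell c) x →
      Relation.ReflTransGen (fun a b => Adj4 a b ∧ b ∈ {c | mcell c ∈ A}) c (mcell x) := by
    intro x hx
    induction hx with
    | refl => rw [mcell_mcell]
    | tail _ hbc ih =>
      refine ih.tail ⟨adj4_mcell hbc.1, ?_⟩
      simp only [Set.mem_ofPred_eq, mcell_mcell]
      exact hbc.2
  have h2 := key _ h1
  rwa [mcell_mcell] at h2

theorem good_mir {Q : Finset Cell} (h : Good Q) : Good (Q.image mcell) := by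
  refine ⟨h.ne.image _, ?_, ?_, ?_, ?_⟩
  · have e : ((Q.image mcell : Finset Cell) : Set Cell) = {c | mcell c ∈ (Q : Set Cell)} := by
      ext c; simp only [mem_coe, Set.mem_ofPred_eq]; exact mem_mcell'
    rw [e]; exact conn_mcell h.conn
  · have e : ((Q.image mcell : Finset Cell) : Set Cell)ᶜ = {c | mcell c ∈ ((Q : Set Cell)ᶜ)} := by
      ext c; simp only [Set.mem_compl_iff, mem_coe, Set.mem_ofPred_eq]; rw [mem_mcell']
    rw [e]; exact conn_mcell h.conn_compl
  · intro c h1 h2
    rw [mem_mcell'] at h1 h2 ⊢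
    rw [mem_mcell']
    have e1 : mcell c = (mcell c + (-1, 0)) + (1, 0) := by refine Prod.ext ?_ ?_ <;> simp
    have e2 : mcell (c + (1, 1)) = (mcell c + (-1, 0)) + (0, 1) := by
      unfold mcell; refine Prod.ext ?_ ?_ <;> simp; ring
    rw [e1] at h1
    rw [e2] at h2
    rcases h.diag2 _ h1 h2 with h3 | h3
    · left
      convert h3 using 1
      unfold mcell; refine Prod.ext ?_ ?_ <;> simp; ring
    · right
      convert h3 using 1
      unfold mcell; refine Prod.ext ?_ ?_ <;> simp
  · intro c h1 h2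
    rw [mem_mcell'] at h1 h2 ⊢
    rw [mem_mcell']
    have e2 : mcell (c + (0, 1)) = mcell (c + (1, 0)) + (1, 1) := by
      unfold mcell; refine Prod.ext ?_ ?_ <;> simp; ring
    rw [e2] at h2
    rcases h.diag1 _ h1 h2 with h3 | h3
    · left
      convert h3 using 1
      unfold mcell; refine Prod.ext ?_ ?_ <;> simp; ring
    · right
      convert h3 using 1
      unfold mcell; refine Prod.ext ?_ ?_ <;> simp

/-- mirror of sides -/
def mside (s : Cell × ℤ) : Cell × ℤ := (mcell s.1, -s.2)

@[simp] lemma mside_mside (s : Cell × ℤ) : mside (mside s) = s := by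
  unfold mside; refine Prod.ext ?_ ?_ <;> simp

variable {Q : Finset Cell}

lemma isSide_mside {s : Cell × ℤ} (hs : IsSide Q s) : IsSide (Q.image mcell) (mside s) := by
  refine ⟨mem_mcell.2 hs.1, ?_⟩
  unfold mside
  simp only
  have e : mcell s.1 + dir (-s.2 - 1) = mcell (s.1 + dir (s.2 - 1)) := by
    rw [mcell_add]
    congr 1
    exact dir_congr (by omega)
  rw [e, mem_mcell]
  exact hs.2

lemma isSide_of_mside {s : Cell × ℤ} (hs : IsSide (Q.image mcell) s) : IsSide Q (mside s) := by
  have h1 := isSide_mside hs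
  have e : (Q.image mcell).image mcell = Q := by
    rw [image_image]
    have : mcell ∘ mcell = id := by funext c; simp
    rw [this, image_id]
  rwa [e] at h1

/-- the mirror of the next side is the previous side of the mirror -/
theorem next_mside {s : Cell × ℤ} (hs : IsSide Q s) :
    nextSide (Q.image mcell) (mside (nextSide Q s)) = mside s := by
  have hd1 : ∀ k : ℤ, dir (-k) = dir (2 - (k + 2)) := fun k => by congr 1; ring
  rcases next_cases Q s with ⟨hq, e⟩ | ⟨hn, hq, e⟩ | ⟨hn, hn2, e⟩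
  · -- reflex
    rw [e]
    unfold nextSide mside
    simp only
    have e1 : mcell (s.1 + dir s.2 + dir (s.2 - 1)) + dir (-(s.2 - 1)) + dir (-(s.2 - 1) - 1) =
        mcell s.1 := by
      have a1 : dir (-(s.2 - 1)) = dir (2 - (s.2 - 1 + 2)) := dir_congr (by omega)
      have a2 : dir (-(s.2 - 1) - 1) = dir (2 - (s.2 + 2)) := dir_congr (by omega)
      rw [a1, a2, ← mcell_add, ← mcell_add, add_opp, add_opp]
    rw [e1, if_pos (mem_mcell.2 hs.1)]
    refine Prod.ext rfl ?_
    simp only; ring
  · -- straight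
    rw [e]
    unfold nextSide mside
    simp only
    have a1 : dir (-s.2) = dir (2 - (s.2 + 2)) := dir_congr (by omega)
    have a2 : dir (-s.2 - 1) = dir (2 - (s.2 - 1)) := dir_congr (by omega)
    rw [a1, ← mcell_add, add_opp, a2, ← mcell_add, if_neg (fun h => hs.2 (mem_mcell.1 h)),
      if_pos (mem_mcell.2 hs.1)]
  · -- convex
    rw [e]
    unfold nextSide mside
    simp only
    have a1 : dir (-(s.2 + 1)) = dir (2 - (s.2 - 1)) := dir_congr (by omega)
    have a2 : dir (-(s.2 + 1) - 1) = dir (2 - s.2) := dir_congr (by omega)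
    have e3 : s.1 + dir (s.2 - 1) + dir s.2 = s.1 + dir s.2 + dir (s.2 - 1) := by
      rw [add_assoc, add_assoc, add_comm (dir (s.2 - 1))]
    rw [a1, a2, ← mcell_add, ← mcell_add, e3, if_neg (fun h => hn (mem_mcell.1 h)),
      if_neg (fun h => hs.2 (mem_mcell.1 h))]
    refine Prod.ext rfl ?_
    simp only; ring

lemma iter_mside (P : PType) {a i : ℕ} (hi : i ≤ a) :
    (nextSide (P.Q.image mcell))^[i] (mside (P.side a)) = mside (P.side (a - i)) := by
  induction i with
  | zero => rfl
  | succ i ih =>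
    rw [Function.iterate_succ_apply', ih (by omega)]
    have e : a - i = (a - (i + 1)) + 1 := by omega
    rw [e, side_succ', next_mside (isSide_side P _)]

/-- the mirror of a shape without marks, starting at the side `N + a` -/
noncomputable def pmir (P : PType) (m' : ℕ) (h0 : 0 < m') (h1 : m' < P.N) (a : ℕ) (ha : a < P.N) :
    PType where
  Q := P.Q.image mcell
  good := good_mir P.good
  s0 := mside (P.side (P.N + a))
  N := P.N
  m := m'
  hm0 := h0
  hmN := h1
  side0 := isSide_mside (isSide_side P _)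
  period := by
    rw [iter_mside P (by omega), Nat.add_sub_cancel_left, side_period]
    unfold mside
    refine Prod.ext rfl ?_
    simp only; ring
  all := by
    intro s hs
    obtain ⟨n, hn, e1, e2⟩ := P.all _ (isSide_of_mside hs)
    have e1' : (P.side n).1 = mcell s.1 := e1
    have e2' : ((P.side n).2 - -s.2) % 4 = 0 := e2
    by_cases hna : n ≤ a
    · refine ⟨a - n, by omega, ?_, ?_⟩ <;> rw [iter_mside P (by omega)] <;>
        rw [show P.N + a - (a - n) = P.N + n by omega, side_period] <;> unfold mside <;> simp only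
      · rw [e1', mcell_mcell]
      · omega
    · refine ⟨P.N + a - n, by omega, ?_, ?_⟩ <;> rw [iter_mside P (by omega)] <;>
        rw [show P.N + a - (P.N + a - n) = n by omega] <;> unfold mside <;> simp only
      · rw [e1', mcell_mcell]
      · omega
  inj := by
    intro n hn n' hn' e1 e2
    rw [iter_mside P (by omega), iter_mside P (by omega)] at e1 e2
    -- the index in `[0, N)`
    have key : ∀ n < P.N, ∃ r < P.N, (P.N + a - n = r ∨ P.N + a - n = P.N + r) ∧
        (P.side (P.N + a - n)).1 = (P.side r).1 ∧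
        ((P.side (P.N + a - n)).2 - (P.side r).2) % 4 = 0 := by
      intro n hn
      by_cases h2 : n ≤ a
      · refine ⟨a - n, by omega, Or.inr (by omega), ?_, ?_⟩ <;>
          rw [show P.N + a - n = P.N + (a - n) by omega, side_period] <;> simp
      · exact ⟨P.N + a - n, by omega, Or.inl rfl, rfl, by simp⟩
    obtain ⟨r, hr, hr1, hr2, hr3⟩ := key n hn
    obtain ⟨r', hr', hr1', hr2', hr3'⟩ := key n' hn'
    unfold mside at e1 e2
    simp only at e1 e2
    have e1' := mcell_inj e1
    have h4 : r = r' := P.inj r hr r' hr' (by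
      have : (P.side r).1 = (P.side r').1 := by rw [← hr2, ← hr2', e1']
      exact this) (by
      have : ((P.side r).2 - (P.side r').2) % 4 = 0 := by omega
      exact this)
    omega

lemma pmir_side {P : PType} {m' : ℕ} {h0 : 0 < m'} {h1 : m' < P.N} {a : ℕ} {ha : a < P.N} {i : ℕ}
    (hi : i ≤ P.N + a) : (pmir P m' h0 h1 a ha).side i = mside (P.side (P.N + a - i)) :=
  iter_mside P hi

/-- **The mirror shape.** -/
noncomputable def _root_.Pool.Agent.H21.FM.Shape.mir (S : Shape) : Shape where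
  P := pmir S.P S.P.m S.P.hm0 S.P.hmN (S.P.m - 1) (by have := S.P.hmN; omega)
  m2 := S.P.m - S.m3
  m3 := S.P.m - S.m2
  h02 := by have := S.h34; omega
  h23 := by have := S.h34; have := S.h23; omega
  h34 := by
    have := S.h34; have := S.h23; have := S.h02
    show S.P.m - S.m2 < S.P.m
    omega
  cvx := by
    intro i hi
    have h34 := S.h34
    have h23 := S.h23
    have h02 := S.h02
    have hN := S.P.hmN
    have hi' : i + 1 = S.P.m - S.m3 ∨ i + 1 = S.P.m - S.m2 ∨ i + 1 = S.P.m ∨ i + 1 = S.P.N := hi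
    have hb : i + 1 ≤ S.P.N + (S.P.m - 1) := by omega
    rw [pmir_side hb, pmir_side (by omega)]
    set j := S.P.N + (S.P.m - 1) - (i + 1) with hj
    have e : S.P.N + (S.P.m - 1) - i = j + 1 := by omega
    rw [e]
    have hc : S.P.side (j + 1) = ((S.P.side j).1, (S.P.side j).2 + 1) := by
      have h3 : j + 1 = S.P.N + S.m3 ∨ j + 1 = S.P.N + S.m2 ∨ j + 1 = S.P.N ∨ j + 1 = S.P.m := by
        omega
      have sh : ∀ t, (t + 1 = S.m2 ∨ t + 1 = S.m3 ∨ t + 1 = S.P.m ∨ t + 1 = S.P.N) →
          j + 1 = S.P.N + (t + 1) → S.P.side (j + 1) = ((S.P.side j).1, (S.P.side j).2 + 1) := by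
        intro t ht he
        have e2 : j = S.P.N + t := by omega
        rw [he, e2, side_period, side_period, S.cvx t ht]
        refine Prod.ext rfl ?_
        simp only; ring
      rcases h3 with h3 | h3 | h3 | h3
      · exact sh (S.m3 - 1) (by omega) (by omega)
      · exact sh (S.m2 - 1) (by omega) (by omega)
      · exact S.cvx j (by omega)
      · exact S.cvx j (by omega)
    rw [hc]
    unfold mside
    refine Prod.ext rfl ?_
    simp only; ring

lemma mir_side (S : Shape) {i : ℕ} (hi : i < S.P.N + S.P.m) :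
    S.mir.P.side i = mside (S.P.side (S.P.N + S.P.m - 1 - i)) := by
  have hm := S.P.hm0
  have hN := S.P.hmN
  have h1 : S.mir.P.side i = mside (S.P.side (S.P.N + (S.P.m - 1) - i)) :=
    pmir_side (ha := by omega) (by omega)
  rw [h1]
  congr 2
  omega

lemma mir_Q (S : Shape) : S.mir.P.Q = S.P.Q.image mcell := rfl
lemma mir_N (S : Shape) : S.mir.N = S.N := rfl
lemma mir_m4 (S : Shape) : S.mir.m4 = S.m4 := rfl
lemma mir_m2 (S : Shape) : S.mir.m2 = S.m4 - S.m3 := rfl
lemma mir_m3 (S : Shape) : S.mir.m3 = S.m4 - S.m2 := rfl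

end Pool.Agent.H33.FM
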