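import Mathlib
import Pool.Agent.H33.FM.MirShape
import Pool.Agent.H33.FM.TConnTL
import Pool.Agent.Q1.M6c.Uniq

set_option autoImplicit false
open Finset

/-! # The environments of the mirror shape

Mirror of labels `ml 0`, tiles `mtl`, grid points `mg`, vertices `mv`, faces `mf`. The wired labels
of the mirror shape are the mirrors of the wired labels. -/

namespace Pool.Agent.H33.FM

open Pool.Agent.H75.Perc hiding WL CT hh ph
open Pool.Agent.H75.TwoArm Pool.Agent.H75.Four Pool.Agent.H69.Q1 Pool.Agent.Q1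
open Pool.Agent.H5.Q1 (oc vx_oc ty_oc fi_oc oc_congr)
open Pool.Agent.Q1.M4 (Cell Good IsSide nextSide tail head PType Adj4 Conn4 head_eq_tail_next
  isSide_next dir_congr dir_add_four)
open Pool.Agent.H33.Q1 Pool.Agent.H21.FM
open Pool.Agent.Q1.M6c (ml mc ml_ml mc_mc ml_inj mc_inj mem_ml ml_odd vx_mc fi_mc lab_mc plab_mc
  mirror_inc mirror_incW PlaneEnv)

/-- mirror of tiles -/
def mtl (p : ℤ × ℤ) : ℤ × ℤ := (-p.1 - 1, p.2)

/-- mirror of grid points -/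
def mg (p : ℤ × ℤ) : ℤ × ℤ := (-p.1, p.2)

/-- mirror of vertices -/
def mv (v : ℤ × ℤ) : ℤ × ℤ := (-v.2, -v.1)

/-- mirror of faces -/
def mf (f : ℤ × ℤ) : ℤ × ℤ := (1 - f.2, 1 - f.1)

@[simp] lemma mtl_mtl (p : ℤ × ℤ) : mtl (mtl p) = p := by
  unfold mtl; refine Prod.ext ?_ ?_ <;> simp
@[simp] lemma mg_mg (p : ℤ × ℤ) : mg (mg p) = p := by
  unfold mg; refine Prod.ext ?_ ?_ <;> simp
@[simp] lemma mv_mv (p : ℤ × ℤ) : mv (mv p) = p := by
  unfold mv; refine Prod.ext ?_ ?_ <;> simp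
@[simp] lemma mf_mf (p : ℤ × ℤ) : mf (mf p) = p := by
  unfold mf; refine Prod.ext ?_ ?_ <;> simp

lemma ml_lt (p : ℤ × ℤ) : ml 0 (lt p) = lt (mtl p) := by
  unfold ml lt mtl; refine Prod.ext ?_ ?_ <;> simp only <;> ring

lemma vx_mc0 (c : ℤ × ℤ) : vx (mc 0 c) = mv (vx c) := by
  rw [vx_mc]; unfold mv; refine Prod.ext ?_ ?_ <;> simp

lemma fi_mc0 (c : ℤ × ℤ) : fi (mc 0 c) = mf (fi c) := by
  rw [fi_mc]; unfold mf; refine Prod.ext ?_ ?_ <;> simp

lemma tv_mv (v : ℤ × ℤ) : tv (mv v) = mg (tv v) := by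
  unfold tv mv mg; refine Prod.ext ?_ ?_ <;> simp only <;> ring

lemma tf_mf (f : ℤ × ℤ) : tf (mf f) = mg (tf f) := by
  unfold tf mf mg; refine Prod.ext ?_ ?_ <;> simp only <;> ring

lemma mem_image_ml {A : Finset (ℤ × ℤ)} {e : ℤ × ℤ} : e ∈ A.image (ml 0) ↔ ml 0 e ∈ A := by
  have h := mem_ml (μ := 0) (w := A) (e := ml 0 e)
  rwa [ml_ml] at h

lemma mem_image_lt {A : Finset (ℤ × ℤ)} {p : ℤ × ℤ} : lt p ∈ A.image (ml 0) ↔ lt (mtl p) ∈ A := by
  rw [mem_image_ml, ml_lt]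

/-- equality of two sets of labels by tiles -/
lemma ext_lt {A B : Finset (ℤ × ℤ)} (hA : ∀ e ∈ A, (e.1 + e.2) % 2 = 1)
    (hB : ∀ e ∈ B, (e.1 + e.2) % 2 = 1) (h : ∀ p, lt p ∈ A ↔ lt p ∈ B) : A = B := by
  ext e
  constructor
  · intro he
    have := h (tt e)
    rw [lt_tt (hA e he)] at this
    exact this.1 he
  · intro he
    have := h (tt e)
    rw [lt_tt (hB e he)] at this
    exact this.2 he

lemma odd_image {A : Finset (ℤ × ℤ)} (hA : ∀ e ∈ A, (e.1 + e.2) % 2 = 1) :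
    ∀ e ∈ A.image (ml 0), (e.1 + e.2) % 2 = 1 := by
  intro e he
  rw [mem_image_ml] at he
  have := ml_odd (μ := 0) (hA _ he)
  rwa [ml_ml] at this

lemma ct_mtl {n : ℤ} (hn : 0 < n) (p : ℤ × ℤ) : ct n (mtl p) = mcell (ct n p) := by
  rw [ct_eq hn]
  have h := (ct_eq hn (p := p)).1 rfl
  obtain ⟨⟨h1, h2⟩, h3, h4⟩ := h
  unfold mtl mcell
  simp only
  refine ⟨⟨?_, ?_⟩, h3, h4⟩
  · have : (-(ct n p).1 - 1) * n = -((ct n p).1 * n) - n := by ring
    rw [this]; omega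
  · have : (-(ct n p).1 - 1) * n = -((ct n p).1 * n) - n := by ring
    rw [this]; omega

variable {Q : Finset Cell} {n : ℤ}

lemma TL_mir (hn : 0 < n) : TL (Q.image mcell) n = (TL Q n).image (ml 0) := by
  refine ext_lt (fun e he => ((mem_TL hn).1 he).1) (odd_image fun e he => ((mem_TL hn).1 he).1) ?_
  intro p
  rw [mem_image_lt, mem_TL hn, mem_TL hn, tt_lt, tt_lt, mem_mcell', ct_mtl hn]
  exact ⟨fun h => ⟨lt_odd _, h.2⟩, fun h => ⟨lt_odd _, h.2⟩⟩

lemma mtl_sub (p : ℤ × ℤ) (k : ℤ) : mtl (p - dir k) = mtl p - dir (2 - k) := by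
  rw [dir_mir]; unfold mtl; refine Prod.ext ?_ ?_ <;> simp only [Prod.fst_sub, Prod.snd_sub] <;> ring

lemma LY_mir (hn : 0 < n) (s : Cell × ℤ) : LY n (mside s) = (LY n s).image (ml 0) := by
  refine ext_lt (fun e he => ((mem_LY hn).1 he).1) (odd_image fun e he => ((mem_LY hn).1 he).1) ?_
  intro p
  rw [mem_image_lt, mem_LY hn, mem_LY hn, tt_lt, tt_lt]
  have e0 : (mside s).1 + dir ((mside s).2 - 1) = mcell (s.1 + dir (s.2 - 1)) := by
    unfold mside; simp only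
    rw [mcell_add]; congr 1; exact dir_congr (by omega)
  have e1 : mtl (p - dir ((mside s).2 - 1)) = mtl p - dir (s.2 - 1) := by
    rw [mtl_sub]; unfold mside; simp only
    congr 1; exact dir_congr (by omega)
  rw [e0]
  have a1 : ct n p = mcell (s.1 + dir (s.2 - 1)) ↔ ct n (mtl p) = s.1 + dir (s.2 - 1) := by
    rw [ct_mtl hn]
    constructor
    · intro h; rw [h, mcell_mcell]
    · intro h; rw [← h, mcell_mcell]
  have a2 : ct n (p - dir ((mside s).2 - 1)) = (mside s).1 ↔ ct n (mtl p - dir (s.2 - 1)) = s.1 := by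
    rw [← e1, ct_mtl hn]
    unfold mside
    simp only
    constructor
    · intro h; rw [h, mcell_mcell]
    · intro h; rw [← h, mcell_mcell]
  rw [a1, a2]
  exact ⟨fun h => ⟨lt_odd _, h.2⟩, fun h => ⟨lt_odd _, h.2⟩⟩

lemma Nb_mir (hn : 0 < n) {r : ℤ} {p : ℤ × ℤ} : Nb n (Q.image mcell) r p ↔ Nb n Q r (mtl p) := by
  constructor
  · intro h q h1 h2 h3
    refine h (mtl q) ?_ ?_ (by rw [ct_mtl hn, mem_mcell]; exact h3)
    · unfold mtl at h1 ⊢
      simp only at h1 ⊢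
      rw [abs_le] at h1 ⊢
      constructor <;> linarith
    · unfold mtl at h2 ⊢
      simpa using h2
  · intro h q h1 h2 h3
    rw [mem_mcell', ← ct_mtl hn] at h3
    refine h (mtl q) ?_ ?_ h3
    · unfold mtl
      simp only
      rw [abs_le] at h1 ⊢
      constructor <;> linarith
    · unfold mtl
      simpa using h2

lemma tail_mside (s : Cell × ℤ) : tail (mside s) = mg (head s) := by
  unfold head
  rw [tail_io, tail_io]
  unfold mside mg mcell
  simp only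
  rcases io_dir s.2 with ⟨a, b, c, -⟩ | ⟨a, b, c, -⟩ | ⟨a, b, c, -⟩ | ⟨a, b, c, -⟩ <;>
    rcases io_dir (-s.2) with ⟨a', b', c', -⟩ | ⟨a', b', c', -⟩ | ⟨a', b', c', -⟩ |
      ⟨a', b', c', -⟩ <;>
    first
    | (exfalso; omega)
    | (rw [b, c, b']; refine Prod.ext ?_ ?_ <;>
        simp only [Prod.fst_add, Prod.snd_add, Prod.fst_sub, Prod.snd_sub] <;> ring)

lemma it_mside (n : ℤ) (s : Cell × ℤ) (j : ℤ) : it n (mside s) j = mtl (it n s (n - 1 - j)) := by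
  unfold it wp
  rw [tail_mside]
  unfold head
  rw [tail_io]
  unfold mside mg mtl
  simp only
  rcases io_dir s.2 with ⟨a, b, c, -⟩ | ⟨a, b, c, -⟩ | ⟨a, b, c, -⟩ | ⟨a, b, c, -⟩ <;>
    rcases io_dir (-s.2) with ⟨a', b', c', -⟩ | ⟨a', b', c', -⟩ | ⟨a', b', c', -⟩ |
      ⟨a', b', c', -⟩ <;>
    first
    | (exfalso; omega)
    | (rw [b, c, b', c']; refine Prod.ext ?_ ?_ <;>
        simp only [Prod.fst_add, Prod.snd_add, Prod.fst_sub, Prod.snd_sub] <;> ring)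

/-- the band depends on the sides modulo `4` only -/
lemma Band_sub {B B' : Finset (Cell × ℤ)} (h : ∀ s ∈ B, ∃ s' ∈ B', ∀ j, it n s j = it n s' j) :
    Band n Q B ⊆ Band n Q B' := by
  intro e he
  obtain ⟨p, rfl⟩ : ∃ p, e = lt p := ⟨tt e, (lt_tt (odd_Band he)).symm⟩
  obtain ⟨h1, s, hs, j, hj, h2, h3⟩ := mem_Band.1 he
  obtain ⟨s', hs', e'⟩ := h s hs
  exact mem_Band.2 ⟨h1, s', hs', j, hj, by rw [← e']; exact h2, by rw [← e']; exact h3⟩

lemma Band_mir (hn : 0 < n) (B : Finset (Cell × ℤ)) :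
    Band n (Q.image mcell) (B.image mside) = (Band n Q B).image (ml 0) := by
  refine ext_lt (fun e he => odd_Band he) (odd_image fun e he => odd_Band he) ?_
  intro p
  rw [mem_image_lt, mem_Band, mem_Band, Nb_mir hn]
  have key : ∀ (a b : ℤ × ℤ), |a.1 - (mtl b).1| = |(mtl a).1 - b.1| := by
    intro a b
    unfold mtl
    simp only
    rw [← abs_neg]
    congr 1; ring
  have key2 : ∀ (a b : ℤ × ℤ), |a.2 - (mtl b).2| = |(mtl a).2 - b.2| := fun a b => rfl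
  constructor
  · rintro ⟨h1, t, ht, j, hj, h2, h3⟩
    obtain ⟨s, hs, rfl⟩ := mem_image.1 ht
    refine ⟨h1, s, hs, n - 1 - j, ⟨by omega, by omega⟩, ?_, ?_⟩
    · rw [it_mside, key] at h2; exact h2
    · rw [it_mside, key2] at h3; exact h3
  · rintro ⟨h1, s, hs, j, hj, h2, h3⟩
    refine ⟨h1, mside s, mem_image_of_mem _ hs, n - 1 - j, ⟨by omega, by omega⟩, ?_, ?_⟩
    · rw [it_mside, key, show n - 1 - (n - 1 - j) = j by ring]; exact h2
    · rw [it_mside, key2, show n - 1 - (n - 1 - j) = j by ring]; exact h3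

/-! ### Shapes -/

variable {S : Shape} {h : ℕ}

lemma EE_mir (hh : 1 ≤ h) : EE S.mir h = (EE S h).image (ml 0) := TL_mir (by omega)

/-- the sides of the mirror before `m4` -/
lemma side_lt {i : ℕ} (hi : i < S.P.m) :
    S.mir.P.side i = mside (S.P.side (S.P.N + (S.P.m - 1 - i))) := by
  rw [mir_side S (by omega)]
  congr 2; omega

/-- the sides of the mirror after `m4` -/
lemma side_ge {i : ℕ} (_hi : S.P.m ≤ i) (hi2 : i < S.P.N) :
    S.mir.P.side i = mside (S.P.side (S.P.N + S.P.m - 1 - i)) := mir_side S (by omega)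

lemma mside_four (s : Cell × ℤ) (j : ℤ) :
    it n (mside (s.1, s.2 + 4)) j = it n (mside s) j := by
  rw [it_mside, it_mside, it_four]

lemma LY_mside_four (hn : 0 < n) (s : Cell × ℤ) : LY n (mside (s.1, s.2 + 4)) = LY n (mside s) := by
  rw [LY_mir hn, LY_mir hn, LY_four]

lemma LY_mir_lt (hh : 1 ≤ h) {i : ℕ} (hi : i < S.P.m) :
    LY (2 * h) (S.mir.P.side i) = (LY (2 * h) (S.P.side (S.P.m - 1 - i))).image (ml 0) := by
  rw [side_lt hi, side_period, LY_mside_four (by omega), LY_mir (by omega)]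

lemma LY_mir_ge (hh : 1 ≤ h) {i : ℕ} (hi : S.P.m ≤ i) (hi2 : i < S.P.N) :
    LY (2 * h) (S.mir.P.side i) = (LY (2 * h) (S.P.side (S.P.N + S.P.m - 1 - i))).image (ml 0) := by
  rw [side_ge hi hi2, LY_mir (by omega)]

lemma wd_mir {i : ℕ} (hi : S.mir.Wd i) : (i < S.P.m ∧ S.Wd (S.P.m - 1 - i)) ∨
    (S.P.m ≤ i ∧ i < S.P.N ∧ S.Wd (S.P.N + S.P.m - 1 - i)) := by
  have h34 := S.h34
  have h23 := S.h23
  have h02 := S.h02
  have hN := S.P.hmN
  have e : (S.P.m - S.m3 ≤ i ∧ i < S.P.m - S.m2) ∨ (S.P.m ≤ i ∧ i < S.P.N) := hi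
  unfold Shape.Wd Shape.m4 Shape.N
  omega

lemma wd_mir' {j : ℕ} (hj : S.Wd j) : (j < S.P.m ∧ S.mir.Wd (S.P.m - 1 - j)) ∨
    (S.P.m ≤ j ∧ j < S.P.N ∧ S.mir.Wd (S.P.N + S.P.m - 1 - j)) := by
  have h34 := S.h34
  have h23 := S.h23
  have h02 := S.h02
  have hN := S.P.hmN
  have e : (S.m2 ≤ j ∧ j < S.m3) ∨ (S.P.m ≤ j ∧ j < S.P.N) := hj
  have e2 : ∀ i, S.mir.Wd i ↔ (S.P.m - S.m3 ≤ i ∧ i < S.P.m - S.m2) ∨ (S.P.m ≤ i ∧ i < S.P.N) :=
    fun i => Iff.rfl
  rw [e2, e2]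
  omega

lemma fr_mir {i : ℕ} (hi : S.mir.Fr i) : i < S.P.m ∧ S.Fr (S.P.m - 1 - i) := by
  have h34 := S.h34
  have h23 := S.h23
  have h02 := S.h02
  have hN := S.P.hmN
  have e : (i < S.P.m - S.m3) ∨ (S.P.m - S.m2 ≤ i ∧ i < S.P.m) := hi
  unfold Shape.Fr Shape.m4
  omega

theorem W0_mir (hh : 1 ≤ h) : W0 S.mir h = (W0 S h).image (ml 0) := by
  ext e
  rw [mem_image_ml, mem_W0, mem_W0]
  constructor
  · rintro ⟨i, hi, he⟩
    rcases wd_mir hi with ⟨h1, h2⟩ | ⟨h1, h2, h3⟩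
    · rw [LY_mir_lt hh h1, mem_image_ml] at he
      exact ⟨_, h2, he⟩
    · rw [LY_mir_ge hh h1 h2, mem_image_ml] at he
      exact ⟨_, h3, he⟩
  · rintro ⟨j, hj, he⟩
    rcases wd_mir' hj with ⟨h1, h2⟩ | ⟨h1, h2, h3⟩
    · refine ⟨_, h2, ?_⟩
      rw [LY_mir_lt hh (by omega), mem_image_ml]
      have : S.P.m - 1 - (S.P.m - 1 - j) = j := by omega
      rw [this]; exact he
    · refine ⟨_, h3, ?_⟩
      rw [LY_mir_ge hh (by omega) (by omega), mem_image_ml]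
      have : S.P.N + S.P.m - 1 - (S.P.N + S.P.m - 1 - j) = j := by omega
      rw [this]; exact he

lemma rvS_mside (h : ℕ) (Q : Finset Cell) (s : Cell × ℤ) :
    rvS h (mside s) = mv (rvS h (nextSide Q s)) := by
  unfold rvS
  rw [tail_mside, head_eq_tail_next]
  unfold mg mv
  refine Prod.ext ?_ ?_ <;> simp only <;> ring

/-- **Mirror of admissible wired labels.** -/
theorem wir_mir (hh : 1 ≤ h) {W : Finset (ℤ × ℤ)} (hW : Wir S h W) :
    Wir S.mir h (W.image (ml 0)) := by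
  refine ⟨odd_image hW.odd, ?_, ?_, ?_, ?_⟩
  · have h1 : TL S.mir.P.Q (2 * h) = (TL S.P.Q (2 * h)).image (ml 0) := TL_mir (by omega)
    rw [h1, disjoint_left]
    intro e h2 h3
    rw [mem_image_ml] at h2 h3
    exact disjoint_left.1 hW.disj h2 h3
  · intro i hi
    rcases wd_mir hi with ⟨h1, h2⟩ | ⟨h1, h2, h3⟩
    · rw [LY_mir_lt hh h1]; exact image_subset_image (hW.wired _ h2)
    · rw [LY_mir_ge hh h1 h2]; exact image_subset_image (hW.wired _ h3)
  · intro i hi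
    obtain ⟨h1, h2⟩ := fr_mir hi
    rw [LY_mir_lt hh h1, disjoint_left]
    intro e h3 h4
    rw [mem_image_ml] at h3 h4
    exact disjoint_left.1 (hW.free _ h2) h3 h4
  · intro i hi hi' hc
    obtain ⟨h1, h2⟩ := fr_mir hi
    obtain ⟨h1', h2'⟩ := fr_mir hi'
    obtain ⟨j, hj⟩ : ∃ j, S.P.m - 1 - i = j + 1 := ⟨S.P.m - 1 - (i + 1), by omega⟩
    have hj' : S.P.m - 1 - (i + 1) = j := by omega
    rw [hj] at h2
    rw [hj'] at h2'
    have ei : S.mir.P.side i = mside (S.P.side (S.P.N + (j + 1))) := by rw [side_lt h1, hj]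
    have ei' : S.mir.P.side (i + 1) = mside (S.P.side (S.P.N + j)) := by rw [side_lt h1', hj']
    rw [ei, ei', side_period, side_period] at hc
    unfold mside at hc
    have c1 := congrArg Prod.fst hc
    have c2 := congrArg Prod.snd hc
    simp only at c1 c2
    have hcv : S.P.side (j + 1) = ((S.P.side j).1, (S.P.side j).2 + 1) := by
      refine Prod.ext (mcell_inj c1).symm ?_
      simp only; omega
    have h5 := hW.diag j h2' h2 hcv
    intro h6
    apply h5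
    rw [mem_image_ml] at h6
    convert h6 using 1
    have e1 : wv h (S.mir.P.side (i + 1)) 0 = mv (wv h (S.P.side (j + 1)) 0) := by
      have a1 : wv h (S.mir.P.side (i + 1)) 0 = rvS h (S.mir.P.side (i + 1)) := by
        unfold wv rvS; refine Prod.ext ?_ ?_ <;> simp
      have a2 : wv h (S.P.side (j + 1)) 0 = rvS h (S.P.side (j + 1)) := by
        unfold wv rvS; refine Prod.ext ?_ ?_ <;> simp
      rw [a1, a2, ei', rvS_mside h S.P.Q, ← side_succ']
      congr 1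
      rw [show S.P.N + j + 1 = S.P.N + (j + 1) by ring, side_period, rvS_four]
    rw [e1]
    have e2 : S.mir.k i = -(S.P.side (j + 1)).2 - 4 := by
      unfold Shape.k
      rw [ei, side_period]
      unfold mside; simp only; ring
    rw [e2]
    have e3 : S.k j = (S.P.side (j + 1)).2 - 1 := by
      unfold Shape.k; rw [hcv]; simp only; ring
    rw [e3]
    unfold ql ml mv
    set t := (S.P.side (j + 1)).2
    rcases dir_cases (t - 1) with ⟨a, e⟩ | ⟨a, e⟩ | ⟨a, e⟩ | ⟨a, e⟩ <;>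
      rcases dir_cases (-t - 4) with ⟨b, f⟩ | ⟨b, f⟩ | ⟨b, f⟩ | ⟨b, f⟩ <;>
      first
      | (exfalso; omega)
      | (rw [e, f]; refine Prod.ext ?_ ?_ <;> simp only [Prod.fst_add, Prod.snd_add] <;> ring)

lemma WB_mir (hh : 1 ≤ h) {B B' : Finset (Cell × ℤ)}
    (h1 : ∀ s ∈ B', ∃ s' ∈ B, ∀ j, it (2 * h) s j = it (2 * h) (mside s') j)
    (h2 : ∀ s ∈ B, ∃ s' ∈ B', ∀ j, it (2 * h) (mside s) j = it (2 * h) s' j) :
    WB S.mir h B' = (WB S h B).image (ml 0) := by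
  unfold WB
  rw [image_union, W0_mir hh, ← Band_mir (by omega)]
  congr 1
  refine Subset.antisymm (Band_sub fun s hs => ?_) (Band_sub fun s hs => ?_)
  · obtain ⟨s', hs', e⟩ := h1 s hs
    exact ⟨mside s', mem_image_of_mem _ hs', e⟩
  · obtain ⟨s', hs', rfl⟩ := mem_image.1 hs
    obtain ⟨s'', hs'', e⟩ := h2 s' hs'
    exact ⟨s'', hs'', e⟩

theorem W34_mir (hh : 1 ≤ h) : W34 S.mir h = (W12 S h).image (ml 0) := by
  have h34 := S.h34
  have h23 := S.h23
  have h02 := S.h02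
  have hN := S.P.hmN
  refine WB_mir hh ?_ ?_
  · intro s hs
    obtain ⟨i, hi, rfl⟩ := mem_image.1 hs
    have hi' : S.P.m - S.m2 ≤ i ∧ i < S.P.m := mem_Ico.1 hi
    refine ⟨S.P.side (S.P.m - 1 - i), mem_image.2 ⟨_, mem_range.2 (by omega), rfl⟩, fun j => ?_⟩
    rw [side_lt hi'.2, side_period, mside_four]
  · intro s hs
    obtain ⟨i, hi, rfl⟩ := mem_image.1 hs
    rw [mem_range] at hi
    refine ⟨S.mir.P.side (S.P.m - 1 - i), mem_image.2 ⟨_, mem_Ico.2 ⟨?_, ?_⟩, rfl⟩, fun j => ?_⟩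
    · show S.P.m - S.m2 ≤ _
      omega
    · show _ < S.P.m
      omega
    · rw [side_lt (by omega), side_period, mside_four]
      congr 3; omega

theorem W12_mir (hh : 1 ≤ h) : W12 S.mir h = (W34 S h).image (ml 0) := by
  have h34 := S.h34
  have h23 := S.h23
  have h02 := S.h02
  have hN := S.P.hmN
  refine WB_mir hh ?_ ?_
  · intro s hs
    obtain ⟨i, hi, rfl⟩ := mem_image.1 hs
    have hi' : i < S.P.m - S.m3 := mem_range.1 hi
    refine ⟨S.P.side (S.P.m - 1 - i), mem_image.2 ⟨_, mem_Ico.2 ⟨by omega, ?_⟩, rfl⟩, fun j => ?_⟩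
    · unfold Shape.m4; omega
    · rw [side_lt (by omega), side_period, mside_four]
  · intro s hs
    obtain ⟨i, hi, rfl⟩ := mem_image.1 hs
    rw [mem_Ico] at hi
    unfold Shape.m4 at hi
    refine ⟨S.mir.P.side (S.P.m - 1 - i), mem_image.2 ⟨_, mem_range.2 ?_, rfl⟩, fun j => ?_⟩
    · show _ < S.P.m - S.m3
      omega
    · rw [side_lt (by omega), side_period, mside_four]
      congr 3; omega

end Pool.Agent.H33.FM
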