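import Mathlib
import Pool.Agent.H33.FM.MirEnv
import Pool.Agent.H21.FM.Wall

set_option autoImplicit false
open Finset

/-! # The environments of the mirror shape are the mirrors of the environments

`mirror_01`, `mirror_03`, `mirror_34`, `mirror_12`: for the wirings `(W0, r1)`, `(W0, r3)`, `(W34, r1)`,
`(W12, r3)` the increments of the environment `(W0, r1)`, `(W0, r3)`, `(W12, r3)`, `(W34, r1)` of the mirror
shape are the conjugate increments times a unit. `gprim_mir`: the same for the primitives. -/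

namespace Pool.Agent.H33.FM

open Pool.Agent.H75.Perc hiding WL CT hh ph cc
open Pool.Agent.H75.TwoArm Pool.Agent.H75.Four Pool.Agent.H69.Q1 Pool.Agent.Q1
open Pool.Agent.H5.Q1 (oc vx_oc ty_oc fi_oc oc_congr nxC_oc)
open Pool.Agent.Q1.M4 (Cell Good IsSide nextSide tail head PType Adj4 Conn4 head_eq_tail_next
  isSide_next dir_congr dir_add_four)
open Pool.Agent.H33.Q1 Pool.Agent.H21.FM
open Pool.Agent.Q1.Env (TConn TAdj)
open Pool.Agent.Q1.M6c (ml mc ml_ml mc_mc ml_inj mc_inj mem_ml ml_odd vx_mc fi_mc lab_mc plab_mc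
  mirror_inc mirror_incW PlaneEnv co_nx_step dco_nx_step entrance_unique)

/-! ### From the exit back to the root -/

theorem exists_back {E W : Finset (ℤ × ℤ)} (hodd : ∀ e ∈ E, (e.1 + e.2) % 2 = 1) (hconn : TConn E)
    (hd : Disjoint W E) {q r x : ℤ × ℤ} (hx : nx W x = q) (hxE : plab x ∈ E) (hq : lab q ∉ E)
    (hr : lab r ∉ E) (hr2 : lab (nx W r) ∈ E) (hco : Co W (vx q) (vx r))
    (hdco : DCo (E ∪ W) (fi q) (fi r)) :
    ∃ m, (∀ i < m, lab ((nx W)^[i] q) ∉ E) ∧ (nx W)^[m] q = r := by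
  classical
  obtain ⟨L, hL⟩ := exists_orb_nx W q
  have hinj : Function.Injective (nx W) := nx_injective W
  have hex : ∃ n, lab ((nx W)^[n] q) ∈ E := by
    have hLpos := hL.pos
    obtain ⟨L, rfl⟩ : ∃ L', L = L' + 1 := ⟨L - 1, by omega⟩
    have hxl : x = (nx W)^[L] q := by
      apply hinj
      rw [hx, ← Function.iterate_succ_apply' (nx W), hL.per]
    rcases Nat.eq_zero_or_pos L with h0 | h0
    · exfalso
      subst h0
      have e : x = q := hxl
      apply hq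
      have h1 : plab x = lab x := by
        conv_lhs => rw [e, ← hx]
        exact plab_nx W x
      rw [e] at h1 hxE
      rw [← h1]; exact hxE
    · obtain ⟨L, rfl⟩ : ∃ L', L = L' + 1 := ⟨L - 1, by omega⟩
      refine ⟨L, ?_⟩
      rw [hxl, Function.iterate_succ_apply', plab_nx] at hxE
      exact hxE
  set n := Nat.find hex with hn
  have hz : lab ((nx W)^[n] q) ∈ E := Nat.find_spec hex
  have hlt : ∀ i < n, lab ((nx W)^[i] q) ∉ E := fun i hi => Nat.find_min hex hi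
  have hn0 : 0 < n := by
    rcases Nat.eq_zero_or_pos n with h0 | h0
    · rw [h0] at hz; exact absurd hz hq
    · exact h0
  have hcoz : ∀ i ≤ n, Co W (vx q) (vx ((nx W)^[i] q)) ∧
      DCo (E ∪ W) (fi q) (fi ((nx W)^[i] q)) := by
    intro i
    induction i with
    | zero => intro _; exact ⟨Co.refl _ _, DCo.refl _ _⟩
    | succ i ih =>
      intro hi
      obtain ⟨h1, h2⟩ := ih (by omega)
      rw [Function.iterate_succ_apply']
      refine ⟨h1.trans (co_nx_step fun hl => hl), h2.trans (dco_nx_step fun hl => ?_)⟩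
      rw [mem_union, not_or]
      exact ⟨hlt i (by omega), hl⟩
  obtain ⟨m, hm⟩ : ∃ m, n = m + 1 := ⟨n - 1, by omega⟩
  have hplz : plab ((nx W)^[n] q) ∉ E := by
    rw [hm, Function.iterate_succ_apply', plab_nx]
    exact hlt m (by omega)
  have hr' : Co W (vx r) (vx (nx W r)) := co_nx_step fun hl => hl
  have hf' : DCo (E ∪ W) (fi r) (fi (nx W r)) := dco_nx_step fun hl => by
    rw [mem_union, not_or]
    exact ⟨hr, hl⟩
  have heq := entrance_unique hconn hodd hd hz hplz hr2 (by rw [plab_nx]; exact hr)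
    (((hcoz n le_rfl).1.symm.trans hco).trans hr')
    (by rw [union_comm]; exact ((hcoz n le_rfl).2.symm.trans hdco).trans hf')
  refine ⟨m, fun i hi => hlt i (by omega), ?_⟩
  rw [hm, Function.iterate_succ_apply'] at heq
  exact hinj heq

/-! ### Labels at the corners of a shape -/

/-- labels around the tail of a side -/
lemma ql_tail (h : ℕ) (s : Cell × ℤ) : ql (rvS h s) s.2 = lt (ot (2 * h) s 0) ∧
    ql (rvS h s) (s.2 + 1) = lt (it (2 * h) s 0) := by
  have h1 := tv_rvS h s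
  unfold ot it
  rw [← h1]
  unfold ql lt tv
  rcases io_dir s.2 with ⟨a, b, c, d⟩ | ⟨a, b, c, d⟩ | ⟨a, b, c, d⟩ | ⟨a, b, c, d⟩ <;>
    rcases io_dir (s.2 + 1) with ⟨a', -, c', -⟩ | ⟨a', -, c', -⟩ | ⟨a', -, c', -⟩ |
      ⟨a', -, c', -⟩ <;>
    first
    | (exfalso; omega)
    | (rw [b, c, d, c']
       constructor <;> refine Prod.ext ?_ ?_ <;> simp only [Prod.fst_add, Prod.snd_add] <;> ring)

/-- labels around the head of a side -/
lemma ql_head (h : ℕ) (Q : Finset Cell) (s : Cell × ℤ) :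
    ql (rvS h (nextSide Q s)) (s.2 - 1) = lt (ot (2 * h) s (2 * h - 1)) ∧
    ql (rvS h (nextSide Q s)) (s.2 + 2) = lt (it (2 * h) s (2 * h - 1)) ∧
    ql (rvS h (nextSide Q s)) s.2 = lt (ot (2 * h) s (2 * h)) := by
  refine ⟨?_, ?_, ?_⟩
  · have h1 := tv_rvS h (nextSide Q s)
    have e1 : wp (2 * (h : ℤ)) s (2 * h) = wp (2 * h) s (2 * h - 1) + (1 * (dir s.2).1, 1 * (dir s.2).2) := by
      rw [← wp_add]; congr 1; ring
    rw [wp_next, e1] at h1
    unfold ot it
    set v := rvS h (nextSide Q s)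
    set w := wp (2 * (h : ℤ)) s (2 * h - 1)
    have hw : w = tv v - (1 * (dir s.2).1, 1 * (dir s.2).2) := by rw [h1, add_sub_cancel_right]
    rw [hw]
    unfold ql lt tv
    rcases io_dir s.2 with ⟨a, b, c, d⟩ | ⟨a, b, c, d⟩ | ⟨a, b, c, d⟩ | ⟨a, b, c, d⟩ <;>
      rw [b, c, d] <;> refine Prod.ext ?_ ?_ <;>
      simp only [Prod.fst_add, Prod.snd_add, Prod.fst_sub, Prod.snd_sub] <;> ring
  · have h1 := tv_rvS h (nextSide Q s)
    have e1 : wp (2 * (h : ℤ)) s (2 * h) = wp (2 * h) s (2 * h - 1) + (1 * (dir s.2).1, 1 * (dir s.2).2) := by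
      rw [← wp_add]; congr 1; ring
    rw [wp_next, e1] at h1
    unfold it
    set v := rvS h (nextSide Q s)
    set w := wp (2 * (h : ℤ)) s (2 * h - 1)
    have hw : w = tv v - (1 * (dir s.2).1, 1 * (dir s.2).2) := by rw [h1, add_sub_cancel_right]
    rw [hw]
    unfold ql lt tv
    rcases io_dir s.2 with ⟨a, b, c, d⟩ | ⟨a, b, c, d⟩ | ⟨a, b, c, d⟩ | ⟨a, b, c, d⟩ <;>
      rcases io_dir (s.2 + 2) with ⟨a', -, c', -⟩ | ⟨a', -, c', -⟩ | ⟨a', -, c', -⟩ |
        ⟨a', -, c', -⟩ <;>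
      first
      | (exfalso; omega)
      | (rw [b, c, c']; refine Prod.ext ?_ ?_ <;>
          simp only [Prod.fst_add, Prod.snd_add, Prod.fst_sub, Prod.snd_sub] <;> ring)
  · rw [lt_diag h Q]; rfl

lemma mc_oc (v : ℤ × ℤ) (k : ℤ) : mc 0 (oc v k) = oc (mv v) (2 - k) := by
  unfold mc oc mv
  have h : k % 4 = 0 ∨ k % 4 = 1 ∨ k % 4 = 2 ∨ k % 4 = 3 := by omega
  rcases h with h | h | h | h
  · have h2 : (2 - k) % 4 = 2 := by omega
    simp [h, h2]
    refine ⟨?_, ?_⟩ <;> ring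
  · have h2 : (2 - k) % 4 = 1 := by omega
    simp [h, h2]
    ring
  · have h2 : (2 - k) % 4 = 0 := by omega
    simp [h, h2]
  · have h2 : (2 - k) % 4 = 3 := by omega
    simp [h, h2]
    ring

/-- the exit corner at the head of a side -/
def qcS (h : ℕ) (Q : Finset Cell) (s : Cell × ℤ) : ℤ × ℤ := oc (rvS h (nextSide Q s)) (s.2 + 1)

lemma mc_qcS (h : ℕ) (Q : Finset Cell) (s : Cell × ℤ) : mc 0 (qcS h Q s) = rcS h (mside s) := by
  unfold qcS rcS
  rw [mc_oc, rvS_mside h Q]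
  congr 1
  unfold mside
  simp only
  ring

/-! ### Dual connections of the mirror -/

lemma dco_mir {A : Finset (ℤ × ℤ)} {f g : ℤ × ℤ} (h : DCo A f g) :
    DCo (A.image (ml 0)) (mf f) (mf g) := by
  obtain ⟨F, hF⟩ := h
  induction hF with
  | refl => exact DCo.refl _ _
  | @tail u v _ huv ih =>
    refine ih.trans (DCo.step ?_ ?_)
    · have h1 := huv.1
      unfold IsUnit4 at h1 ⊢
      unfold mf
      simp only [Prod.ext_iff, Prod.fst_sub, Prod.snd_sub] at h1 ⊢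
      omega
    · have h2 := (Pool.Agent.H33.Q1.mem_du (E := F) (ω := A) (l := u + v - (1, 1))).1 (by
        rw [sub_add_cancel]; exact huv.2)
      rw [mem_image_ml]
      have e : ml 0 (mf u + mf v - (1, 1)) = u + v - (1, 1) := by
        unfold ml mf
        refine Prod.ext ?_ ?_ <;> simp only [Prod.fst_add, Prod.snd_add, Prod.fst_sub, Prod.snd_sub] <;>
          ring
      rw [e]
      exact h2.2

lemma image_image_ml (A : Finset (ℤ × ℤ)) : (A.image (ml 0)).image (ml 0) = A := by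
  rw [image_image]
  have : ml 0 ∘ ml 0 = id := by funext e; simp
  rw [this, image_id]

lemma image_mcell (Q : Finset Cell) : (Q.image mcell).image mcell = Q := by
  rw [image_image]
  have : mcell ∘ mcell = id := by funext c; simp
  rw [this, image_id]

lemma mf_cc (h : ℕ) (c : Cell) : mf (fi (zu (lt (cc h c)))) = fi (zu (lt (mtl (cc h c)))) := by
  have h1 : ((cc h c).1 + (cc h c).2) % 2 = 0 := by
    unfold cc; simp only
    have : 2 * (h : ℤ) * c.1 + h + (2 * h * c.2 + h) = 2 * (h * c.1 + h * c.2 + h) := by ring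
    omega
  have h2 : ((mtl (cc h c)).1 + (mtl (cc h c)).2) % 2 = 1 := by
    unfold mtl; simp only; omega
  rw [(zf_even h1).1, (zf_odd h2).1]
  set p := cc h c
  have e : tf (mf (fct (p + (1, 0)))) = mtl p := by
    rw [tf_mf, tf_fct (by simp only [Prod.fst_add, Prod.snd_add]; omega)]
    unfold mg mtl
    refine Prod.ext ?_ ?_ <;> simp only [Prod.fst_add, Prod.snd_add] <;> ring
  rw [← e, fct_tf]

variable {S : Shape} {h : ℕ}

lemma mtl_cc (h : ℕ) (c : Cell) : mtl (cc h c) + dir 0 = cc h (mcell c) := by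
  have : dir 0 = (1, 0) := rfl
  rw [this]
  unfold mtl cc mcell
  refine Prod.ext ?_ ?_ <;> simp only [Prod.fst_add, Prod.snd_add] <;> ring

lemma nb_cc {Q : Finset Cell} (hh : 4 ≤ h) {c : Cell} (hc : c ∉ Q) {p : ℤ × ℤ}
    (h1 : |p.1 - (cc h c).1| ≤ 1) (h2 : p.2 = (cc h c).2) : Nb (2 * h) Q 2 p := by
  have hhz : (4 : ℤ) ≤ h := by exact_mod_cast hh
  refine nb_of hc hc fun q hq1 hq2 => Or.inl ?_
  rw [ct_eq (by omega)]
  rw [abs_le] at hq1 hq2 h1
  unfold cc at h1 h2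
  simp only at h1 h2
  have e1 : c.1 * (2 * (h : ℤ)) = 2 * h * c.1 := by ring
  have e2 : c.2 * (2 * (h : ℤ)) = 2 * h * c.2 := by ring
  rw [e1, e2]
  constructor <;> constructor <;> linarith

/-- the condition on the band at a root -/
abbrev BOK (S : Shape) (B : Finset (Cell × ℤ)) (s : Cell × ℤ) : Prop :=
  ∀ s' ∈ B, IsSide S.P.Q s' ∧ ¬ (s'.1 = s.1 ∧ ((s'.2 - s.2) % 4 = 0 ∨ (s'.2 - s.2) % 4 = 3))

/-- a root is joined to the far tiles -/
lemma far_root (hh : 4 ≤ h) {B : Finset (Cell × ℤ)} {s : Cell × ℤ} (hs : IsSide S.P.Q s)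
    (hc : s.1 - dir s.2 ∉ S.P.Q) (hB : BOK S B s) {c : Cell} (hcc : c ∉ S.P.Q) :
    DCo (EE S h ∪ WB S h B) (fi (rcS h s)) (fi (zu (lt (cc h c)))) := by
  have hN := near_all (S := S) (h := h) (by omega) (fun s hs => (hB s hs).1)
  exact (dco_rc S.P.good hs hc hh hN (ot2_notin hh hs hc hB)).trans
    (dco_ccs S.P.good (by omega) hN hs.2 hcc)

/-- an exit is joined to the far tiles -/
lemma far_exit (hh : 4 ≤ h) {B B' : Finset (Cell × ℤ)} {s : Cell × ℤ}
    (hW : WB S.mir h B' = (WB S h B).image (ml 0)) (hBs : ∀ s ∈ B, IsSide S.P.Q s)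
    (hs : IsSide S.P.Q s)
    (hc : (mside s).1 - dir (mside s).2 ∉ S.mir.P.Q) (hB : BOK S.mir B' (mside s)) {c : Cell}
    (hcc : c ∉ S.P.Q) :
    DCo (EE S h ∪ WB S h B) (fi (qcS h S.P.Q s)) (fi (zu (lt (cc h c)))) := by
  have hc' : mcell c ∉ S.mir.P.Q := fun h1 => hcc (mem_mcell.1 h1)
  have h1 := far_root (S := S.mir) hh (isSide_mside hs) hc hB hc'
  have h2 := dco_mir h1
  rw [image_union, hW, EE_mir (by omega), image_image_ml, image_image_ml, ← mc_qcS h S.P.Q,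
    fi_mc0, mf_mf, mf_cc] at h2
  refine h2.trans ?_
  have h3 := dco_edge (w := EE S h ∪ WB S h B) (p := mtl (cc h (mcell c))) (k := 0)
    (fun h4 => near_all (by omega) hBs _ h4 (nb_cc hh hcc ?_ ?_))
    (fun h4 => near_all (by omega) hBs _ h4 (nb_cc hh hcc ?_ ?_))
  · rw [mtl_cc, mcell_mcell] at h3; exact h3
  · have e := mtl_cc h (mcell c)
    rw [mcell_mcell] at e
    have e0 : dir 0 = (1, 0) := rfl
    rw [e0] at e
    have e1 := congrArg Prod.fst e
    simp only [Prod.fst_add] at e1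
    rw [abs_le]; constructor <;> linarith
  · have e := mtl_cc h (mcell c)
    rw [mcell_mcell] at e
    have e0 : dir 0 = (1, 0) := rfl
    rw [e0] at e
    have e1 := congrArg Prod.snd e
    simp only [Prod.snd_add] at e1
    linarith
  · rw [mtl_cc, mcell_mcell]; simp
  · rw [mtl_cc, mcell_mcell]

/-! ### The deterministic piece from the exit to the root -/

/-- from the exit at the head of the side `j` to the root at the tail of the side `i` -/
theorem piece (hh : 4 ≤ h) {B B' : Finset (Cell × ℤ)}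
    (hW : WB S.mir h B' = (WB S h B).image (ml 0)) {i j : ℕ} (hi : S.Fr i) (hj : S.Fr j)
    (hic : (S.P.side i).1 - dir (S.P.side i).2 ∉ S.P.Q)
    (hjc : (mside (S.P.side j)).1 - dir (mside (S.P.side j)).2 ∉ S.mir.P.Q)
    (hjd : (S.P.side j).1 + dir (S.P.side j).2 + dir ((S.P.side j).2 - 1) ∉ S.P.Q)
    (hB : BOK S B (S.P.side i)) (hB' : BOK S.mir B' (mside (S.P.side j)))
    (hco : Co (WB S h B) (rvS h (S.P.side (j + 1))) (rvS h (S.P.side i))) :
    ∃ m, (∀ t < m, lab ((nx (WB S h B))^[t] (qcS h S.P.Q (S.P.side j))) ∉ EE S h) ∧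
      (nx (WB S h B))^[m] (qcS h S.P.Q (S.P.side j)) = rcS h (S.P.side i) := by
  have hhz : (4 : ℤ) ≤ h := by exact_mod_cast hh
  have hn : (0 : ℤ) < 2 * h := by omega
  have hwir := wir_WB (S := S) (h := h) (by omega) B
  have hsj := side_isSide S j
  have hsi := side_isSide S i
  obtain ⟨a1, a2, a3⟩ := ql_head h S.P.Q (S.P.side j)
  obtain ⟨b1, b2⟩ := ql_tail h (S.P.side i)
  set x := oc (rvS h (nextSide S.P.Q (S.P.side j))) (S.P.side j).2 with hx
  have hot : ∀ l, S.Fr l → ∀ t, 0 ≤ t → t < 2 * (h : ℤ) → lt (ot (2 * h) (S.P.side l) t) ∉ WB S h B ∧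
      lt (ot (2 * h) (S.P.side l) t) ∉ EE S h := by
    intro l hl t ht0 ht1
    have h1 : lt (ot (2 * h) (S.P.side l) t) ∈ LY (2 * h) (S.P.side l) :=
      (mem_LY' hn).2 ⟨t, ⟨ht0, ht1⟩, rfl⟩
    exact ⟨disjoint_left.1 (hwir.free l hl) h1,
      fun h2 => disjoint_left.1 (disj_TL_LY hn (side_isSide S l)) h2 h1⟩
  have hit : ∀ l t, 0 ≤ t → t < 2 * (h : ℤ) → lt (it (2 * h) (S.P.side l) t) ∈ EE S h := by
    intro l t ht0 ht1
    refine (mem_TL hn).2 ⟨lt_odd _, ?_⟩
    rw [tt_lt, ct_it _ ht0 ht1]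
    exact (side_isSide S l).1
  refine exists_back (E := EE S h) (W := WB S h B) (x := x)
    (fun e he => ((mem_TL hn).1 he).1) (tConn_TL S.P.good.conn hn) hwir.disj.symm ?_ ?_ ?_ ?_ ?_ ?_ ?_
  · -- the step from the exit
    have h1 : lab x ∉ WB S h B := by
      rw [hx, lab_oc, a1]
      exact (hot j hj _ (by omega) (by omega)).1
    unfold nx
    rw [if_neg h1, hx, nxC_oc]
    rfl
  · rw [hx, plab_oc, a2]
    exact hit j _ (by omega) (by omega)
  · -- the diagonal tile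
    unfold qcS
    rw [lab_oc, add_sub_cancel_right, a3]
    intro h2
    have h3 := ((mem_TL hn).1 h2).2
    rw [tt_lt] at h3
    apply hjd
    convert h3 using 1
    symm
    rw [ct_eq hn]
    unfold ot it wp
    rw [tail_io]
    rcases io_dir (S.P.side j).2 with ⟨-, b, c, d⟩ | ⟨-, b, c, d⟩ | ⟨-, b, c, d⟩ | ⟨-, b, c, d⟩ <;>
      rw [b, c, d] <;>
      simp only [Prod.fst_add, Prod.snd_add, Prod.fst_sub, Prod.snd_sub] <;> ring_nf <;>
      constructor <;> constructor <;> linarith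
  · unfold rcS
    rw [lab_oc, add_sub_cancel_right, b1]
    exact (hot i hi 0 le_rfl (by omega)).2
  · have h1 : lab (rcS h (S.P.side i)) ∉ WB S h B := by
      unfold rcS
      rw [lab_oc, add_sub_cancel_right, b1]
      exact (hot i hi 0 le_rfl (by omega)).1
    unfold nx
    rw [if_neg h1]
    unfold rcS
    rw [nxC_oc, lab_oc, add_sub_cancel_right, b2]
    exact hit i 0 le_rfl (by omega)
  · unfold qcS rcS
    rw [vx_oc, vx_oc, ← side_succ']
    exact hco
  · exact (far_exit hh hW (fun s hs => (hB s hs).1) hsj hjc hB' hsj.2).trans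
      (far_root hh hsi hic hB hsj.2).symm

/-- **Mirror of an environment.** -/
theorem mirror_gen (hh : 4 ≤ h) {B B' : Finset (Cell × ℤ)}
    (hW : WB S.mir h B' = (WB S h B).image (ml 0)) {i j : ℕ} (hi : S.Fr i) (hj : S.Fr j)
    (hic : (S.P.side i).1 - dir (S.P.side i).2 ∉ S.P.Q)
    (hjc : (mside (S.P.side j)).1 - dir (mside (S.P.side j)).2 ∉ S.mir.P.Q)
    (hjd : (S.P.side j).1 + dir (S.P.side j).2 + dir ((S.P.side j).2 - 1) ∉ S.P.Q)
    (hB : BOK S B (S.P.side i)) (hB' : BOK S.mir B' (mside (S.P.side j)))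
    (hco : Co (WB S h B) (rvS h (S.P.side (j + 1))) (rvS h (S.P.side i)))
    {k0 k0' : ℤ} {X X' : Env} (hX : IsEnv S h (WB S h B) (rcS h (S.P.side i)) k0 X)
    (hX' : IsEnv S.mir h (WB S.mir h B') (rcS h (mside (S.P.side j))) k0' X') :
    ∃ κ : ℤ, ∀ c, (lab c ∈ EE S h ∨ plab c ∈ EE S h) →
      X'.inc (mc 0 c) = ph κ * (starRingEnd ℂ) (X.inc c) := by
  have hhz : (4 : ℤ) ≤ h := by exact_mod_cast hh
  have hn : (0 : ℤ) < 2 * h := by omega
  obtain ⟨m, hm, hm2⟩ := piece hh hW hi hj hic hjc hjd hB hB' hco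
  obtain ⟨hP, hE, hc, hk, hT⟩ := hX
  obtain ⟨hP', hE', hc', hk', hT'⟩ := hX'
  rw [hW] at hP'
  refine ⟨_, fun c hcc => mirror_inc hP hP' ?_ (m := m) (c1 := qcS h S.P.Q (S.P.side j)) ?_ ?_ ?_ ?_ ?_⟩
  · rw [hE, hE', EE_mir (by omega)]
  · intro t ht; rw [hE]; exact hm t ht
  · rw [hc]; exact hm2
  · right
    rw [hc, hE]
    constructor
    · unfold rcS
      rw [lab_oc, add_sub_cancel_right, (ql_tail h (S.P.side i)).1]
      have h1 : lt (ot (2 * h) (S.P.side i) 0) ∈ LY (2 * h) (S.P.side i) :=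
        (mem_LY' hn).2 ⟨0, ⟨le_rfl, by omega⟩, rfl⟩
      exact fun h2 => disjoint_left.1 (disj_TL_LY hn (side_isSide S i)) h2 h1
    · exact root_plabS S.P.good (side_isSide S i) hic (by omega)
  · rw [hc', mc_qcS]
  · rw [hE]; exact hcc


/-! ### Changing the lift -/

lemma mside_add_four (s : Cell × ℤ) :
    mside s = ((mside (s.1, s.2 + 4)).1, (mside (s.1, s.2 + 4)).2 + 4) := by
  unfold mside; refine Prod.ext rfl ?_; simp only; ring

lemma rcS_four (h : ℕ) (s : Cell × ℤ) : rcS h (s.1, s.2 + 4) = rcS h s := by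
  unfold rcS
  rw [rvS_four]
  exact oc_congr _ (by simp only; omega)

lemma rcS_mside_four (h : ℕ) (s : Cell × ℤ) : rcS h (mside (s.1, s.2 + 4)) = rcS h (mside s) := by
  rw [mside_add_four s, rcS_four]

lemma BOK.four {B : Finset (Cell × ℤ)} {s : Cell × ℤ} (h : BOK S B (mside (s.1, s.2 + 4))) :
    BOK S B (mside s) := by
  intro s' hs'
  obtain ⟨h1, h2⟩ := h s' hs'
  refine ⟨h1, fun h3 => h2 ?_⟩
  unfold mside at h3 ⊢
  simp only at h3 ⊢
  obtain ⟨h4, h5⟩ := h3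
  refine ⟨h4, ?_⟩
  omega

lemma conv_four {Q : Finset Cell} {s : Cell × ℤ}
    (h : (mside (s.1, s.2 + 4)).1 - dir (mside (s.1, s.2 + 4)).2 ∉ Q) :
    (mside s).1 - dir (mside s).2 ∉ Q := by
  have e : dir (mside (s.1, s.2 + 4)).2 = dir (mside s).2 :=
    Pool.Agent.Q1.M4.dir_congr (by unfold mside; simp only; omega)
  rw [e] at h
  exact h

/-- no diagonal cell at a convex head -/
lemma cvx_diag {j : ℕ} (hc : S.P.side (j + 1) = ((S.P.side j).1, (S.P.side j).2 + 1)) :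
    (S.P.side j).1 + dir (S.P.side j).2 + dir ((S.P.side j).2 - 1) ∉ S.P.Q := by
  rw [side_succ'] at hc
  rcases next_cases S.P.Q (S.P.side j) with ⟨-, e⟩ | ⟨-, -, e⟩ | ⟨h1, -, -⟩
  · rw [hc] at e
    have := congrArg Prod.snd e
    simp only at this
    omega
  · rw [hc] at e
    have := congrArg Prod.snd e
    simp only at this
    omega
  · exact h1

lemma side0_mir (S : Shape) : S.mir.P.side 0 = mside ((S.P.side (S.P.m - 1)).1,
    (S.P.side (S.P.m - 1)).2 + 4) := by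
  have hm := S.P.hm0
  rw [side_lt hm, side_period]
  simp

lemma side3_mir (S : Shape) : S.mir.P.side S.mir.m3 = mside ((S.P.side (S.m2 - 1)).1,
    (S.P.side (S.m2 - 1)).2 + 4) := by
  have hm := S.P.hm0
  have h34 := S.h34
  have h23 := S.h23
  have h02 := S.h02
  have e : S.mir.m3 = S.P.m - S.m2 := rfl
  rw [e, side_lt (by omega), side_period]
  have e2 : S.P.m - 1 - (S.P.m - S.m2) = S.m2 - 1 := by omega
  rw [e2]

lemma r1_mir (S : Shape) (h : ℕ) : r1 S.mir h = rcS h (mside (S.P.side (S.P.m - 1))) := by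
  rw [r1_eq, side0_mir, rcS_mside_four]

lemma r3_mir (S : Shape) (h : ℕ) : r3 S.mir h = rcS h (mside (S.P.side (S.m2 - 1))) := by
  rw [r3_eq, side3_mir, rcS_mside_four]

lemma fr0 (S : Shape) : S.Fr 0 := Or.inl S.h02
lemma fr3 (S : Shape) : S.Fr S.m3 := Or.inr ⟨le_rfl, S.h34⟩
lemma fr_m (S : Shape) : S.Fr (S.P.m - 1) := by
  have h34 := S.h34
  exact Or.inr ⟨by omega, by unfold Shape.m4; omega⟩
lemma fr_2 (S : Shape) : S.Fr (S.m2 - 1) := by
  have h02 := S.h02
  exact Or.inl (by omega)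

lemma cvx_m (S : Shape) : S.P.side (S.P.m - 1 + 1) =
    ((S.P.side (S.P.m - 1)).1, (S.P.side (S.P.m - 1)).2 + 1) :=
  S.cvx _ (by have := S.P.hm0; omega)

lemma cvx_2 (S : Shape) : S.P.side (S.m2 - 1 + 1) =
    ((S.P.side (S.m2 - 1)).1, (S.P.side (S.m2 - 1)).2 + 1) :=
  S.cvx _ (by have := S.h02; omega)

lemma hjc_m (S : Shape) : (mside (S.P.side (S.P.m - 1))).1 - dir (mside (S.P.side (S.P.m - 1))).2 ∉
    S.mir.P.Q := by
  have h1 := conv0 S.mir
  rw [side0_mir] at h1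
  exact conv_four h1

lemma hjc_2 (S : Shape) : (mside (S.P.side (S.m2 - 1))).1 - dir (mside (S.P.side (S.m2 - 1))).2 ∉
    S.mir.P.Q := by
  have h1 := conv3 S.mir
  rw [side3_mir] at h1
  exact conv_four h1

lemma coIV' (hh : 1 ≤ h) (B : Finset (Cell × ℤ)) :
    Co (WB S h B) (rvS h (S.P.side (S.P.m - 1 + 1))) (rvS h (S.P.side 0)) := by
  have h1 := co_IV (S := S) hh B
  rw [v1_eq] at h1
  have e : S.P.m - 1 + 1 = S.P.m := by have := S.P.hm0; omega
  rw [e]; exact h1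

lemma coII' (hh : 1 ≤ h) (B : Finset (Cell × ℤ)) :
    Co (WB S h B) (rvS h (S.P.side (S.m2 - 1 + 1))) (rvS h (S.P.side S.m3)) := by
  have h1 := co_II (S := S) hh B
  rw [v3_eq] at h1
  have e : S.m2 - 1 + 1 = S.m2 := by have := S.h02; omega
  rw [e]; exact h1

variable {k0 k0' : ℤ} {X X' : Env}

/-- **Mirror, wiring `W0`, root at the first mark.** -/
theorem mirror_01 (hh : 4 ≤ h) (hX : IsEnv S h (W0 S h) (r1 S h) k0 X)
    (hX' : IsEnv S.mir h (W0 S.mir h) (r1 S.mir h) k0' X') :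
    ∃ κ : ℤ, ∀ c, (lab c ∈ EE S h ∨ plab c ∈ EE S h) →
      X'.inc (mc 0 c) = ph κ * (starRingEnd ℂ) (X.inc c) := by
  rw [r1_mir] at hX'
  rw [r1_eq] at hX
  rw [← WB_empty] at hX hX'
  exact mirror_gen hh (by rw [WB_empty, WB_empty, W0_mir (by omega)]) (fr0 S) (fr_m S) (conv0 S)
    (hjc_m S) (cvx_diag (cvx_m S)) (by simp [BOK]) (by simp [BOK]) (coIV' (by omega) _) hX hX'

/-- **Mirror, wiring `W0`, root at the third mark.** -/
theorem mirror_03 (hh : 4 ≤ h) (hX : IsEnv S h (W0 S h) (r3 S h) k0 X)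
    (hX' : IsEnv S.mir h (W0 S.mir h) (r3 S.mir h) k0' X') :
    ∃ κ : ℤ, ∀ c, (lab c ∈ EE S h ∨ plab c ∈ EE S h) →
      X'.inc (mc 0 c) = ph κ * (starRingEnd ℂ) (X.inc c) := by
  rw [r3_mir] at hX'
  rw [r3_eq] at hX
  rw [← WB_empty] at hX hX'
  exact mirror_gen hh (by rw [WB_empty, WB_empty, W0_mir (by omega)]) (fr3 S) (fr_2 S) (conv3 S)
    (hjc_2 S) (cvx_diag (cvx_2 S)) (by simp [BOK]) (by simp [BOK]) (coII' (by omega) _) hX hX'

/-- **Mirror, wiring `W34`, root at the first mark**: wiring `W12` of the mirror, root at the third. -/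
theorem mirror_34 (hh : 4 ≤ h) (hX : IsEnv S h (W34 S h) (r1 S h) k0 X)
    (hX' : IsEnv S.mir h (W12 S.mir h) (r3 S.mir h) k0' X') :
    ∃ κ : ℤ, ∀ c, (lab c ∈ EE S h ∨ plab c ∈ EE S h) →
      X'.inc (mc 0 c) = ph κ * (starRingEnd ℂ) (X.inc c) := by
  rw [r3_mir] at hX'
  rw [r1_eq] at hX
  have hB' : BOK S.mir (BI S.mir) (mside (S.P.side (S.m2 - 1))) := by
    have h1 := BI_3 (S := S.mir)
    rw [side3_mir] at h1
    exact BOK.four h1
  have hco := (coII' (S := S) (h := h) (by omega) (BIII S)).trans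
    (v3_eq (S := S) (h := h) ▸ (co_W34 (S := S) hh).symm)
  rw [v1_eq] at hco
  exact mirror_gen hh (W12_mir (by omega)) (fr0 S) (fr_2 S) (conv0 S) (hjc_2 S) (cvx_diag (cvx_2 S))
    BIII_1 hB' hco hX hX'

/-- **Mirror, wiring `W12`, root at the third mark**: wiring `W34` of the mirror, root at the first. -/
theorem mirror_12 (hh : 4 ≤ h) (hX : IsEnv S h (W12 S h) (r3 S h) k0 X)
    (hX' : IsEnv S.mir h (W34 S.mir h) (r1 S.mir h) k0' X') :
    ∃ κ : ℤ, ∀ c, (lab c ∈ EE S h ∨ plab c ∈ EE S h) →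
      X'.inc (mc 0 c) = ph κ * (starRingEnd ℂ) (X.inc c) := by
  rw [r1_mir] at hX'
  rw [r3_eq] at hX
  have hB' : BOK S.mir (BIII S.mir) (mside (S.P.side (S.P.m - 1))) := by
    have h1 := BIII_1 (S := S.mir)
    rw [side0_mir] at h1
    exact BOK.four h1
  have hco := (coIV' (S := S) (h := h) (by omega) (BI S)).trans
    (v1_eq (S := S) (h := h) ▸ (co_W12 (S := S) hh))
  rw [v3_eq] at hco
  exact mirror_gen hh (W34_mir (by omega)) (fr3 S) (fr_m S) (conv3 S) (hjc_m S) (cvx_diag (cvx_m S))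
    BI_3 hB' hco hX hX'

/-- **The mirror of the primitive.** -/
theorem gprim_mir {E : Finset (ℤ × ℤ)} {κ : ℤ} (hE : X.E = E) (hE' : X'.E = E.image (ml 0))
    (hinc : ∀ c, (lab c ∈ E ∨ plab c ∈ E) → X'.inc (mc 0 c) = ph κ * (starRingEnd ℂ) (X.inc c))
    {Ht : ℤ × ℤ → ℂ} (hH : GPrim X Ht) :
    GPrim X' fun p => ph κ * (starRingEnd ℂ) (Ht (mg p)) := by
  intro c' hc'
  obtain ⟨c, rfl⟩ : ∃ c, c' = mc 0 c := ⟨mc 0 c', (mc_mc 0 c').symm⟩
  rw [hE', lab_mc, plab_mc, mem_ml, mem_ml] at hc'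
  have hc : lab c ∈ E ∨ plab c ∈ E := hc'.symm
  rw [hinc c hc, ← hH c (by rw [hE]; exact hc)]
  simp only [vx_mc0, fi_mc0, tv_mv, tf_mf, mg_mg, map_sub]
  ring

end Pool.Agent.H33.FM
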